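import Pool.Agent.H862.EC.Dat

/-!
# Order, amplitude, Riemann hypothesis for the `L`-function of a newform of weight two
-/

set_option autoImplicit false
set_option linter.unusedSectionVars false

open Complex Filter Topology Set CongruenceSubgroup MeasureTheory
open scoped MatrixGroups ComplexConjugate
open Pool.Agent.TH941 (Hecke)
open Pool.Agent.W165.RS (ac ac_zero)
open Pool.Agent.NH98.RT (Fricke)
open Pool.Agent.NH98.RT.Xi
open Pool.Agent.H862.EL (SysL Sys m0 PR PM cf od em_dich em_both)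
open Pool.Agent.N804.LI (EM I0)

namespace Pool.Agent.H862.EC

/-- odd relations under a bijection of the index sets -/
lemma oddRel_of {ι ι' : Type} (e : ι ≃ ι') {lam : ι' → ℝ} (h : OddRel (fun i => lam (e i))) : OddRel lam := by
  obtain ⟨n, h1, h2⟩ := h
  refine ⟨n.mapDomain e, ?_, ?_⟩
  · rw [Finsupp.sum_mapDomain_index (fun i => by simp) (fun i a b => by push_cast; ring)]
    exact h1
  · rw [Finsupp.sum_mapDomain_index (fun i => rfl) (fun i a b => rfl)]
    exact h2

lemma oddRel_equiv {ι ι' : Type} (e : ι ≃ ι') {lam : ι' → ℝ} : OddRel (fun i => lam (e i)) ↔ OddRel lam := by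
  constructor
  · exact oddRel_of e
  · intro h
    apply oddRel_of e.symm
    simpa using h

section

variable {N : ℕ} [NeZero N] {f : CuspForm (Gamma0 N : Subgroup (GL (Fin 2) ℝ)) 2}

/-- the Riemann hypothesis for `L(f, s)`, centre `1` -/
def RHf (f : CuspForm (Gamma0 N : Subgroup (GL (Fin 2) ℝ)) 2) : Prop :=
  ∀ s : ℂ, 0 < s.re → Lf f s = 0 → s.re = 1

lemma rh_iff (hf : Hecke f) {ε : ℂ} (hfe : ∀ s : ℂ, xi f (-s) = ε * xi f s) :
    RHf f ↔ ∀ k : ZX f, (k : ℂ).re = 0 := by
  constructor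
  · intro h k
    have h1 := abs_le.1 (xi_strip hf hfe k.2)
    have h2 := (xi_zero_iff (f := f) (w := (k : ℂ)) (by linarith [h1.1])).1 k.2
    have h3 := h (1 + (k : ℂ)) (by rw [add_re, one_re]; linarith [h1.1]) h2
    rw [add_re, one_re] at h3
    linarith
  · intro h s hs hL
    have h1 : xi f (s - 1) = 0 := by
      rw [xi_zero_iff (by rw [sub_re, one_re]; linarith), add_sub_cancel]
      exact hL
    have h2 := h ⟨s - 1, h1⟩
    have h3 : (s - 1).re = 0 := h2
    rw [sub_re, one_re] at h3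
    linarith

lemma A1_zero : (A1 0).re = 1 := by
  unfold A1
  norm_num

lemma m0_eq : m0 (fun k : ZX f => (k : ℂ)) (fun k => od (xi f) k) A1 = (analyticOrderNatAt (Lf f) 1 : ℝ) := by
  have hord : analyticOrderNatAt (xi f) 0 = analyticOrderNatAt (Lf f) 1 := by
    unfold analyticOrderNatAt
    rw [xi_order (by rw [zero_re]; norm_num), add_zero]
  unfold m0
  rw [A1_zero]
  by_cases h0 : xi f 0 = 0
  · rw [tsum_eq_single (⟨0, h0⟩ : ZX f)]
    · rw [if_pos rfl, mul_one]
      show (analyticOrderNatAt (xi f) 0 : ℝ) = _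
      rw [hord]
    · intro b hb
      rw [if_neg]
      intro h
      exact hb (Subtype.ext h)
  · have h1 : ∀ b : ZX f, (b : ℂ) ≠ 0 := fun b h => h0 (by have h2 := b.2; rwa [h] at h2)
    simp_rw [if_neg (h1 _)]
    rw [tsum_zero, ← hord]
    have : analyticOrderAt (xi f) 0 = 0 := ((xi_diff f).analyticAt 0).analyticOrderAt_eq_zero.2 h0
    unfold analyticOrderNatAt
    rw [this]
    simp

lemma logDeriv_neg {ε : ℂ} (hε : ‖ε‖ = 1) (hfe : ∀ s : ℂ, xi f (-s) = ε * xi f s) (s : ℂ) :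
    logDeriv (xi f) (-s) = -logDeriv (xi f) s := by
  have hε0 : ε ≠ 0 := by
    intro h
    rw [h, norm_zero] at hε
    exact zero_ne_one hε
  have h1 : logDeriv (fun z : ℂ => xi f (-z)) s = logDeriv (xi f) (-s) * (-1) := by
    have hd : HasDerivAt (fun z : ℂ => -z) (-1) s := (hasDerivAt_id s).neg
    have h := logDeriv_comp (f := xi f) (g := fun z : ℂ => -z) (x := s) (xi_diff f _) hd.differentiableAt
    rw [hd.deriv] at h
    exact h
  have h2 : logDeriv (fun z : ℂ => xi f (-z)) s = logDeriv (xi f) s := by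
    have : (fun z : ℂ => xi f (-z)) = fun z => ε * xi f z := funext hfe
    rw [this, logDeriv_const_mul _ _ hε0]
  rw [h2] at h1
  linear_combination h1

lemma gamma_two : logDeriv Complex.Gamma 2 = ((1 - Real.eulerMascheroniConstant : ℝ) : ℂ) := by
  have h := Complex.digamma_apply_add_one 1 (fun m => by
    intro h
    have := congrArg Complex.re h
    simp at this
    have h2 : (0 : ℝ) ≤ m := Nat.cast_nonneg m
    linarith)
  rw [Complex.digamma_one] at h
  have e : (1 : ℂ) + 1 = 2 := by norm_num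
  rw [e] at h
  have h2 : logDeriv Complex.Gamma 2 = Complex.digamma 2 := rfl
  rw [h2, h]
  push_cast
  ring

/-- the value at the origin of the sum over the zeros -/
lemma sum_zeros (hf : Hecke f) {ε : ℂ} (hε : ‖ε‖ = 1) (hfe : ∀ s : ℂ, xi f (-s) = ε * xi f s) :
    ∑' k : ZX f, (od (xi f) k : ℂ) * A1 k = ((Real.log N / 2 - Real.log (2 * Real.pi) + 1 -
      Real.eulerMascheroniConstant + S2 f : ℝ) : ℂ) := by
  have h1 := pfg (xi_diff f) (xi_gr hε hfe) ((1 : ℝ) : ℂ) (-((1 : ℝ) : ℂ)) (xi_ne_one hf) (xi_ne_neg hf hε hfe)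
  rw [logDeriv_neg hε hfe, logDeriv_xi hf (by rw [ofReal_re]; norm_num)] at h1
  have e0 : (1 : ℂ) + ((1 : ℝ) : ℂ) = 2 := by push_cast; norm_num
  rw [e0, LS2 hf] at h1
  have h2 := (h1.mul_left (1 / 2)).tsum_eq
  have e1 : ∀ k : ZX f, (1 / 2 : ℂ) * ((analyticOrderNatAt (xi f) (k : ℂ) : ℂ) *
      (1 / (((1 : ℝ) : ℂ) - k) - 1 / (-((1 : ℝ) : ℂ) - k))) = (od (xi f) k : ℂ) * A1 k := by
    intro k
    obtain ⟨m1, m2, m3⟩ := ne_sq (dat hf hε hfe) k
    unfold od A1
    push_cast at m1 m2 m3 ⊢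
    have m4 : (-1 - (k : ℂ)) ≠ 0 := by
      intro h
      apply m3
      linear_combination -h
    have m5 : (1 - (k : ℂ) ^ 2) ≠ 0 := by
      intro h
      apply m1
      linear_combination h
    rw [show (1 : ℂ) - (k : ℂ) ^ 2 = (1 - k) * (1 + k) by ring] at m5 ⊢
    field_simp
    ring
  simp_rw [e1] at h2
  rw [h2]
  unfold Bf
  rw [e0, gamma_two]
  push_cast
  ring

end

end Pool.Agent.H862.EC
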