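import Pool.Agent.H862.EC.App

/-!
# Auxiliary facts for the result files
-/

set_option autoImplicit false
set_option linter.unusedSectionVars false

open Complex Filter Topology Set CongruenceSubgroup MeasureTheory
open scoped MatrixGroups ComplexConjugate
open Pool.Agent.TH941 (Hecke)
open Pool.Agent.W165.RS (ac ac_zero)
open Pool.Agent.NH98.RT (Fricke)
open Pool.Agent.NH98.RT.Xi
open Pool.Agent.H862.EL (SysL Sys m0 PR PM cf od em_dich em_both)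
open Pool.Agent.N804.LI (EM I0)

namespace Pool.Agent.H862.EC

lemma ps_of_real {P : ℝ → ℝ → ℕ → ℝ} (h0 : ∀ a q, P a q 0 = 2) (h1 : ∀ a q, P a q 1 = a)
    (h2 : ∀ a q k, P a q (k + 2) = a * P a q (k + 1) - q * P a q k) (a q : ℝ) (k : ℕ) :
    ps (a : ℂ) (q : ℂ) k = (P a q k : ℂ) := by
  have h : ps (a : ℂ) (q : ℂ) k = (P a q k : ℂ) ∧ ps (a : ℂ) (q : ℂ) (k + 1) = (P a q (k + 1) : ℂ) := by
    induction k with
    | zero =>
      refine ⟨?_, ?_⟩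
      · rw [ps, h0]; norm_num
      · rw [ps, h1]
    | succ k ih =>
      refine ⟨ih.2, ?_⟩
      rw [ps_two, ih.1, ih.2, h2]
      push_cast
      ring
  exact h.1

section

variable {N : ℕ} [NeZero N] {f : CuspForm (Gamma0 N : Subgroup (GL (Fin 2) ℝ)) 2}

open Classical in
/-- the excess in terms of real power sums -/
lemma dl_eq (hf : Hecke f) {P : ℝ → ℝ → ℕ → ℝ} (h0 : ∀ a q, P a q 0 = 2) (h1 : ∀ a q, P a q 1 = a)
    (h2 : ∀ a q k, P a q (k + 2) = a * P a q (k + 1) - q * P a q k) (n : ℕ) :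
    dl f n = if IsPrimePow n then -(P (ac f n.minFac).re (if n.minFac ∣ N then 0 else (n.minFac : ℝ))
      (n.factorization n.minFac) * Real.log n.minFac) else 0 := by
  unfold dl bf bb
  split_ifs with h h3
  · have e1 : ac f n.minFac = ((ac f n.minFac).re : ℂ) := Complex.ext rfl (by simpa using hf.real _)
    have e2 : qN N n.minFac = ((0 : ℝ) : ℂ) := by unfold qN; rw [if_pos h3]; simp
    rw [e1, e2, ps_of_real h0 h1 h2, ← Complex.ofReal_mul, ofReal_re, ofReal_re]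
  · have e1 : ac f n.minFac = ((ac f n.minFac).re : ℂ) := Complex.ext rfl (by simpa using hf.real _)
    have e2 : qN N n.minFac = ((n.minFac : ℝ) : ℂ) := by unfold qN; rw [if_neg h3]; simp
    rw [e1, e2, ps_of_real h0 h1 h2, ← Complex.ofReal_mul, ofReal_re, ofReal_re]
  · simp

open Classical in
/-- the tail of the series -/
lemma tail_eq (hf : Hecke f) {x : ℝ} (hx : 0 < x) :
    (∑' n : ℕ, if x < n then dl f n / (n : ℝ) ^ 2 else 0) =
      S2 f - ∑ n ∈ Finset.Icc 1 ⌊x⌋₊, dl f n / (n : ℝ) ^ 2 := by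
  have h1 : ∑ n ∈ Finset.Icc 1 ⌊x⌋₊, dl f n / (n : ℝ) ^ 2 =
      ∑' n : ℕ, if n ∈ Finset.Icc 1 ⌊x⌋₊ then dl f n / (n : ℝ) ^ 2 else 0 := by
    rw [tsum_eq_sum (s := Finset.Icc 1 ⌊x⌋₊) (fun n hn => if_neg hn)]
    exact Finset.sum_congr rfl fun n hn => (if_pos hn).symm
  have h2 : Summable fun n : ℕ => if n ∈ Finset.Icc 1 ⌊x⌋₊ then dl f n / (n : ℝ) ^ 2 else 0 :=
    summable_of_ne_finset_zero (s := Finset.Icc 1 ⌊x⌋₊) fun n hn => if_neg hn
  rw [h1, S2, ← (bf_div_summable hf).tsum_sub h2]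
  refine tsum_congr fun n => ?_
  by_cases hn : n ∈ Finset.Icc 1 ⌊x⌋₊
  · rw [if_pos hn, sub_self, if_neg]
    rw [not_lt]
    exact (Nat.le_floor_iff hx.le).1 (Finset.mem_Icc.1 hn).2
  · rw [if_neg hn, sub_zero]
    rcases Nat.eq_zero_or_pos n with h0 | h0
    · rw [h0]; simp
    · rw [if_pos]
      rw [Finset.mem_Icc, not_and_or] at hn
      rcases hn with hn | hn
      · exact absurd h0 (by omega)
      · exact (Nat.floor_lt hx.le).1 (not_le.1 hn)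

/-- the function `A` -/
lemma PA_eq (hf : Hecke f) (y : ℝ) : PA f y = 1 / 2 * (1 / Real.exp y * (∑ n ∈ Finset.Icc 1 ⌊Real.exp y⌋₊, dl f n) +
    Real.exp y * ∑' n : ℕ, if Real.exp y < n then dl f n / (n : ℝ) ^ 2 else 0) := by
  rw [tail_eq hf (Real.exp_pos y)]
  unfold PA P2
  rw [Real.exp_neg, one_div (Real.exp y)]

/-- the ordinates of the zeros on the line `Re s = 1` -/
def ords (f : CuspForm (Gamma0 N : Subgroup (GL (Fin 2) ℝ)) 2) : Set ℝ := {t : ℝ | 0 < t ∧ Lf f (1 + t * I) = 0}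

lemma ord_zero (t : ords f) : xi f ((t : ℝ) * I) = 0 := by
  rw [xi_zero_iff (by simp)]
  exact t.2.2

/-- the exponents and the ordinates -/
theorem equiv_exists (h : ∀ k : ZX f, (k : ℂ).re = 0) :
    ∃ e : ords f ≃ {k : ZX f // 0 < (k : ℂ).im}, ∀ t : ords f, ((e t).1 : ℂ) = (t : ℝ) * I := by
  have h2 : ∀ k : ZX f, (((k : ℂ).im : ℝ) : ℂ) * I = k := by
    intro k
    apply Complex.ext
    · simp [h k]
    · simp
  refine ⟨⟨fun t => ⟨⟨(t : ℝ) * I, ord_zero t⟩, ?_⟩, fun k => ⟨(k.1 : ℂ).im, k.2, ?_⟩, ?_, ?_⟩, ?_⟩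
  · show 0 < (((t : ℝ) : ℂ) * I).im
    simpa using t.2.1
  · rw [h2]
    exact (xi_zero_iff (f := f) (w := (k.1 : ℂ)) (by rw [h]; norm_num)).1 k.1.2
  · intro t
    apply Subtype.ext
    show (((t : ℝ) : ℂ) * I).im = t
    simp
  · rintro ⟨k, hk⟩
    apply Subtype.ext
    apply Subtype.ext
    exact h2 k
  · intro t
    rfl

lemma mult_eq (t : ℝ) : analyticOrderNatAt (Lf f) (1 + t * I) = analyticOrderNatAt (xi f) (t * I) := by
  unfold analyticOrderNatAt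
  rw [xi_order (by simp)]

lemma A1_it (t : ℝ) : (A1 (t * I)).re = 1 / (1 + t ^ 2) := by
  have e : A1 (t * I) = ((1 / (1 + t ^ 2) : ℝ) : ℂ) := by
    unfold A1
    rw [mul_pow, I_sq]
    push_cast
    ring
  rw [e, Complex.ofReal_re]

/-- the main theorem under RH -/
theorem main_line (hf : Hecke f) {ε : ℂ} (hε : ‖ε‖ = 1) (hfe : ∀ s : ℂ, xi f (-s) = ε * xi f s)
    (h : RHf f) {κ : ℝ} (hκ : 0 < κ) :
    (∃ E : ℝ, 0 < E ∧ Tendsto (EM (PA f) κ) atTop (𝓝 (Real.exp (κ * (analyticOrderNatAt (Lf f) 1 : ℝ)) * E)) ∧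
      ∏' t : ords f, I0 (2 * κ * ((analyticOrderNatAt (Lf f) (1 + (t : ℝ) * I) : ℝ) / (1 + (t : ℝ) ^ 2))) ≤ E ∧
      (E = ∏' t : ords f, I0 (2 * κ * ((analyticOrderNatAt (Lf f) (1 + (t : ℝ) * I) : ℝ) / (1 + (t : ℝ) ^ 2))) ↔
        LinearIndepOn ℚ id (ords f)) ∧
      ∏' t : ords f, I0 (2 * κ * (1 / (1 + (t : ℝ) ^ 2))) ^ analyticOrderNatAt (Lf f) (1 + (t : ℝ) * I) ≤ E ∧
      (E = ∏' t : ords f, I0 (2 * κ * (1 / (1 + (t : ℝ) ^ 2))) ^ analyticOrderNatAt (Lf f) (1 + (t : ℝ) * I) ↔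
        LinearIndepOn ℚ id (ords f) ∧ ∀ t ∈ ords f, analyticOrderNatAt (Lf f) (1 + (t : ℝ) * I) = 1)) ∧
    0 < (∏' t : ords f, I0 (2 * κ * ((analyticOrderNatAt (Lf f) (1 + (t : ℝ) * I) : ℝ) / (1 + (t : ℝ) ^ 2)))) ∧
    (Multipliable fun t : ords f =>
      I0 (2 * κ * ((analyticOrderNatAt (Lf f) (1 + (t : ℝ) * I) : ℝ) / (1 + (t : ℝ) ^ 2)))) ∧
    Multipliable fun t : ords f =>
      I0 (2 * κ * (1 / (1 + (t : ℝ) ^ 2))) ^ analyticOrderNatAt (Lf f) (1 + (t : ℝ) * I) := by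
  have hl := (rh_iff hf hfe).1 h
  obtain ⟨E, hE, h1, h2, h3, h4, h5, h8, h9⟩ := em_both (m := fun k : ZX f => analyticOrderNatAt (xi f) k)
    (fsys hf hε hfe) (fun k => rfl) (fun k => (sdat hf hε hfe).co k) hl hκ
  obtain ⟨-, -, h6, -, -⟩ := Pool.Agent.H862.EL.em_line (fsys hf hε hfe) hl hκ
  rw [m0_eq] at h1
  obtain ⟨e, he⟩ := equiv_exists hl
  have hmz : ∀ t : ords f, analyticOrderNatAt (xi f) ((e t).1 : ℂ) = analyticOrderNatAt (Lf f) (1 + (t : ℝ) * I) := by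
    intro t
    rw [he t, mult_eq]
  have hf1 : ∀ t : ords f, I0 (2 * κ * ((fun k : ZX f => od (xi f) k) (e t).1 *
      (A1 ((fun k : ZX f => (k : ℂ)) (e t).1)).re)) =
      I0 (2 * κ * ((analyticOrderNatAt (Lf f) (1 + (t : ℝ) * I) : ℝ) / (1 + (t : ℝ) ^ 2))) := by
    intro t
    beta_reduce
    unfold od
    rw [hmz t, he t, A1_it, mul_one_div]
  have hp1 : PR (fun k : ZX f => (k : ℂ)) (fun k => od (xi f) k) A1 κ =
      ∏' t : ords f, I0 (2 * κ * ((analyticOrderNatAt (Lf f) (1 + (t : ℝ) * I) : ℝ) / (1 + (t : ℝ) ^ 2))) := by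
    unfold PR
    rw [← e.tprod_eq]
    exact tprod_congr hf1
  have hf2 : ∀ t : ords f, I0 (2 * κ * (A1 ((fun k : ZX f => (k : ℂ)) (e t).1)).re) ^
      (fun k : ZX f => analyticOrderNatAt (xi f) k) (e t).1 =
      I0 (2 * κ * (1 / (1 + (t : ℝ) ^ 2))) ^ analyticOrderNatAt (Lf f) (1 + (t : ℝ) * I) := by
    intro t
    beta_reduce
    rw [hmz t, he t, A1_it]
  have hp2 : PM (fun k : ZX f => (k : ℂ)) (fun k : ZX f => analyticOrderNatAt (xi f) k) A1 κ =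
      ∏' t : ords f, I0 (2 * κ * (1 / (1 + (t : ℝ) ^ 2))) ^ analyticOrderNatAt (Lf f) (1 + (t : ℝ) * I) := by
    unfold PM
    rw [← e.tprod_eq]
    exact tprod_congr hf2
  have hli : LinearIndependent ℚ (fun k : {k : ZX f // 0 < ((k : ℂ)).im} => ((k.1 : ℂ)).im) ↔
      LinearIndepOn ℚ id (ords f) := by
    unfold LinearIndepOn
    rw [← linearIndependent_equiv e]
    have h6 : ((fun k : {k : ZX f // 0 < ((k : ℂ)).im} => ((k.1 : ℂ)).im) ∘ e) =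
        fun t : ords f => id (t : ℝ) := by
      funext t
      show ((e t).1 : ℂ).im = t
      rw [he t]
      simp
    rw [h6]
  have hsi : (∀ k : {k : ZX f // 0 < ((k : ℂ)).im}, analyticOrderNatAt (xi f) (k.1 : ℂ) = 1) ↔
      ∀ t ∈ ords f, analyticOrderNatAt (Lf f) (1 + (t : ℝ) * I) = 1 := by
    constructor
    · intro h6 t ht
      rw [← hmz ⟨t, ht⟩]
      exact h6 _
    · intro h6 k
      obtain ⟨t, rfl⟩ := e.surjective k
      rw [hmz t]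
      exact h6 t t.2
  rw [hp1] at h2 h6
  rw [hp1, hli] at h3
  rw [hp2] at h4
  rw [hp2, hli, hsi, and_comm] at h5
  rw [← e.multipliable_iff] at h8 h9
  exact ⟨⟨E, hE, h1, h2, h3, h4, h5⟩, h6, h8.congr hf1, h9.congr hf2⟩

/-- off the line -/
theorem main_off (hf : Hecke f) {ε : ℂ} (hε : ‖ε‖ = 1) (hfe : ∀ s : ℂ, xi f (-s) = ε * xi f s)
    (h : ¬ RHf f) {κ : ℝ} (hκ : 0 < κ) : Tendsto (EM (PA f) κ) atTop atTop := by
  rcases em_dich (fsys hf hε hfe) hκ with ⟨h1, -⟩ | ⟨-, h2⟩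
  · exact absurd ((rh_iff hf hfe).2 h1) h
  · exact h2

/-- the mean value -/
theorem main_mean (hf : Hecke f) {ε : ℂ} (hε : ‖ε‖ = 1) (hfe : ∀ s : ℂ, xi f (-s) = ε * xi f s)
    (h : RHf f) : Tendsto (fun Y : ℝ => (1 / Y) * ∫ y in (0 : ℝ)..Y, PA f y) atTop
      (𝓝 (analyticOrderNatAt (Lf f) 1 : ℝ)) := by
  have h1 := line_mean (fsys hf hε hfe) ((rh_iff hf hfe).1 h)
  rwa [m0_eq] at h1

/-- the value `V` -/
theorem V_eq (hf : Hecke f) {ε : ℂ} (hε : ‖ε‖ = 1) (hfe : ∀ s : ℂ, xi f (-s) = ε * xi f s)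
    (h : RHf f) : (analyticOrderNatAt (Lf f) 1 : ℝ) + amp (fun k : ZX f => (k : ℂ)) (fun k => od (xi f) k) A1 =
      Real.log N / 2 - Real.log (2 * Real.pi) + 1 - Real.eulerMascheroniConstant + S2 f := by
  have h1 := total (fsys hf hε hfe) ((rh_iff hf hfe).1 h)
  rw [sum_zeros hf hε hfe, m0_eq] at h1
  exact_mod_cast h1.symm

lemma odd_iff (h : ∀ k : ZX f, (k : ℂ).re = 0) :
    OddRel (fun k : {k : ZX f // 0 < (k : ℂ).im} => ((k : ZX f) : ℂ).im) ↔ OddRel (fun t : ords f => (t : ℝ)) := by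
  obtain ⟨e, he⟩ := equiv_exists h
  rw [← oddRel_equiv e]
  have : (fun i : ords f => (((e i).1 : ZX f) : ℂ).im) = fun t : ords f => (t : ℝ) := by
    funext t
    rw [he t]
    simp
  rw [this]

end

end Pool.Agent.H862.EC
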