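import Pool.Agent.H862.EC.Ext

/-!
# Extreme values and mean values of sums of exponentials
-/

set_option autoImplicit false

namespace Pool.Agent.H862.EC

open Filter Topology MeasureTheory
open Pool.Agent.N804.LI (EM I0 Wd ww ws sg)
open Pool.Agent.H862.EL (SysL Sys m0 PR cf cf_pos cf_sum sum_line)

/-! ### means -/

/-- errors tending to zero do not change the means -/
lemma cesaro {e : ℝ → ℝ} (hc : Continuous e) (h : Tendsto e atTop (𝓝 0)) :
    Tendsto (fun Y : ℝ => (1 / Y) * ∫ y in (0 : ℝ)..Y, e y) atTop (𝓝 0) := by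
  rw [Metric.tendsto_atTop]
  intro ε hε
  obtain ⟨y0, hy0⟩ := Metric.tendsto_atTop.1 h (ε / 2) (by linarith)
  obtain ⟨y1, hy1⟩ : ∃ y1 : ℝ, y1 = max y0 1 := ⟨_, rfl⟩
  have h11 : 1 ≤ y1 := by rw [hy1]; exact le_max_right _ _
  obtain ⟨C, hC⟩ : ∃ C : ℝ, C = |∫ y in (0 : ℝ)..y1, e y| := ⟨_, rfl⟩
  have hC0 : 0 ≤ C := by rw [hC]; exact abs_nonneg _
  refine ⟨max y1 (2 * (C + 1) / ε), fun Y hY => ?_⟩
  have hY1 : y1 ≤ Y := (le_max_left _ _).trans hY
  have hY2 : 2 * (C + 1) / ε ≤ Y := (le_max_right _ _).trans hY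
  have hY0 : 0 < Y := by linarith
  have hint : ∀ a b : ℝ, IntervalIntegrable e volume a b := fun a b => hc.intervalIntegrable _ _
  rw [Real.dist_eq, sub_zero, ← intervalIntegral.integral_add_adjacent_intervals (hint 0 y1) (hint y1 Y), abs_mul,
    abs_of_pos (by positivity : 0 < 1 / Y)]
  have h2 : |∫ y in y1..Y, e y| ≤ ε / 2 * |Y - y1| := by
    rw [← Real.norm_eq_abs]
    refine intervalIntegral.norm_integral_le_of_norm_le_const fun y hy => ?_
    rw [Set.uIoc_of_le hY1] at hy
    have := hy0 y (le_trans (by rw [hy1]; exact le_max_left _ _) hy.1.le)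
    rw [Real.dist_eq, sub_zero] at this
    rw [Real.norm_eq_abs]
    exact this.le
  rw [abs_of_nonneg (by linarith : 0 ≤ Y - y1)] at h2
  have h3 : |(∫ y in (0 : ℝ)..y1, e y) + ∫ y in y1..Y, e y| ≤ C + ε / 2 * (Y - y1) := by
    refine (abs_add_le _ _).trans ?_
    rw [← hC]
    linarith
  have h4 : 2 * (C + 1) ≤ ε * Y := by
    rw [div_le_iff₀ hε] at hY2
    linarith
  calc (1 / Y) * |(∫ y in (0 : ℝ)..y1, e y) + ∫ y in y1..Y, e y| ≤ (1 / Y) * (C + ε / 2 * (Y - y1)) := by
        gcongr
    _ < ε := by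
        rw [one_div, inv_mul_lt_iff₀ hY0]
        nlinarith

section trig
variable {ι : Type} {c lam : ι → ℝ}

/-- the mean value of the series -/
lemma ts_mean (hc : ∀ i, 0 < c i) (hs : Summable c) (hl : ∀ i, lam i ≠ 0) :
    Tendsto (fun Y : ℝ => (1 / Y) * ∫ y in (0 : ℝ)..Y, TS c lam y) atTop (𝓝 0) := by
  have hcount : Countable ι := by
    have h1 := hs.countable_support
    have h2 : Function.support c = Set.univ := by
      ext i
      simp only [Function.mem_support, Set.mem_univ, iff_true]
      exact (hc i).ne'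
    rw [h2] at h1
    exact Set.countable_univ_iff.1 h1
  have hval : ∀ (i : ι) (Y : ℝ), ∫ y in (0 : ℝ)..Y, 2 * c i * Real.cos (lam i * y) =
      2 * c i * (Real.sin (lam i * Y) / lam i) := by
    intro i Y
    rw [intervalIntegral.integral_const_mul, intervalIntegral.integral_comp_mul_left (fun u => Real.cos u) (hl i),
      integral_cos]
    simp
    ring_nf
    simp
  have hint : ∀ Y : ℝ, (1 / Y) * ∫ y in (0 : ℝ)..Y, TS c lam y =
      ∑' i, 2 * c i * ((1 / Y) * (Real.sin (lam i * Y) / lam i)) := by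
    intro Y
    have h1 : HasSum (fun i => ∫ y in (0 : ℝ)..Y, 2 * c i * Real.cos (lam i * y)) (∫ y in (0 : ℝ)..Y, TS c lam y) := by
      refine intervalIntegral.hasSum_integral_of_dominated_convergence (fun i _ => 2 * c i) ?_ ?_ ?_ ?_ ?_
      · intro i
        exact (by fun_prop : Continuous fun y : ℝ => 2 * c i * Real.cos (lam i * y)).aestronglyMeasurable
      · intro i
        exact Eventually.of_forall fun t _ => ts_term hc i t
      · exact Eventually.of_forall fun t _ => hs.mul_left 2
      · exact intervalIntegrable_const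
      · refine Eventually.of_forall fun t _ => ?_
        exact (Summable.of_norm_bounded (hs.mul_left 2) fun i => ts_term hc i t).hasSum
    rw [← h1.tsum_eq, ← tsum_mul_left]
    refine tsum_congr fun i => ?_
    rw [hval]
    ring
  simp_rw [hint]
  have hlim : Tendsto (fun Y : ℝ => ∑' i, 2 * c i * ((1 / Y) * (Real.sin (lam i * Y) / lam i))) atTop
      (𝓝 (∑' i : ι, 2 * c i * 0)) := by
    refine tendsto_tsum_of_dominated_convergence (bound := fun i => 2 * c i) (hs.mul_left 2) (fun i => ?_) ?_
    · apply Tendsto.const_mul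
      have h1 : Tendsto (fun Y : ℝ => (1 / |lam i|) * Y⁻¹) atTop (𝓝 0) := by
        have := (tendsto_inv_atTop_zero (𝕜 := ℝ)).const_mul (1 / |lam i|)
        rwa [mul_zero] at this
      refine squeeze_zero_norm' ?_ h1
      filter_upwards [eventually_gt_atTop 0] with Y hY
      rw [norm_mul, norm_div, norm_div, norm_one, Real.norm_of_nonneg hY.le, Real.norm_eq_abs, Real.norm_eq_abs]
      have h2 := Real.abs_sin_le_one (lam i * Y)
      have h3 : 0 < |lam i| := abs_pos.2 (hl i)
      calc 1 / Y * (|Real.sin (lam i * Y)| / |lam i|) ≤ 1 / Y * (1 / |lam i|) := by gcongr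
        _ = _ := by rw [one_div Y]; ring
    · filter_upwards [eventually_gt_atTop 0] with Y hY i
      have h0 := hc i
      rw [norm_mul, Real.norm_of_nonneg (by linarith : 0 ≤ 2 * c i)]
      refine mul_le_of_le_one_right (by linarith) ?_
      rw [norm_mul, norm_div, norm_div, norm_one, Real.norm_of_nonneg hY.le, Real.norm_eq_abs, Real.norm_eq_abs]
      have h3 : 0 < |lam i| := abs_pos.2 (hl i)
      have h4 : |Real.sin (lam i * Y)| ≤ |lam i| * Y := by
        refine Real.abs_sin_le_abs.trans ?_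
        rw [abs_mul, abs_of_pos hY]
      calc 1 / Y * (|Real.sin (lam i * Y)| / |lam i|) ≤ 1 / Y * (|lam i| * Y / |lam i|) := by gcongr
        _ = 1 := by field_simp
  simpa using hlim

end trig

section sys
variable {K : Type} {z : K → ℂ} {μ : K → ℝ} {A : ℂ → ℂ} {P : ℝ → ℝ} {bar : K → K}

/-- the amplitude: half the oscillation -/
noncomputable def amp (z : K → ℂ) (μ : K → ℝ) (A : ℂ → ℂ) : ℝ := ∑' k : {k // 0 < (z k).im}, 2 * cf z μ A k

lemma c_pos (H : SysL z μ A P bar) (hRH : ∀ k, (z k).re = 0) : ∀ k : {k // 0 < (z k).im}, 0 < cf z μ A k :=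
  fun k => cf_pos H (hRH k)

lemma c_sum (H : SysL z μ A P bar) : Summable fun k : {k // 0 < (z k).im} => cf z μ A k :=
  (cf_sum H).subtype _

lemma close (H : SysL z μ A P bar) (hRH : ∀ k, (z k).re = 0) : Tendsto (fun y : ℝ => P y - (m0 z μ A +
    TS (fun k : {k // 0 < (z k).im} => cf z μ A k) (fun k => (z k).im) y)) atTop (𝓝 0) := by
  have h1 : Tendsto (fun y : ℝ => ((P y : ℂ) -
      ∑' k, μ k * A (z k) * Complex.exp (z k * y)).re) atTop (𝓝 0) := by
    have := (Complex.continuous_re.tendsto _).comp H.lim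
    rw [Complex.zero_re] at this
    exact this
  refine h1.congr fun y => ?_
  rw [sum_line H hRH y, ← Complex.ofReal_sub, Complex.ofReal_re]
  rfl

/-- the value at the origin -/
lemma total (H : SysL z μ A P bar) (hRH : ∀ k, (z k).re = 0) :
    ∑' k, (μ k : ℂ) * A (z k) = ((m0 z μ A + amp z μ A : ℝ) : ℂ) := by
  have h := sum_line H hRH 0
  simp only [Complex.ofReal_zero, mul_zero, Complex.exp_zero, mul_one, Real.cos_zero] at h
  exact h

theorem line_upper (H : SysL z μ A P bar) (hRH : ∀ k, (z k).re = 0) {ε : ℝ} (hε : 0 < ε) :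
    ∀ᶠ y in atTop, P y ≤ m0 z μ A + amp z μ A + ε := by
  filter_upwards [(close H hRH).eventually (gt_mem_nhds hε)] with y hy
  have := ts_bd (lam := fun k : {k // 0 < (z k).im} => (z k).im) (c_pos H hRH) (c_sum H) y
  have h2 := (abs_le.1 this).2
  unfold amp
  linarith

theorem line_lower (H : SysL z μ A P bar) (hRH : ∀ k, (z k).re = 0) {ε : ℝ} (hε : 0 < ε) :
    ∀ᶠ y in atTop, m0 z μ A - amp z μ A - ε ≤ P y := by
  filter_upwards [(close H hRH).eventually (lt_mem_nhds (show -ε < 0 by linarith))] with y hy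
  have := ts_bd (lam := fun k : {k // 0 < (z k).im} => (z k).im) (c_pos H hRH) (c_sum H) y
  have h2 := (abs_le.1 this).1
  unfold amp
  linarith

theorem line_upper' (H : SysL z μ A P bar) (hRH : ∀ k, (z k).re = 0) {ε : ℝ} (hε : 0 < ε) :
    ∃ᶠ y in atTop, m0 z μ A + amp z μ A - ε ≤ P y := by
  have h1 := ts_large (lam := fun k : {k // 0 < (z k).im} => (z k).im) (c_pos H hRH) (c_sum H)
    (show 0 < ε / 2 by linarith)
  have h2 := (close H hRH).eventually (lt_mem_nhds (show -(ε / 2) < 0 by linarith))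
  refine (h1.and_eventually h2).mono ?_
  rintro y ⟨h3, h4⟩
  unfold amp
  linarith

/-- the lower limit and odd relations -/
theorem line_lower_iff (H : SysL z μ A P bar) (hRH : ∀ k, (z k).re = 0) :
    (∀ ε : ℝ, 0 < ε → ∃ᶠ y in atTop, P y ≤ m0 z μ A - amp z μ A + ε) ↔
      ¬ OddRel (fun k : {k // 0 < (z k).im} => (z k).im) := by
  constructor
  · intro h
    refine no_odd (c_pos H hRH) (c_sum H) fun ε hε => ?_
    have h1 := h (ε / 2) (by linarith)
    have h2 := (close H hRH).eventually (lt_mem_nhds (show -(ε / 2) < 0 by linarith))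
    obtain ⟨y, h3, h4⟩ := (h1.and_eventually h2).exists
    refine ⟨y, ?_⟩
    unfold amp at h3
    linarith
  · intro h ε hε
    have h1 := ts_small (lam := fun k : {k // 0 < (z k).im} => (z k).im) (c_pos H hRH) (c_sum H) h
      (show 0 < ε / 2 by linarith)
    have h2 := (close H hRH).eventually (gt_mem_nhds (show 0 < ε / 2 by linarith))
    refine (h1.and_eventually h2).mono ?_
    rintro y ⟨h3, h4⟩
    unfold amp
    linarith

/-- the mean value -/
theorem line_mean (H : SysL z μ A P bar) (hRH : ∀ k, (z k).re = 0) :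
    Tendsto (fun Y : ℝ => (1 / Y) * ∫ y in (0 : ℝ)..Y, P y) atTop (𝓝 (m0 z μ A)) := by
  have hT := ts_cont (lam := fun k : {k // 0 < (z k).im} => (z k).im) (c_pos H hRH) (c_sum H)
  obtain ⟨T, hTe⟩ : ∃ T : ℝ → ℝ, T = TS (fun k : {k // 0 < (z k).im} => cf z μ A k) (fun k => (z k).im) := ⟨_, rfl⟩
  have hcl := close H hRH
  have h2 := ts_mean (c_pos H hRH) (c_sum H) (lam := fun k : {k // 0 < (z k).im} => (z k).im) fun k => (k.2).ne'
  rw [← hTe] at hT hcl h2
  have h1 := cesaro (e := fun y => P y - (m0 z μ A + T y)) (H.cont.sub (continuous_const.add hT)) hcl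
  have h3 := (h1.add h2).add_const (m0 z μ A)
  rw [add_zero, zero_add] at h3
  refine h3.congr' ?_
  filter_upwards [eventually_gt_atTop 0] with Y hY
  have hP : IntervalIntegrable P volume 0 Y := H.cont.intervalIntegrable _ _
  have hTi : IntervalIntegrable T volume 0 Y := hT.intervalIntegrable _ _
  have hmT : IntervalIntegrable (fun y => m0 z μ A + T y) volume 0 Y :=
    (continuous_const.add hT).intervalIntegrable _ _
  rw [intervalIntegral.integral_sub hP hmT,
    intervalIntegral.integral_add (by simp) hTi, intervalIntegral.integral_const, smul_eq_mul, sub_zero]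
  field_simp
  ring

/-- off the line the function is unbounded from above -/
theorem off_large (H : SysL z μ A P bar) (h : ¬ ∀ k, (z k).re = 0) (S : ℝ) : ∃ᶠ y in atTop, S < P y := by
  by_contra hcon
  rw [not_frequently] at hcon
  have hM : ∀ᶠ y in atTop, P y ≤ S := hcon.mono fun y hy => not_lt.1 hy
  obtain ⟨y0, hy0⟩ := eventually_atTop.1 hM
  rcases Pool.Agent.H862.EL.em_dich H (κ := 1) one_pos with ⟨h1, -⟩ | ⟨-, h1⟩
  · exact h h1
  obtain ⟨y1, hy1⟩ : ∃ y1 : ℝ, y1 = max y0 1 := ⟨_, rfl⟩
  have h11 : 1 ≤ y1 := by rw [hy1]; exact le_max_right _ _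
  have hint : ∀ a b : ℝ, IntervalIntegrable (fun y => Real.exp (1 * P y)) volume a b := fun a b =>
    (Real.continuous_exp.comp (continuous_const.mul H.cont)).intervalIntegrable _ _
  obtain ⟨C, hC⟩ : ∃ C : ℝ, C = ∫ y in (0 : ℝ)..y1, Real.exp (1 * P y) := ⟨_, rfl⟩
  have hC0 : 0 ≤ C := by
    rw [hC]
    exact intervalIntegral.integral_nonneg (by linarith) fun y _ => (Real.exp_pos _).le
  obtain ⟨Y, h2, h3⟩ := ((h1.eventually (eventually_gt_atTop (C + Real.exp (1 * S)))).and
    (eventually_ge_atTop y1)).exists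
  have hY0 : 0 < Y := by linarith
  have hY1 : 1 ≤ Y := by linarith
  unfold EM at h2
  rw [← intervalIntegral.integral_add_adjacent_intervals (hint 0 y1) (hint y1 Y), ← hC] at h2
  have h4 : ∫ y in y1..Y, Real.exp (1 * P y) ≤ (Y - y1) * Real.exp (1 * S) := by
    have h5 : ∫ y in y1..Y, Real.exp (1 * P y) ≤ ∫ _ in y1..Y, Real.exp (1 * S) := by
      refine intervalIntegral.integral_mono_on h3 (hint y1 Y) (by simp) fun y hy => ?_
      refine Real.exp_le_exp.2 (mul_le_mul_of_nonneg_left ?_ zero_le_one)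
      exact hy0 y (le_trans (by rw [hy1]; exact le_max_left _ _) hy.1)
    rw [intervalIntegral.integral_const, smul_eq_mul] at h5
    exact h5
  have h5 : (1 / Y) * (C + ∫ y in y1..Y, Real.exp (1 * P y)) ≤ C + Real.exp (1 * S) := by
    have h6 : C + ∫ y in y1..Y, Real.exp (1 * P y) ≤ Y * (C + Real.exp (1 * S)) := by
      have := Real.exp_pos (1 * S)
      nlinarith
    rw [one_div, inv_mul_le_iff₀ hY0]
    exact h6
  linarith

end sys

/-! ### upper and lower limits -/

lemma limsup_eq {P : ℝ → ℝ} {V : ℝ} (h1 : ∀ ε : ℝ, 0 < ε → ∀ᶠ y in atTop, P y ≤ V + ε)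
    (h2 : ∀ ε : ℝ, 0 < ε → ∃ᶠ y in atTop, V - ε ≤ P y) :
    limsup (fun y => (P y : EReal)) atTop = (V : EReal) := by
  apply le_antisymm
  · refine le_of_forall_gt_imp_ge_of_dense fun a ha => ?_
    refine limsup_le_of_le (by isBoundedDefault) ?_
    induction a using EReal.rec with
    | bot => exact absurd ha (not_lt_bot)
    | top => exact Eventually.of_forall fun y => le_top
    | coe a =>
      have ha : V < a := by exact_mod_cast ha
      filter_upwards [h1 (a - V) (by linarith)] with y hy
      exact_mod_cast (by linarith : P y ≤ a)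
  · refine le_of_forall_lt_imp_le_of_dense fun a ha => ?_
    refine le_limsup_of_frequently_le ?_ (by isBoundedDefault)
    induction a using EReal.rec with
    | bot => exact (Eventually.of_forall fun y => bot_le).frequently
    | top => exact absurd ha (not_top_lt)
    | coe a =>
      have ha : a < V := by exact_mod_cast ha
      exact (h2 (V - a) (by linarith)).mono fun y hy => by exact_mod_cast (by linarith : a ≤ P y)

lemma limsup_top {P : ℝ → ℝ} (h : ∀ S : ℝ, ∃ᶠ y in atTop, S < P y) :
    limsup (fun y => (P y : EReal)) atTop = ⊤ := by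
  rw [eq_top_iff]
  refine le_of_forall_lt_imp_le_of_dense fun a ha => ?_
  refine le_limsup_of_frequently_le ?_ (by isBoundedDefault)
  induction a using EReal.rec with
  | bot => exact (Eventually.of_forall fun y => bot_le).frequently
  | top => exact absurd ha (lt_irrefl _)
  | coe a => exact (h a).mono fun y hy => by exact_mod_cast hy.le

lemma liminf_ge {P : ℝ → ℝ} {V : ℝ} (h1 : ∀ ε : ℝ, 0 < ε → ∀ᶠ y in atTop, V - ε ≤ P y) :
    (V : EReal) ≤ liminf (fun y => (P y : EReal)) atTop := by
  refine le_of_forall_lt_imp_le_of_dense fun a ha => ?_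
  refine le_liminf_of_le (by isBoundedDefault) ?_
  induction a using EReal.rec with
  | bot => exact Eventually.of_forall fun y => bot_le
  | top => exact absurd ha (not_top_lt)
  | coe a =>
    have ha : a < V := by exact_mod_cast ha
    filter_upwards [h1 (V - a) (by linarith)] with y hy
    exact_mod_cast (by linarith : a ≤ P y)

lemma liminf_eq_iff {P : ℝ → ℝ} {V : ℝ} (h1 : ∀ ε : ℝ, 0 < ε → ∀ᶠ y in atTop, V - ε ≤ P y) :
    liminf (fun y => (P y : EReal)) atTop = (V : EReal) ↔ ∀ ε : ℝ, 0 < ε → ∃ᶠ y in atTop, P y ≤ V + ε := by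
  constructor
  · intro h ε hε
    by_contra hcon
    rw [not_frequently] at hcon
    have h2 : ((V + ε : ℝ) : EReal) ≤ liminf (fun y => (P y : EReal)) atTop := by
      refine le_liminf_of_le (by isBoundedDefault) ?_
      filter_upwards [hcon] with y hy
      exact_mod_cast (not_le.1 hy).le
    rw [h] at h2
    have h3 : V + ε ≤ V := by exact_mod_cast h2
    linarith
  · intro h
    apply le_antisymm _ (liminf_ge h1)
    refine le_of_forall_gt_imp_ge_of_dense fun a ha => ?_
    refine liminf_le_of_frequently_le ?_ (by isBoundedDefault)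
    induction a using EReal.rec with
    | bot => exact absurd ha (not_lt_bot)
    | top => exact (Eventually.of_forall fun y => le_top).frequently
    | coe a =>
      have ha : V < a := by exact_mod_cast ha
      exact (h (a - V) (by linarith)).mono fun y hy => by exact_mod_cast (by linarith : P y ≤ a)

end Pool.Agent.H862.EC
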