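import Mathlib

/-!
# The coefficients of the logarithmic derivative of an Euler product of degree two
-/

set_option autoImplicit false

open Complex Filter Topology

namespace Pool.Agent.H862.EC

/-- the power sums `α^k + β^k` of the roots of `X² - A X + q` -/
noncomputable def ps (A q : ℂ) : ℕ → ℂ
  | 0 => 2
  | 1 => A
  | (k + 2) => A * ps A q (k + 1) - q * ps A q k

lemma ps_two (A q : ℂ) (k : ℕ) : ps A q (k + 2) = A * ps A q (k + 1) - q * ps A q k := by
  rw [ps]

lemma ps_roots {A q α β : ℂ} (h1 : α + β = A) (h2 : α * β = q) (k : ℕ) : ps A q k = α ^ k + β ^ k := by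
  have h : ps A q k = α ^ k + β ^ k ∧ ps A q (k + 1) = α ^ (k + 1) + β ^ (k + 1) := by
    induction k with
    | zero =>
      refine ⟨?_, ?_⟩
      · rw [ps]; norm_num
      · rw [ps, ← h1]; ring
    | succ k ih =>
      refine ⟨ih.2, ?_⟩
      rw [ps_two, ih.1, ih.2, ← h1, ← h2]
      ring
  exact h.1

lemma ps_zero_q (A : ℂ) (k : ℕ) : ps A 0 (k + 1) = A ^ (k + 1) := by
  induction k with
  | zero => rw [ps]; ring
  | succ k ih =>
    rw [ps_two, ih]
    ring

section
variable {A q : ℂ} {c : ℕ → ℂ}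

lemma ps_eq (h0 : c 0 = 1) (h1 : c 1 = A) (h2 : ∀ k, c (k + 2) = A * c (k + 1) - q * c k) (k : ℕ) :
    ps A q (k + 1) = 2 * c (k + 1) - A * c k := by
  have h : ps A q (k + 1) = 2 * c (k + 1) - A * c k ∧ ps A q (k + 2) = 2 * c (k + 2) - A * c (k + 1) := by
    induction k with
    | zero =>
      refine ⟨?_, ?_⟩
      · rw [ps, h0, h1]; ring
      · rw [ps_two, h2, h0, h1]
        simp only [zero_add]
        rw [ps, ps]; ring
    | succ k ih =>
      refine ⟨ih.2, ?_⟩
      rw [ps_two, ih.1, ih.2, h2 (k + 1), h2 k]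
      ring
  exact h.1

lemma local_sum (h0 : c 0 = 1) (h1 : c 1 = A) (h2 : ∀ k, c (k + 2) = A * c (k + 1) - q * c k) (v : ℕ) :
    ∑ k ∈ Finset.range (v + 1), ps A q (k + 1) * c (v - k) = (v + 1) * c (v + 1) := by
  have h : (∑ k ∈ Finset.range (v + 1), ps A q (k + 1) * c (v - k) = (v + 1) * c (v + 1)) ∧
      ∑ k ∈ Finset.range (v + 2), ps A q (k + 1) * c (v + 1 - k) = (v + 2) * c (v + 2) := by
    induction v with
    | zero =>
      refine ⟨?_, ?_⟩
      · rw [Finset.sum_range_one]
        simp only [zero_add, Nat.sub_self]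
        rw [ps, h0, h1]; simp
      · rw [Finset.sum_range_succ, Finset.sum_range_one]
        simp only [zero_add, Nat.sub_self, Nat.sub_zero]
        rw [ps_two, h2 0]
        simp only [zero_add]
        rw [ps, ps, h0, h1]
        push_cast
        ring
    | succ v ih =>
      refine ⟨?_, ?_⟩
      · rw [show v + 1 + 1 = v + 2 by ring, ih.2]
        push_cast
        ring
      · rw [show v + 1 + 2 = v + 3 by ring, show v + 1 + 1 = v + 2 by ring, Finset.sum_range_succ,
          Finset.sum_range_succ]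
        have e1 : ∑ k ∈ Finset.range (v + 1), ps A q (k + 1) * c (v + 2 - k) =
            A * (∑ k ∈ Finset.range (v + 1), ps A q (k + 1) * c (v + 1 - k)) -
              q * ∑ k ∈ Finset.range (v + 1), ps A q (k + 1) * c (v - k) := by
          rw [Finset.mul_sum, Finset.mul_sum, ← Finset.sum_sub_distrib]
          refine Finset.sum_congr rfl fun k hk => ?_
          have hk := Finset.mem_range.1 hk
          have e2 : v + 2 - k = (v - k) + 2 := by omega
          have e3 : v + 1 - k = (v - k) + 1 := by omega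
          rw [e2, e3, h2]
          ring
        have e4 := ih.2
        rw [Finset.sum_range_succ] at e4
        have e5 : v + 1 - (v + 1) = 0 := by omega
        rw [e5, h0, mul_one] at e4
        have e6 : ∑ k ∈ Finset.range (v + 1), ps A q (k + 1) * c (v + 1 - k) =
            (v + 2) * c (v + 2) - ps A q (v + 1 + 1) := by
          rw [← e4]; ring
        rw [e1, e6, ih.1]
        have e7 : v + 2 - (v + 1) = 1 := by omega
        have e8 : v + 2 - (v + 2) = 0 := by omega
        rw [e7, e8, h0, h1, ps_eq h0 h1 h2 (v + 2), show v + 3 = (v + 1) + 2 by ring, h2 (v + 1)]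
        rw [show v + 1 + 1 = v + 2 by ring]
        push_cast
        ring
  exact h.1

end

/-! ### the global identity -/

open Classical in
/-- the coefficients of `-L'/L` -/
noncomputable def bb (c : ℕ → ℂ) (q : ℕ → ℂ) (n : ℕ) : ℂ :=
  if IsPrimePow n then ps (c n.minFac) (q n.minFac) (n.factorization n.minFac) * Real.log n.minFac else 0

/-- the Hecke relations -/
structure HRel (c : ℕ → ℂ) (q : ℕ → ℂ) : Prop where
  one : c 1 = 1
  mul : ∀ m n : ℕ, Nat.Coprime m n → c (m * n) = c m * c n
  pow : ∀ p j : ℕ, p.Prime → c (p ^ (j + 2)) = c p * c (p ^ (j + 1)) - q p * c (p ^ j)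

section
variable {c q : ℕ → ℂ}

lemma bb_pow (p k : ℕ) (hp : p.Prime) : bb c q (p ^ (k + 1)) = ps (c p) (q p) (k + 1) * Real.log p := by
  unfold bb
  rw [if_pos (hp.isPrimePow.pow (Nat.succ_ne_zero k)), Nat.Prime.pow_minFac hp (Nat.succ_ne_zero k),
    hp.factorization_pow, Finsupp.single_eq_same]

lemma bb_zero {n : ℕ} (h : ¬ IsPrimePow n) : bb c q n = 0 := by
  unfold bb
  rw [if_neg h]

/-- the convolution -/
noncomputable def TT (c q : ℕ → ℂ) (n : ℕ) : ℂ := ∑ d ∈ n.divisors, bb c q d * c (n / d)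

lemma TT_prime_pow (H : HRel c q) {p : ℕ} (hp : p.Prime) (k : ℕ) :
    TT c q (p ^ k) = Real.log ((p ^ k : ℕ) : ℝ) * c (p ^ k) := by
  unfold TT
  rw [Nat.sum_divisors_prime_pow hp]
  rcases Nat.eq_zero_or_pos k with h0 | h0
  · subst h0
    simp [bb_zero (c := c) (q := q) not_isPrimePow_one]
  obtain ⟨v, rfl⟩ : ∃ v, k = v + 1 := ⟨k - 1, by omega⟩
  rw [Finset.sum_range_succ']
  have e0 : bb c q (p ^ 0) = 0 := by
    rw [pow_zero]
    exact bb_zero not_isPrimePow_one
  rw [e0, zero_mul, add_zero]
  have e1 : ∀ i ∈ Finset.range (v + 1), bb c q (p ^ (i + 1)) * c (p ^ (v + 1) / p ^ (i + 1)) =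
      (ps (c p) (q p) (i + 1) * (fun j => c (p ^ j)) (v - i)) * Real.log p := by
    intro i hi
    have hi := Finset.mem_range.1 hi
    rw [bb_pow p i hp, Nat.pow_div (by omega) hp.pos]
    rw [show v + 1 - (i + 1) = v - i by omega]
    ring
  rw [Finset.sum_congr rfl e1, ← Finset.sum_mul, local_sum (c := fun j => c (p ^ j)) (by simp [H.one]) (by simp)
    (fun k => H.pow p k hp)]
  push_cast
  rw [Real.log_pow]
  push_cast
  ring

lemma TT_filter (n : ℕ) : TT c q n = ∑ d ∈ n.divisors.filter IsPrimePow, bb c q d * c (n / d) := by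
  unfold TT
  rw [Finset.sum_filter]
  refine Finset.sum_congr rfl fun d _ => ?_
  split_ifs with h
  · rfl
  · rw [bb_zero h, zero_mul]

lemma TT_mul (H : HRel c q) {m n : ℕ} (hm : 0 < m) (hn : 0 < n) (h : Nat.Coprime m n) :
    TT c q (m * n) = TT c q m * c n + c m * TT c q n := by
  rw [TT_filter, Nat.mul_divisors_filter_prime_pow h, Finset.filter_union, Finset.sum_union]
  · congr 1
    · rw [TT_filter, Finset.sum_mul]
      refine Finset.sum_congr rfl fun d hd => ?_
      rw [Finset.mem_filter, Nat.mem_divisors] at hd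
      obtain ⟨e, rfl⟩ := hd.1.1
      have hd0 : 0 < d := Nat.pos_of_mul_pos_right hm
      have he0 : 0 < e := Nat.pos_of_mul_pos_left hm
      rw [mul_assoc, Nat.mul_div_cancel_left _ hd0, Nat.mul_div_cancel_left _ hd0,
        H.mul e n (Nat.Coprime.coprime_dvd_left (Dvd.intro_left d rfl) h)]
      ring
    · rw [TT_filter, Finset.mul_sum]
      refine Finset.sum_congr rfl fun d hd => ?_
      rw [Finset.mem_filter, Nat.mem_divisors] at hd
      obtain ⟨e, rfl⟩ := hd.1.1
      have hd0 : 0 < d := Nat.pos_of_mul_pos_right hn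
      rw [show m * (d * e) = d * (m * e) by ring, Nat.mul_div_cancel_left _ hd0, Nat.mul_div_cancel_left _ hd0,
        H.mul m e (Nat.Coprime.coprime_dvd_right (Dvd.intro_left d rfl) h)]
      ring
  · rw [Finset.disjoint_left]
    intro d hd1 hd2
    rw [Finset.mem_filter, Nat.mem_divisors] at hd1 hd2
    have h1 : d ∣ 1 := by
      rw [← Nat.Coprime.gcd_eq_one h]
      exact Nat.dvd_gcd hd1.1.1 hd2.1.1
    have h2 : d = 1 := Nat.dvd_one.1 h1
    rw [h2] at hd1
    exact not_isPrimePow_one hd1.2

/-- **The convolution identity** `b * c = c log`. -/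
theorem TT_eq (H : HRel c q) (n : ℕ) (hn : 0 < n) : TT c q n = Real.log n * c n := by
  induction n using Nat.recOnPosPrimePosCoprime with
  | prime_pow p k hp hk => exact TT_prime_pow H hp k
  | zero => exact absurd hn (lt_irrefl _)
  | one =>
    have := TT_prime_pow H Nat.prime_two 0
    simpa using this
  | coprime a b ha hb h iha ihb =>
    have ha0 : 0 < a := by omega
    have hb0 : 0 < b := by omega
    rw [TT_mul H ha0 hb0 h, iha ha0, ihb hb0, H.mul a b h]
    push_cast
    rw [Real.log_mul (by exact_mod_cast ha0.ne') (by exact_mod_cast hb0.ne')]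
    push_cast
    ring

/-- the Dirichlet convolution -/
theorem conv_eq (H : HRel c q) : ∀ n : ℕ, n ≠ 0 → LSeries.convolution (bb c q) c n = LSeries.logMul c n := by
  intro n hn
  rw [LSeries.convolution_def]
  simp only
  rw [Nat.sum_divisorsAntidiagonal (fun i j => bb c q i * c j)]
  have h := TT_eq H n (Nat.pos_of_ne_zero hn)
  unfold TT at h
  rw [h]
  unfold LSeries.logMul
  rw [Complex.natCast_log]

end

end Pool.Agent.H862.EC
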