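import Pool.Graph.R_pool_sql_team_seeded_3dad9d7b.NH98.RT.Xi
import Pool.Graph.R_pool_sql_team_seeded_3dad9d7b.NH13.UV.LDg
import Pool.Agent.H862.EL.Ord
import Pool.Agent.H862.EC.LogB

/-!
# The completed `L`-function of a newform of weight two

Euler product, zero-free half planes, logarithmic derivative and symmetries of
`ξ(w) = N^{w/2} ∫ f(it) t^{w} dt`.
-/

set_option autoImplicit false
set_option linter.unusedSectionVars false

open Complex Filter Topology Set CongruenceSubgroup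
open scoped MatrixGroups ComplexConjugate
open Pool.Agent.TH941 (Hecke exists_roots')
open Pool.Agent.W165.RS (ac ac_zero)
open Pool.Agent.NH98.RT.Xi

namespace Pool.Agent.H862.EC

section

variable {N : ℕ} [NeZero N] {f : CuspForm (Gamma0 N : Subgroup (GL (Fin 2) ℝ)) 2}

/-- the constant terms of the Euler factors -/
noncomputable def qN (N : ℕ) (p : ℕ) : ℂ := if p ∣ N then 0 else (p : ℂ)

/-- the coefficients of `-L'/L` -/
noncomputable def bf (f : CuspForm (Gamma0 N : Subgroup (GL (Fin 2) ℝ)) 2) : ℕ → ℂ := bb (ac f) (qN N)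

lemma hrel (hf : Hecke f) : HRel (ac f) (qN N) where
  one := hf.one
  mul := hf.mul
  pow p j hp := by
    rw [hf.pow p j hp]
    unfold qN
    split_ifs <;> ring

lemma bf_le (hf : Hecke f) (n : ℕ) : ‖bf f n‖ ≤ 2 * Real.sqrt n * Real.log n := by
  classical
  unfold bf
  by_cases h : IsPrimePow n
  · obtain ⟨p, k, hp, hk, rfl⟩ := (isPrimePow_nat_iff n).1 h
    obtain ⟨j, rfl⟩ : ∃ j, k = j + 1 := ⟨k - 1, by omega⟩
    rw [bb_pow p j hp, norm_mul, Complex.norm_real]
    have hp1 : (1 : ℝ) ≤ p := by exact_mod_cast hp.one_le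
    have hp0 : (0 : ℝ) < p := by linarith
    have hl : ‖Real.log p‖ ≤ Real.log ((p ^ (j + 1) : ℕ) : ℝ) := by
      rw [Real.norm_of_nonneg (Real.log_nonneg hp1)]
      apply Real.log_le_log hp0
      push_cast
      calc (p : ℝ) = (p : ℝ) ^ 1 := (pow_one _).symm
        _ ≤ _ := pow_le_pow_right₀ hp1 (by omega)
    refine mul_le_mul ?_ hl (norm_nonneg _) (by positivity)
    have hsq : (1 : ℝ) ≤ Real.sqrt ((p ^ (j + 1) : ℕ) : ℝ) := by
      rw [Real.one_le_sqrt]
      push_cast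
      exact one_le_pow₀ hp1
    by_cases hN : p ∣ N
    · have e : qN N p = 0 := by unfold qN; rw [if_pos hN]
      rw [e, ps_zero_q, norm_pow]
      have h1 := hf.bad p hp hN
      have h2 : ‖ac f p‖ ^ (j + 1) ≤ 1 := pow_le_one₀ (norm_nonneg _) h1
      linarith
    · have e : qN N p = (p : ℂ) := by unfold qN; rw [if_neg hN]
      have him : ac f p = ((ac f p).re : ℂ) := by
        apply Complex.ext
        · simp
        · simp [hf.real p]
      have hb := hf.good p hp hN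
      rw [him, Complex.norm_real, Real.norm_eq_abs] at hb
      obtain ⟨α, β, hα, hβ, hs, hm⟩ := exists_roots' hp0 hb
      have hs' : α + β = ac f p := by rw [hs, ← him]
      have hm' : α * β = (p : ℂ) := by rw [hm]; simp
      rw [e, ps_roots hs' hm']
      refine (norm_add_le _ _).trans ?_
      rw [norm_pow, norm_pow, hα, hβ, ← two_mul]
      refine le_of_eq ?_
      congr 1
      push_cast
      rw [← Real.sqrt_sq (pow_nonneg (Real.sqrt_nonneg (p : ℝ)) (j + 1)), ← pow_mul, mul_comm (j + 1) 2, pow_mul,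
        Real.sq_sqrt hp0.le]
  · rw [bb_zero h, norm_zero]
    have : 0 ≤ Real.log n := Real.log_natCast_nonneg n
    positivity

lemma bf_zero : bf f 0 = 0 := by
  unfold bf
  exact bb_zero not_isPrimePow_zero

/-- the bound with a power -/
lemma bf_le' (hf : Hecke f) {ε : ℝ} (hε : 0 < ε) (n : ℕ) : ‖bf f n‖ ≤ 2 / ε * (n : ℝ) ^ (1 / 2 + ε) := by
  rcases Nat.eq_zero_or_pos n with h0 | h0
  · rw [h0, bf_zero, norm_zero]
    positivity
  have hn : (0 : ℝ) < n := by exact_mod_cast h0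
  refine (bf_le hf n).trans ?_
  have h1 : Real.log n ≤ (n : ℝ) ^ ε / ε := Real.log_le_rpow_div hn.le hε
  calc 2 * Real.sqrt n * Real.log n ≤ 2 * Real.sqrt n * ((n : ℝ) ^ ε / ε) :=
        mul_le_mul_of_nonneg_left h1 (by positivity)
    _ = 2 / ε * (n : ℝ) ^ (1 / 2 + ε) := by
        rw [Real.rpow_add hn, Real.sqrt_eq_rpow]
        ring

lemma bf_summable (hf : Hecke f) {s : ℂ} (hs : 3 / 2 < s.re) : LSeriesSummable (bf f) s := by
  obtain ⟨ε, hε⟩ : ∃ ε : ℝ, ε = (s.re - 3 / 2) / 2 := ⟨_, rfl⟩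
  have hε0 : 0 < ε := by rw [hε]; linarith
  refine LSeriesSummable_of_le_const_mul_rpow (x := 3 / 2 + ε) (by rw [hε]; linarith) ⟨2 / ε, fun n _ => ?_⟩
  have := bf_le' hf hε0 n
  rwa [show (3 / 2 + ε - 1 : ℝ) = 1 / 2 + ε by ring]

lemma bf_absc (hf : Hecke f) : LSeries.abscissaOfAbsConv (bf f) ≤ ((3 / 2 : ℝ) : EReal) :=
  LSeries.abscissaOfAbsConv_le_of_forall_lt_LSeriesSummable fun y hy => bf_summable hf (by
    rw [Complex.ofReal_re]; exact hy)

/-- the `L`-function -/
noncomputable def Lf (f : CuspForm (Gamma0 N : Subgroup (GL (Fin 2) ℝ)) 2) : ℂ → ℂ :=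
  ModularForm.L (k := 2) two_pos' f

lemma Lf_diff : Differentiable ℂ (Lf f) := CuspForm.differentiable_L two_pos' f

lemma Lf_eq {s : ℂ} (hs : 2 < s.re) : Lf f s = LSeries (ac f) s := L_eq f s hs

lemma ac_summable {s : ℂ} (hs : 2 < s.re) : LSeriesSummable (ac f) s := by
  have h := (hasSum_LL f s hs).summable
  refine h.congr fun n => ?_
  rcases Nat.eq_zero_or_pos n with h0 | h0
  · subst h0
    have hs0 : s ≠ 0 := by
      intro h
      rw [h] at hs
      norm_num at hs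
    simp [Complex.zero_cpow hs0]
  · rw [LSeries.term_of_ne_zero h0.ne']
    rfl

lemma ac_absc : LSeries.abscissaOfAbsConv (ac f) ≤ ((2 : ℝ) : EReal) :=
  LSeries.abscissaOfAbsConv_le_of_forall_lt_LSeriesSummable fun y hy => ac_summable (by
    rw [Complex.ofReal_re]; exact hy)

lemma isOpen_hp (a : ℝ) : IsOpen {z : ℂ | a < z.re} := isOpen_lt continuous_const Complex.continuous_re

/-- the identity `L L_b = -L'` in the region of absolute convergence -/
lemma id_far (hf : Hecke f) {s : ℂ} (hs : 2 < s.re) : LSeries (bf f) s * Lf f s = -deriv (Lf f) s := by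
  have h1 := LSeries_convolution' (bf_summable hf (by linarith : 3 / 2 < s.re)) (ac_summable (f := f) hs)
  have h2 : LSeries (LSeries.convolution (bf f) (ac f)) s = LSeries (LSeries.logMul (ac f)) s :=
    LSeries_congr (fun {n} hn => conv_eq (hrel hf) n hn) s
  have h3 : deriv (LSeries (ac f)) s = -LSeries (LSeries.logMul (ac f)) s :=
    LSeries_deriv ((ac_absc (f := f)).trans_lt (by exact_mod_cast hs))
  have h4 : deriv (Lf f) s = deriv (LSeries (ac f)) s := by
    apply Filter.EventuallyEq.deriv_eq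
    filter_upwards [(isOpen_hp 2).mem_nhds (show s ∈ {z : ℂ | 2 < z.re} from hs)] with z hz
    exact Lf_eq hz
  rw [Lf_eq hs, h4, h3, neg_neg, ← h2, h1]

/-- the identity for `Re s > 3/2` -/
lemma id_near (hf : Hecke f) {s : ℂ} (hs : 3 / 2 < s.re) : LSeries (bf f) s * Lf f s = -deriv (Lf f) s := by
  have hA1 : AnalyticOnNhd ℂ (fun z => LSeries (bf f) z * Lf f z) {z : ℂ | 3 / 2 < z.re} := by
    intro z hz
    have hz : 3 / 2 < z.re := hz
    refine AnalyticAt.mul (LSeries_analyticOnNhd (bf f) z ?_) (Lf_diff.analyticAt z)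
    exact (bf_absc hf).trans_lt (by exact_mod_cast hz)
  have hA2 : AnalyticOnNhd ℂ (fun z => -deriv (Lf f) z) {z : ℂ | 3 / 2 < z.re} := fun z _ =>
    (Lf_diff.analyticAt z).deriv.neg
  have hconv : IsPreconnected {z : ℂ | 3 / 2 < z.re} := (convex_halfSpace_re_gt (3 / 2)).isPreconnected
  refine hA1.eqOn_of_preconnected_of_eventuallyEq hA2 hconv (z₀ := 3) ?_ ?_ hs
  · show (3 / 2 : ℝ) < (3 : ℂ).re
    norm_num
  · filter_upwards [(isOpen_hp 2).mem_nhds (show (3 : ℂ) ∈ {z : ℂ | 2 < z.re} by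
      show (2 : ℝ) < (3 : ℂ).re
      norm_num)] with z hz
    exact id_far hf hz

lemma Lf_Lam (s : ℂ) : Lf f s = (2 * Real.pi : ℂ) ^ s * (Lam f s * (Complex.Gamma s)⁻¹) := L_Lam f s

/-- `L` does not vanish identically near a point -/
lemma order_ne_top (hf : Hecke f) (s : ℂ) : analyticOrderAt (Lf f) s ≠ ⊤ := by
  intro h
  rw [analyticOrderAt_eq_top] at h
  have han : AnalyticOnNhd ℂ (Lf f) Set.univ := fun z _ => Lf_diff.analyticAt z
  have h1 := han.eqOn_zero_of_preconnected_of_eventuallyEq_zero isPreconnected_univ (Set.mem_univ s) h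
  obtain ⟨σ, hσ, h2⟩ := xi_lower f hf 0
  have h3 : xi f (σ : ℂ) ≠ 0 := by
    intro h0
    rw [h0, norm_zero] at h2
    exact absurd h2 (not_lt.2 (Real.exp_pos _).le)
  apply h3
  have h4 := h1 (Set.mem_univ (1 + (σ : ℂ)))
  rw [Lf_Lam] at h4
  have h5 : (1 + (σ : ℂ)).re = 1 + σ := by simp
  have h2pi : (2 * Real.pi : ℂ) ≠ 0 := by simp [Real.pi_ne_zero]
  rcases mul_eq_zero.1 h4 with h6 | h6
  · exact absurd h6 (Complex.cpow_ne_zero_iff.2 (Or.inl h2pi))
  · rcases mul_eq_zero.1 h6 with h7 | h7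
    · unfold xi
      rw [h7, mul_zero]
    · exact absurd h7 (inv_ne_zero (Complex.Gamma_ne_zero_of_re_pos (by rw [h5]; linarith)))

/-- no zeros in the region of absolute convergence -/
theorem Lf_ne (hf : Hecke f) {s : ℂ} (hs : 3 / 2 < s.re) : Lf f s ≠ 0 := by
  intro h0
  have han : AnalyticAt ℂ (Lf f) s := Lf_diff.analyticAt s
  obtain ⟨n, hn⟩ := ENat.ne_top_iff_exists.mp (order_ne_top hf s)
  have h1 : analyticOrderAt (deriv (Lf f)) s + 1 = n := by
    rw [han.analyticOrderAt_deriv_add_one, hn]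
    simp only [h0, sub_zero]
  have hb : AnalyticAt ℂ (LSeries (bf f)) s :=
    LSeries_analyticOnNhd (bf f) s ((bf_absc hf).trans_lt (by exact_mod_cast hs))
  have h2 : analyticOrderAt (deriv (Lf f)) s = analyticOrderAt (fun z => -(LSeries (bf f) z) * Lf f z) s := by
    apply analyticOrderAt_congr
    filter_upwards [(isOpen_hp (3 / 2)).mem_nhds (show s ∈ {z : ℂ | 3 / 2 < z.re} from hs)] with z hz
    have := id_near hf hz
    rw [neg_mul, this, neg_neg]
  have h3 : analyticOrderAt (fun z => -(LSeries (bf f) z) * Lf f z) s =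
      analyticOrderAt (fun z => -(LSeries (bf f) z)) s + analyticOrderAt (Lf f) s :=
    analyticOrderAt_mul hb.neg han
  rw [h2, h3, ← hn] at h1
  have h4 : (n : ℕ∞) + 1 ≤ n := by
    calc (n : ℕ∞) + 1 ≤ analyticOrderAt (fun z => -(LSeries (bf f) z)) s + n + 1 := by
          gcongr
          exact le_add_self
      _ = n := h1
  exact absurd h4 (not_le.2 (by exact_mod_cast Nat.lt_succ_self n))

lemma logDeriv_Lf (hf : Hecke f) {s : ℂ} (hs : 3 / 2 < s.re) : logDeriv (Lf f) s = -LSeries (bf f) s := by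
  rw [logDeriv_apply, div_eq_iff (Lf_ne hf hs), neg_mul, id_near hf hs, neg_neg]

/-! ### the completed function -/

lemma N_ne : (N : ℂ) ≠ 0 := by exact_mod_cast NeZero.ne N

/-- the factor at infinity -/
noncomputable def gi (N : ℕ) (w : ℂ) : ℂ :=
  ((N : ℂ) ^ (w / 2) * (2 * Real.pi : ℂ) ^ (-(1 + w))) * Complex.Gamma (1 + w)

lemma twopi_ne : (2 * Real.pi : ℂ) ≠ 0 := by simp [Real.pi_ne_zero]

lemma Npow_diff (w : ℂ) : DifferentiableAt ℂ (fun z : ℂ => (N : ℂ) ^ (z / 2)) w :=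
  DifferentiableAt.const_cpow (by fun_prop) (Or.inl N_ne)

lemma pipow_diff (w : ℂ) : DifferentiableAt ℂ (fun z : ℂ => (2 * Real.pi : ℂ) ^ (-(1 + z))) w :=
  DifferentiableAt.const_cpow (by fun_prop) (Or.inl twopi_ne)

lemma Gam_diff {w : ℂ} (hw : -1 < w.re) : DifferentiableAt ℂ (fun z : ℂ => Complex.Gamma (1 + z)) w := by
  have h1 : 0 < (1 + w).re := by rw [add_re, one_re]; linarith
  exact (Complex.differentiableAt_Gamma (1 + w) (Pool.Agent.NH13.UV.LDg.ne_neg_nat h1)).comp w (by fun_prop)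

lemma gi_ne {w : ℂ} (hw : -1 < w.re) : gi N w ≠ 0 := by
  unfold gi
  refine mul_ne_zero (mul_ne_zero ?_ ?_) (Complex.Gamma_ne_zero_of_re_pos (by rw [add_re, one_re]; linarith))
  · rw [Complex.cpow_ne_zero_iff]; left; exact N_ne
  · rw [Complex.cpow_ne_zero_iff]; left; exact twopi_ne

lemma gi_an {w : ℂ} (hw : -1 < w.re) : AnalyticAt ℂ (gi N) w := by
  rw [Complex.analyticAt_iff_eventually_differentiableAt]
  filter_upwards [(isOpen_hp (-1)).mem_nhds (show w ∈ {z : ℂ | -1 < z.re} from hw)] with z hz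
  exact ((Npow_diff z).mul (pipow_diff z)).mul (Gam_diff hz)

lemma xi_eq {w : ℂ} (hw : -1 < w.re) : xi f w = gi N w * Lf f (1 + w) := by
  rw [Lf_Lam]
  unfold gi xi
  have h1 : Complex.Gamma (1 + w) ≠ 0 := Complex.Gamma_ne_zero_of_re_pos (by rw [add_re, one_re]; linarith)
  rw [Complex.cpow_neg]
  have h2 : (2 * Real.pi : ℂ) ^ (1 + w) ≠ 0 := by
    rw [Complex.cpow_ne_zero_iff]; left; exact twopi_ne
  field_simp

lemma xi_zero_iff {w : ℂ} (hw : -1 < w.re) : xi f w = 0 ↔ Lf f (1 + w) = 0 := by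
  rw [xi_eq hw, mul_eq_zero, or_iff_right (gi_ne hw)]

lemma xi_order {w : ℂ} (hw : -1 < w.re) : analyticOrderAt (xi f) w = analyticOrderAt (Lf f) (1 + w) := by
  have h1 : xi f =ᶠ[𝓝 w] fun z => gi N z * Lf f (1 + z) := by
    filter_upwards [(isOpen_hp (-1)).mem_nhds (show w ∈ {z : ℂ | -1 < z.re} from hw)] with z hz
    exact xi_eq hz
  rw [analyticOrderAt_congr h1]
  have hs : AnalyticAt ℂ (fun z : ℂ => 1 + z) w := by fun_prop
  have hL : AnalyticAt ℂ (fun z : ℂ => Lf f (1 + z)) w :=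
    AnalyticAt.comp (g := Lf f) (f := fun z : ℂ => 1 + z) (Lf_diff.analyticAt _) hs
  have h2 : analyticOrderAt (fun z => gi N z * Lf f (1 + z)) w =
      analyticOrderAt (gi N) w + analyticOrderAt (fun z : ℂ => Lf f (1 + z)) w :=
    analyticOrderAt_mul (gi_an hw) hL
  have hd : HasDerivAt (fun z : ℂ => 1 + z) 1 w := (hasDerivAt_id _).const_add _
  rw [h2, (gi_an hw).analyticOrderAt_eq_zero.2 (gi_ne hw), zero_add]
  exact analyticOrderAt_comp_of_deriv_ne_zero (f := Lf f) (g := fun z : ℂ => 1 + z) (z₀ := w) hs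
    (by rw [hd.deriv]; exact one_ne_zero)

/-- the logarithmic derivative of the factor at infinity -/
noncomputable def Bf (N : ℕ) (w : ℂ) : ℂ :=
  (Real.log N / 2 - Real.log (2 * Real.pi) : ℝ) + logDeriv Complex.Gamma (1 + w)

lemma logDeriv_gi {w : ℂ} (hw : -1 < w.re) : logDeriv (gi N) w = Bf N w := by
  have hN0 : (0 : ℝ) < N := by exact_mod_cast Nat.pos_of_ne_zero (NeZero.ne N)
  have hre : 0 < (1 + w).re := by rw [add_re, one_re]; linarith
  have hg : Complex.Gamma (1 + w) ≠ 0 := Complex.Gamma_ne_zero_of_re_pos hre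
  have hp : (2 * Real.pi : ℂ) ^ (-(1 + w)) ≠ 0 := by
    rw [Complex.cpow_ne_zero_iff]; left; exact twopi_ne
  have hn : (N : ℂ) ^ (w / 2) ≠ 0 := by
    rw [Complex.cpow_ne_zero_iff]; left; exact N_ne
  have h1 := logDeriv_mul (f := fun z : ℂ => (N : ℂ) ^ (z / 2) * (2 * Real.pi : ℂ) ^ (-(1 + z)))
    (g := fun z : ℂ => Complex.Gamma (1 + z)) w (mul_ne_zero hn hp) hg ((Npow_diff w).mul (pipow_diff w)) (Gam_diff hw)
  have h2 := logDeriv_mul (f := fun z : ℂ => (N : ℂ) ^ (z / 2)) (g := fun z : ℂ => (2 * Real.pi : ℂ) ^ (-(1 + z)))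
    w hn hp (Npow_diff w) (pipow_diff w)
  have d1 : HasDerivAt (fun z : ℂ => (N : ℂ) ^ (z / 2)) ((N : ℂ) ^ (w / 2) * Complex.log N * (1 / 2)) w := by
    have := HasDerivAt.const_cpow (c := (N : ℂ)) (f := fun z : ℂ => z / 2) (f' := 1 / 2) (x := w)
      ((hasDerivAt_id w).div_const 2) (Or.inl N_ne)
    exact this
  have d2 : HasDerivAt (fun z : ℂ => (2 * Real.pi : ℂ) ^ (-(1 + z)))
      ((2 * Real.pi : ℂ) ^ (-(1 + w)) * Complex.log (2 * Real.pi : ℂ) * (-1)) w := by
    have h : HasDerivAt (fun z : ℂ => -(1 + z)) (-1) w := ((hasDerivAt_id w).const_add (1 : ℂ)).fun_neg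
    exact HasDerivAt.const_cpow (c := (2 * Real.pi : ℂ)) h (Or.inl twopi_ne)
  have h3 : logDeriv (fun z : ℂ => Complex.Gamma (1 + z)) w = logDeriv Complex.Gamma (1 + w) := by
    have hd : HasDerivAt (fun z : ℂ => 1 + z) 1 w := (hasDerivAt_id _).const_add _
    have h := logDeriv_comp (f := Complex.Gamma) (g := fun z : ℂ => 1 + z) (x := w)
      (Complex.differentiableAt_Gamma (1 + w) (Pool.Agent.NH13.UV.LDg.ne_neg_nat hre)) hd.differentiableAt
    rw [hd.deriv, mul_one] at h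
    exact h
  have e1 : logDeriv (fun z : ℂ => (N : ℂ) ^ (z / 2)) w = (Real.log N / 2 : ℝ) := by
    rw [logDeriv_apply, d1.deriv, mul_assoc, mul_div_cancel_left₀ _ hn, ← Complex.natCast_log]
    push_cast
    ring
  have e2 : logDeriv (fun z : ℂ => (2 * Real.pi : ℂ) ^ (-(1 + z))) w = (-Real.log (2 * Real.pi) : ℝ) := by
    rw [logDeriv_apply, d2.deriv, mul_assoc, mul_div_cancel_left₀ _ hp]
    have : (2 * Real.pi : ℂ) = ((2 * Real.pi : ℝ) : ℂ) := by push_cast; rfl
    rw [this, ← Complex.ofReal_log (by positivity)]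
    push_cast
    ring
  have h0 : logDeriv (gi N) w = logDeriv (fun z : ℂ => (N : ℂ) ^ (z / 2) * (2 * Real.pi : ℂ) ^ (-(1 + z)) *
      Complex.Gamma (1 + z)) w := rfl
  rw [h0, h1, h2, e1, e2, h3]
  unfold Bf
  push_cast
  ring

theorem logDeriv_xi (hf : Hecke f) {w : ℂ} (hw : 1 / 2 < w.re) :
    logDeriv (xi f) w = Bf N w - LSeries (bf f) (1 + w) := by
  have hw1 : -1 < w.re := by linarith
  have hs : 3 / 2 < (1 + w).re := by rw [add_re, one_re]; linarith
  have h1 : xi f =ᶠ[𝓝 w] fun z => gi N z * Lf f (1 + z) := by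
    filter_upwards [(isOpen_hp (-1)).mem_nhds (show w ∈ {z : ℂ | -1 < z.re} from hw1)] with z hz
    exact xi_eq hz
  have h2 : logDeriv (xi f) w = logDeriv (fun z => gi N z * Lf f (1 + z)) w := by
    rw [logDeriv_apply, logDeriv_apply, h1.deriv_eq, h1.self_of_nhds]
  have hd : HasDerivAt (fun z : ℂ => 1 + z) 1 w := (hasDerivAt_id _).const_add _
  have h3 : logDeriv (fun z : ℂ => Lf f (1 + z)) w = logDeriv (Lf f) (1 + w) := by
    have h := logDeriv_comp (f := Lf f) (g := fun z : ℂ => 1 + z) (x := w) (Lf_diff _) hd.differentiableAt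
    rw [hd.deriv, mul_one] at h
    exact h
  rw [h2, logDeriv_mul (f := gi N) (g := fun z : ℂ => Lf f (1 + z)) w (gi_ne hw1) (Lf_ne hf hs)
    (gi_an hw1).differentiableAt ((Lf_diff _).comp w hd.differentiableAt), logDeriv_gi hw1, h3, logDeriv_Lf hf hs]
  ring

lemma xi_strip (hf : Hecke f) {ε : ℂ} (hfe : ∀ s : ℂ, xi f (-s) = ε * xi f s) {z : ℂ}
    (h : xi f z = 0) : |z.re| ≤ 1 / 2 := by
  rw [abs_le]
  constructor
  · by_contra hcon
    push Not at hcon
    have h1 : xi f (-z) = 0 := by rw [hfe, h, mul_zero]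
    rw [xi_zero_iff (by rw [neg_re]; linarith)] at h1
    exact Lf_ne hf (by rw [add_re, one_re, neg_re]; linarith) h1
  · by_contra hcon
    push Not at hcon
    rw [xi_zero_iff (by linarith)] at h
    exact Lf_ne hf (by rw [add_re, one_re]; linarith) h

/-! ### conjugation -/

/-- the values on the imaginary axis are real -/
lemma f_real (hf : Hecke f) {t : ℝ} (ht : 0 < t) :
    conj (f (UpperHalfPlane.ofComplex (I * t))) = f (UpperHalfPlane.ofComplex (I * t)) := by
  have h1 := ModularForm.hasSum_qExpansion (Γ := (Gamma0 N : Subgroup (GL (Fin 2) ℝ))) f one_pos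
    Pool.Agent.W165.RS.one_mem0 (UpperHalfPlane.ofComplex (I * t))
  have h2 := h1.map (starRingEnd ℂ) Complex.continuous_conj
  refine h2.unique ?_
  refine h1.congr_fun fun n => ?_
  show conj ((UpperHalfPlane.qExpansion 1 f).coeff n * _) = _
  have hp : 0 < (I * t : ℂ).im := by simpa using ht
  have e1 : Function.Periodic.qParam 1 ((UpperHalfPlane.ofComplex (I * t) : UpperHalfPlane) : ℂ) =
      ((Real.exp (-(2 * Real.pi * t)) : ℝ) : ℂ) := by
    rw [UpperHalfPlane.ofComplex_apply_of_im_pos hp]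
    unfold Function.Periodic.qParam
    push_cast
    congr 1
    show 2 * Real.pi * I * (I * t) / 1 = _
    linear_combination (2 * Real.pi * t : ℂ) * I_sq
  rw [e1, map_mul, map_pow, Complex.conj_ofReal]
  congr 1
  exact Complex.conj_eq_iff_im.2 (hf.real n)

lemma Lam_conj (hf : Hecke f) (s : ℂ) : Lam f (conj s) = conj (Lam f s) := by
  unfold Lam mellin
  rw [← integral_conj]
  refine MeasureTheory.setIntegral_congr_fun measurableSet_Ioi fun t ht => ?_
  have ht : (0 : ℝ) < t := ht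
  simp only [smul_eq_mul, map_mul]
  have h1 := Complex.cpow_conj (t : ℂ) (s - 1) (by
    rw [Complex.arg_ofReal_of_nonneg ht.le]
    exact Real.pi_pos.ne)
  rw [Complex.conj_ofReal, map_sub, map_one] at h1
  rw [f_real hf ht, h1]

lemma xi_conj (hf : Hecke f) (s : ℂ) : xi f (conj s) = conj (xi f s) := by
  unfold xi
  rw [map_mul, ← Lam_conj hf, map_add, map_one]
  congr 1
  have h1 : (N : ℂ) = ((N : ℝ) : ℂ) := by simp
  have h2 := Complex.cpow_conj ((N : ℝ) : ℂ) (s / 2) (by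
    rw [Complex.arg_ofReal_of_nonneg (Nat.cast_nonneg N)]
    exact Real.pi_pos.ne)
  rw [Complex.conj_ofReal, map_div₀, map_ofNat] at h2
  rw [h1, h2]

lemma Bf_diff : DifferentiableOn ℂ (Bf N) {z | -(1 / 2) < z.re} := by
  intro z hz
  have hz : -(1 / 2) < z.re := hz
  have hre : 0 < (1 + z).re := by rw [add_re, one_re]; linarith
  have hU : IsOpen {w : ℂ | 0 < w.re} := isOpen_hp 0
  have h1 : DifferentiableOn ℂ Complex.Gamma {w : ℂ | 0 < w.re} := fun w hw =>
    (Complex.differentiableAt_Gamma w (Pool.Agent.NH13.UV.LDg.ne_neg_nat hw)).differentiableWithinAt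
  have h2 := (h1.analyticOnNhd hU) (1 + z) hre
  have h3 : Complex.Gamma (1 + z) ≠ 0 := Complex.Gamma_ne_zero_of_re_pos hre
  have h4 : DifferentiableAt ℂ (logDeriv Complex.Gamma) (1 + z) := (h2.deriv.div h2 h3).differentiableAt
  have h5 : DifferentiableAt ℂ (fun z : ℂ => logDeriv Complex.Gamma (1 + z)) z := h4.comp z (by fun_prop)
  unfold Bf
  exact (h5.const_add _).differentiableWithinAt

lemma Bf_le : ∃ C : ℝ, 0 < C ∧ ∀ z : ℂ, 0 ≤ z.re → ‖Bf N z‖ ≤ C * Real.log (2 + ‖z‖) := by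
  obtain ⟨C, hC0, hC⟩ := Pool.Agent.NH13.UV.LDg.digamma_le
  have hl2 : 0 < Real.log 2 := Real.log_pos (by norm_num)
  obtain ⟨M, hM⟩ : ∃ M : ℝ, M = |Real.log N / 2 - Real.log (2 * Real.pi)| := ⟨_, rfl⟩
  have hM0 : 0 ≤ M := by rw [hM]; exact abs_nonneg _
  refine ⟨(M + C) / Real.log 2 + 2, by positivity, fun z hz => ?_⟩
  have hz0 := norm_nonneg z
  have h1 := hC (1 + z) (by rw [add_re, one_re]; linarith)
  have hn : ‖1 + z‖ ≤ ‖z‖ + 1 := by
    refine (norm_add_le _ _).trans ?_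
    rw [norm_one]
    linarith
  have h3 : Real.log (2 + ‖1 + z‖) ≤ 2 * Real.log (2 + ‖z‖) := by
    have : (2 : ℝ) * Real.log (2 + ‖z‖) = Real.log ((2 + ‖z‖) ^ 2) := by
      rw [Real.log_pow]
      norm_num
    rw [this]
    apply Real.log_le_log (by positivity)
    nlinarith
  have h4 : Real.log 2 ≤ Real.log (2 + ‖z‖) := Real.log_le_log (by norm_num) (by linarith)
  have h5 : M + C ≤ (M + C) / Real.log 2 * Real.log (2 + ‖z‖) := by
    rw [div_mul_eq_mul_div, le_div_iff₀ hl2]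
    exact mul_le_mul_of_nonneg_left h4 (by positivity)
  unfold Bf
  refine (norm_add_le _ _).trans ?_
  rw [Complex.norm_real, Real.norm_eq_abs, ← hM]
  linarith

end

end Pool.Agent.H862.EC
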