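import Pool.Agent.H862.VP.PFC

/-!
# The partial fractions of `Y'/Y` for entire functions of order at most `3/2`, without symmetry
-/

set_option autoImplicit false

namespace Pool.Agent.H862.EC

open Complex Filter Topology Metric Set
open Pool.Agent.NH13.UV
open Pool.Agent.Y818.FV
open Pool.Agent.H862.VP (sum_le)

/-- the partial fractions of `Y'/Y`, without symmetry -/
theorem pfg {Y : ℂ → ℂ} (hY : Differentiable ℂ Y) (hg : Gr Y) (z w : ℂ) (hz : Y z ≠ 0) (hw : Y w ≠ 0) :
    HasSum (fun b : {b : ℂ // Y b = 0} =>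
      (analyticOrderNatAt Y (b : ℂ) : ℂ) * (1 / (z - b) - 1 / (w - b))) (logDeriv Y z - logDeriv Y w) := by
  classical
  obtain ⟨K, hK, hgr⟩ := hg
  -- translation to the point `z`
  have hsh : ∀ u : ℂ, HasDerivAt (fun v : ℂ => v + z) 1 u := fun u => (hasDerivAt_id u).add_const z
  obtain ⟨F, hFdef⟩ : ∃ F : ℂ → ℂ, F = fun v => Y (v + z) := ⟨_, rfl⟩
  have hF : Differentiable ℂ F := by
    rw [hFdef]
    exact hY.comp (differentiable_id.add_const z)
  have hF0 : F 0 ≠ 0 := by
    rw [hFdef]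
    simpa using hz
  have hord : ∀ u, analyticOrderNatAt F u = analyticOrderNatAt Y (u + z) := by
    intro u
    have h1 := analyticOrderAt_comp_of_deriv_ne_zero (f := Y) (g := fun v : ℂ => v + z) (z₀ := u)
      (by fun_prop) (by rw [(hsh u).deriv]; exact one_ne_zero)
    rw [hFdef]
    unfold analyticOrderNatAt
    congr 1
  have hlog : ∀ u, logDeriv F u = logDeriv Y (u + z) := by
    intro u
    have h1 := logDeriv_comp (f := Y) (g := fun v : ℂ => v + z) (x := u) (hY _)
      (hsh u).differentiableAt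
    rw [(hsh u).deriv, mul_one] at h1
    rw [hFdef]
    exact h1
  obtain ⟨K', hK'⟩ : ∃ K' : ℝ, K' = K * (1 + ‖z‖) ^ (3 / 2 : ℝ) := ⟨_, rfl⟩
  have hK'0 : 0 < K' := by rw [hK']; positivity
  have hgr' : ∀ v, ‖F v‖ ≤ Real.exp (K' * (1 + ‖v‖) ^ (3 / 2 : ℝ)) := by
    intro v
    rw [hFdef]
    refine (hgr _).trans (Real.exp_le_exp.2 ?_)
    rw [hK', mul_assoc, ← Real.mul_rpow (by positivity) (by positivity)]
    have h2 : 1 + ‖v + z‖ ≤ (1 + ‖z‖) * (1 + ‖v‖) := by
      have h3 := norm_add_le v z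
      have h4 : 0 ≤ ‖z‖ * ‖v‖ := by positivity
      linarith
    gcongr
  -- the terms
  obtain ⟨g, hg⟩ : ∃ g : ℂ → ℂ, g = fun a =>
    (analyticOrderNatAt Y a : ℂ) * (1 / (z - a) - 1 / (w - a)) := ⟨_, rfl⟩
  obtain ⟨C, hC⟩ := sum_le hF hF0 hK'0 hgr'
  -- the zeros near `z` and `w`, far away
  obtain ⟨d, hd⟩ : ∃ d : ℝ, d = ‖w - z‖ := ⟨_, rfl⟩
  have hd0 : 0 ≤ d := by rw [hd]; exact norm_nonneg _
  have hterm : ∀ a : ℂ, 2 * d + 1 ≤ ‖a - z‖ →
      ‖g a‖ ≤ (8 * d) * ((analyticOrderNatAt F (a - z) : ℝ) * (1 / (1 + ‖a - z‖) ^ 2)) := by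
    intro a ha
    have h1 : 0 < ‖a - z‖ := by linarith
    have h2 : ‖a - z‖ / 2 ≤ ‖w - a‖ := by
      have h3 : ‖a - z‖ ≤ ‖w - a‖ + ‖w - z‖ := by
        have e : a - z = -(w - a) + (w - z) := by ring
        rw [e]
        refine (norm_add_le _ _).trans ?_
        rw [norm_neg]
      rw [← hd] at h3
      linarith
    have h3 : z - a ≠ 0 := by
      intro h
      rw [← norm_neg, neg_sub, h, norm_zero] at h1
      exact lt_irrefl _ h1
    have h4 : w - a ≠ 0 := by
      intro h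
      rw [h, norm_zero] at h2
      linarith
    have h5 : ‖z - a‖ = ‖a - z‖ := norm_sub_rev _ _
    rw [hg]
    simp only
    rw [hord, sub_add_cancel, norm_mul, Complex.norm_natCast]
    have e : 1 / (z - a) - 1 / (w - a) = (w - z) / ((z - a) * (w - a)) := by
      field_simp
      ring
    rw [e, norm_div, norm_mul, h5, ← hd]
    have h6 : d / (‖a - z‖ * ‖w - a‖) ≤ 8 * d * (1 / (1 + ‖a - z‖) ^ 2) := by
      have h7 : (1 + ‖a - z‖) ^ 2 / 8 ≤ ‖a - z‖ * ‖w - a‖ := by
        have h8 : ‖a - z‖ * (‖a - z‖ / 2) ≤ ‖a - z‖ * ‖w - a‖ :=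
          mul_le_mul_of_nonneg_left h2 h1.le
        nlinarith
      calc d / (‖a - z‖ * ‖w - a‖) ≤ d / ((1 + ‖a - z‖) ^ 2 / 8) :=
            div_le_div_of_nonneg_left hd0 (by positivity) h7
        _ = 8 * d * (1 / (1 + ‖a - z‖) ^ 2) := by field_simp
    calc (analyticOrderNatAt Y a : ℝ) * (d / (‖a - z‖ * ‖w - a‖))
        ≤ (analyticOrderNatAt Y a : ℝ) * (8 * d * (1 / (1 + ‖a - z‖) ^ 2)) :=
          mul_le_mul_of_nonneg_left h6 (Nat.cast_nonneg _)
      _ = _ := by ring
  -- finiteness of the zeros in balls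
  have hfinZ : ∀ ρ : ℝ, {a : ℂ | Y a = 0 ∧ ‖a - z‖ ≤ ρ}.Finite := by
    intro ρ
    have h1 := (logd_support (F := F) ρ).image fun u => u + z
    refine h1.subset ?_
    rintro a ⟨ha, har⟩
    refine ⟨a - z, ?_, sub_add_cancel _ _⟩
    rw [Function.mem_support, logd_in hF hF0 (by rwa [mem_closedBall_zero_iff]), hord,
      sub_add_cancel]
    have h2 : analyticOrderAt Y a ≠ 0 := by
      rw [(hY.analyticAt a).analyticOrderAt_ne_zero]
      exact ha
    have h3 : analyticOrderAt Y a ≠ ⊤ := by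
      intro h
      rw [analyticOrderAt_eq_top] at h
      have han : AnalyticOnNhd ℂ Y Set.univ := fun z _ => hY.analyticAt z
      exact hz (han.eqOn_zero_of_preconnected_of_eventuallyEq_zero isPreconnected_univ
        (Set.mem_univ a) h (Set.mem_univ z))
    have h4 : analyticOrderNatAt Y a ≠ 0 := by
      intro h
      unfold analyticOrderNatAt at h
      rcases (ENat.toNat_eq_zero).1 h with h | h
      · exact h2 h
      · exact h3 h
    exact_mod_cast h4
  -- absolute convergence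
  have hsummable : Summable fun a : {a : ℂ // Y a = 0} => g a := by
    obtain ⟨T, hT⟩ : ∃ T : Finset ℂ, T = (hfinZ (2 * d + 1)).toFinset := ⟨_, rfl⟩
    refine summable_of_sum_le (f := fun a : {a : ℂ // Y a = 0} => ‖g a‖)
      (c := ∑ a ∈ T, ‖g a‖ + 8 * d * C) (fun _ => norm_nonneg _) (fun S => ?_) |>.of_norm
    have e : ∑ a ∈ S, ‖g (a : ℂ)‖ = ∑ a ∈ S.map (Function.Embedding.subtype _), ‖g a‖ := by
      rw [Finset.sum_map]
      rfl
    rw [e]
    set S' := S.map (Function.Embedding.subtype _) with hS'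
    have hS'0 : ∀ a ∈ S', Y a = 0 := by
      intro a ha
      obtain ⟨b, _, rfl⟩ := Finset.mem_map.1 ha
      exact b.2
    rw [← Finset.sum_filter_add_sum_filter_not S' (fun a => ‖a - z‖ ≤ 2 * d + 1)]
    apply add_le_add
    · refine Finset.sum_le_sum_of_subset_of_nonneg ?_ fun _ _ _ => norm_nonneg _
      intro a ha
      rw [Finset.mem_filter] at ha
      rw [hT, Set.Finite.mem_toFinset]
      exact ⟨hS'0 a ha.1, ha.2⟩
    · calc ∑ a ∈ S' with ¬‖a - z‖ ≤ 2 * d + 1, ‖g a‖
          ≤ ∑ a ∈ S' with ¬‖a - z‖ ≤ 2 * d + 1,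
              (8 * d) * ((analyticOrderNatAt F (a - z) : ℝ) * (1 / (1 + ‖a - z‖) ^ 2)) := by
            refine Finset.sum_le_sum fun a ha => hterm a ?_
            rw [Finset.mem_filter, not_le] at ha
            exact ha.2.le
        _ = 8 * d * ∑ u ∈ (S'.filter fun a => ¬‖a - z‖ ≤ 2 * d + 1).image (fun a => a - z),
              (analyticOrderNatAt F u : ℝ) * (1 / (1 + ‖u‖) ^ 2) := by
            rw [Finset.sum_image (fun a _ b _ h => sub_left_inj.1 h), Finset.mul_sum]
        _ ≤ 8 * d * C := mul_le_mul_of_nonneg_left (hC _) (by positivity)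
  -- the partial sums over balls
  have key : Tendsto (fun ρ : ℕ => ∑ᶠ u, logd_D F ρ u * (1 / (0 - u) - 1 / (w - z - u))) atTop
      (𝓝 (logDeriv Y z - logDeriv Y w)) := by
    rw [← tendsto_sub_nhds_zero_iff]
    have hlim := (logd_lim (K := K') (c := Real.log ‖F 0‖) (d := ‖(0 : ℂ) - (w - z)‖)).comp
      tendsto_natCast_atTop_atTop
    refine squeeze_zero_norm' ?_ hlim
    filter_upwards [eventually_ge_atTop (⌈8 * d⌉₊ + 1)] with n hn
    have hn1 : 8 * d ≤ n := (Nat.le_ceil _).trans (by exact_mod_cast (by omega : ⌈8 * d⌉₊ ≤ n))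
    have hn0 : (0 : ℝ) < n := by exact_mod_cast (by omega : 0 < n)
    have h1 := logd_finite hF hF0 (ρ := (n : ℝ)) (M := K' * (1 + 2 * n) ^ (3 / 2 : ℝ)) hn0
      (fun u hu => (hgr' u).trans (Real.exp_le_exp.2 (by
        rw [mem_closedBall_zero_iff] at hu
        gcongr))) (w := 0) (w' := w - z) (by rw [norm_zero]; positivity) (by rw [← hd]; linarith) hF0
      (by rw [hFdef]; simpa using hw)
    rw [hlog, hlog, zero_add, sub_add_cancel] at h1
    rw [norm_sub_rev]
    exact h1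
  have key2 : Tendsto (fun ρ : ℕ => ∑ᶠ u, logd_D F ρ u * (1 / (0 - u) - 1 / (w - z - u))) atTop
      (𝓝 (∑' a : {a : ℂ // Y a = 0}, g a)) := by
    -- the finite sets of zeros
    obtain ⟨Z, hZ⟩ : ∃ Z : ℕ → Finset {a : ℂ // Y a = 0}, ∀ n a, a ∈ Z n ↔ ‖(a : ℂ) - z‖ ≤ n := by
      refine ⟨fun n => ((hfinZ n).preimage (Subtype.val_injective.injOn)).toFinset, fun n a => ?_⟩
      rw [Set.Finite.mem_toFinset, Set.mem_preimage, Set.mem_ofPred_eq]
      exact ⟨fun h => h.2, fun h => ⟨a.2, h⟩⟩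
    have hZt : Tendsto Z atTop atTop := by
      refine tendsto_atTop_finset_of_monotone ?_ ?_
      · intro m n hmn a ha
        rw [hZ] at ha ⊢
        exact ha.trans (by exact_mod_cast hmn)
      · intro a
        obtain ⟨n, hn⟩ := exists_nat_ge ‖(a : ℂ) - z‖
        exact ⟨n, (hZ n a).2 hn⟩
    have h1 := hsummable.hasSum.comp hZt
    refine h1.congr fun n => ?_
    show ∑ a ∈ Z n, g a = _
    have e1 : ∑ a ∈ Z n, g (a : ℂ) = ∑ a ∈ (Z n).map (Function.Embedding.subtype _), g a := by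
      rw [Finset.sum_map]
      rfl
    have e2 : ∑ a ∈ (Z n).map (Function.Embedding.subtype _), g a =
        ∑ u ∈ ((Z n).map (Function.Embedding.subtype _)).image (fun a => a - z),
          logd_D F n u * (1 / (0 - u) - 1 / (w - z - u)) := by
      rw [Finset.sum_image (fun a _ b _ h => sub_left_inj.1 h)]
      refine Finset.sum_congr rfl fun a ha => ?_
      obtain ⟨b, hb, rfl⟩ := Finset.mem_map.1 ha
      have hb' : ‖(b : ℂ) - z‖ ≤ n := (hZ n b).1 hb
      show g (b : ℂ) = logd_D F n ((b : ℂ) - z) * _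
      rw [logd_in hF hF0 (by rwa [mem_closedBall_zero_iff]), hord, sub_add_cancel, hg]
      simp only
      have q1 : (0 : ℂ) - ((b : ℂ) - z) = z - b := by ring
      have q2 : w - z - ((b : ℂ) - z) = w - b := by ring
      show (analyticOrderNatAt Y (b : ℂ) : ℂ) * (1 / (z - b) - 1 / (w - b)) =
        (analyticOrderNatAt Y (b : ℂ) : ℂ) * (1 / (0 - ((b : ℂ) - z)) - 1 / (w - z - ((b : ℂ) - z)))
      rw [q1, q2]
    rw [e1, e2]
    symm
    apply finsum_eq_sum_of_support_subset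
    intro u hu
    rw [Function.mem_support] at hu
    rw [Finset.mem_coe, Finset.mem_image]
    have h2 : logd_D F n u ≠ 0 := fun h => hu (by rw [h, zero_mul])
    have h3 : u ∈ closedBall (0 : ℂ) (n : ℝ) := by
      by_contra h
      exact h2 (logd_out h)
    have h4 : Y (u + z) = 0 := by
      by_contra h
      apply h2
      rw [logd_in hF hF0 h3, hord]
      have : analyticOrderAt Y (u + z) = 0 := (hY.analyticAt _).analyticOrderAt_eq_zero.2 h
      unfold analyticOrderNatAt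
      rw [this]
      simp
    refine ⟨u + z, Finset.mem_map.2 ⟨⟨u + z, h4⟩, ?_, rfl⟩, by ring⟩
    rw [hZ]
    show ‖u + z - z‖ ≤ n
    rw [add_sub_cancel_right]
    rwa [mem_closedBall_zero_iff] at h3
  have huniq := tendsto_nhds_unique key2 key
  have := hsummable.hasSum
  rw [huniq, hg] at this
  exact this

end Pool.Agent.H862.EC
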