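import Pool.Agent.H862.EL.Exf

/-!
# An explicit formula with the kernel `2α/(α² - z²)`

`∑_{n ≤ x} a_n n^{-1/2} ((x/n)^α - (n/x)^α)` and the zeros of a completed entire `L`-function, by Fourier
inversion; `α ≥ 1/2` is such that `±α` are not zeros.
-/

set_option autoImplicit false

open Complex MeasureTheory Filter Topology Set
open scoped ComplexConjugate FourierTransform

namespace Pool.Agent.H862.EC

open Pool.Agent.H862.EL (od exp_lap full_half int_tsum inversion rlem)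

/-! ### the blocks -/

/-- the building block, which vanishes for `y ≤ 0` -/
noncomputable def bg (α : ℝ) (c : ℂ) (y : ℝ) : ℂ := cexp (c * (max y 0 : ℝ)) - cexp (-(α : ℂ) * (max y 0 : ℝ))

section
variable {α : ℝ}

lemma bg_cont (c : ℂ) : Continuous (bg α c) := by
  unfold bg
  fun_prop

lemma bg_neg (c : ℂ) {y : ℝ} (hy : y ≤ 0) : bg α c y = 0 := by
  unfold bg
  rw [max_eq_right hy]
  simp

lemma bg_pos (c : ℂ) {y : ℝ} (hy : 0 ≤ y) : bg α c y = cexp (c * y) - cexp (-(α : ℂ) * y) := by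
  unfold bg
  rw [max_eq_left hy]

lemma bg_lap {c w : ℂ} (h : c.re < w.re) (hw : -α < w.re) :
    Integrable (fun y : ℝ => bg α c y * cexp (-(w * y))) ∧
      ∫ y : ℝ, bg α c y * cexp (-(w * y)) = 1 / (w - c) - 1 / (w + α) := by
  obtain ⟨h1, h2⟩ := full_half (f := fun y : ℝ => bg α c y * cexp (-(w * y)))
    (fun y hy => by rw [bg_neg c hy, zero_mul])
  have hhalf : (-(α : ℂ)).re < w.re := by
    rw [neg_re, ofReal_re]; exact hw
  obtain ⟨i1, v1⟩ := exp_lap h
  obtain ⟨i2, v2⟩ := exp_lap hhalf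
  have e : EqOn (fun y : ℝ => bg α c y * cexp (-(w * y))) (fun y : ℝ => cexp (c * y) * cexp (-(w * y)) -
      cexp (-(α : ℂ) * y) * cexp (-(w * y))) (Ioi 0) := by
    intro y hy
    have hy : (0 : ℝ) < y := hy
    simp only
    rw [bg_pos c hy.le, sub_mul]
  constructor
  · apply h1
    rw [integrableOn_congr_fun e measurableSet_Ioi]
    exact i1.sub i2
  · rw [h2, setIntegral_congr_fun measurableSet_Ioi e, integral_sub i1 i2, v1, v2, sub_neg_eq_add]

/-- the absolute integral of a block -/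
lemma bg_abs (hα : 0 ≤ α) {c : ℂ} (hc : c.re ≤ α) {w : ℂ} (hw : w.re = α + 1 / 2) :
    ∫ y : ℝ, ‖bg α c y * cexp (-(w * y))‖ ≤ 4 := by
  have hn : ∀ y : ℝ, ‖bg α c y * cexp (-(w * y))‖ ≤ (Ioi (0 : ℝ)).indicator
      (fun y => 2 * Real.exp ((-(1 / 2)) * y)) y := by
    intro y
    by_cases hy : y ∈ Ioi (0 : ℝ)
    · rw [Set.indicator_of_mem hy]
      have hy : (0 : ℝ) < y := hy
      rw [bg_pos c hy.le, norm_mul]
      have h1 : ‖cexp (-(w * y))‖ = Real.exp (-((α + 1 / 2) * y)) := by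
        rw [Complex.norm_exp, neg_re, Complex.re_mul_ofReal, hw]
      have h2 : ‖cexp (c * y)‖ ≤ Real.exp (α * y) := by
        rw [Complex.norm_exp]
        refine Real.exp_le_exp.2 ?_
        rw [Complex.re_mul_ofReal]
        exact mul_le_mul_of_nonneg_right hc hy.le
      have h3 : ‖cexp (-(α : ℂ) * y)‖ ≤ Real.exp (α * y) := by
        rw [Complex.norm_exp]
        refine Real.exp_le_exp.2 ?_
        rw [Complex.re_mul_ofReal, neg_re, ofReal_re]
        nlinarith
      have h4 := norm_sub_le (cexp (c * y)) (cexp (-(α : ℂ) * y))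
      rw [h1]
      calc ‖cexp (c * y) - cexp (-(α : ℂ) * y)‖ * Real.exp (-((α + 1 / 2) * y))
          ≤ (2 * Real.exp (α * y)) * Real.exp (-((α + 1 / 2) * y)) :=
            mul_le_mul_of_nonneg_right (by linarith) (Real.exp_pos _).le
        _ = 2 * Real.exp ((-(1 / 2)) * y) := by
            rw [mul_assoc, ← Real.exp_add]
            ring_nf
    · rw [Set.indicator_of_notMem hy]
      have hy : y ≤ 0 := not_lt.1 hy
      rw [bg_neg c hy, zero_mul, norm_zero]
  have hi : Integrable ((Ioi (0 : ℝ)).indicator (fun y => 2 * Real.exp ((-(1 / 2)) * y))) :=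
    (integrable_indicator_iff measurableSet_Ioi).2
      ((integrableOn_exp_mul_Ioi (by norm_num : (-(1 / 2) : ℝ) < 0) 0).const_mul 2)
  have h1 := (bg_lap (α := α) (c := c) (w := w) (by rw [hw]; linarith) (by rw [hw]; linarith)).1
  refine (integral_mono h1.norm hi hn).trans ?_
  rw [integral_indicator measurableSet_Ioi, integral_const_mul,
    integral_exp_mul_Ioi (by norm_num : (-(1 / 2) : ℝ) < 0) 0]
  norm_num

end

/-! ### the data -/

/-- a completed `L`-function `Y` (with the origin at the central point), `B` its factors at infinity,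
and `a` the coefficients of `-L'/L` -/
structure EDat (α : ℝ) (Y B : ℂ → ℂ) (a : ℕ → ℂ) : Prop where
  hα : 1 / 2 ≤ α
  diff : Differentiable ℂ Y
  pf : ∀ z w : ℂ, Y z ≠ 0 → Y w ≠ 0 → HasSum (fun b : {b : ℂ // Y b = 0} =>
    (analyticOrderNatAt Y (b : ℂ) : ℂ) * (1 / (z - b) - 1 / (w - b))) (logDeriv Y z - logDeriv Y w)
  sm : Summable fun b : {b : ℂ // Y b = 0} => (analyticOrderNatAt Y (b : ℂ) : ℝ) * (1 / (1 + ‖(b : ℂ)‖) ^ 2)
  strip : ∀ z, Y z = 0 → |z.re| ≤ 1 / 2
  nr : Y α ≠ 0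
  nl : Y (-α) ≠ 0
  Ban : DifferentiableOn ℂ B {z | -(1 / 2) < z.re}
  Bbd : ∃ C : ℝ, 0 < C ∧ ∀ z : ℂ, 0 ≤ z.re → ‖B z‖ ≤ C * Real.log (2 + ‖z‖)
  a0 : a 0 = 0
  as : Summable fun n : ℕ => ‖a n‖ * (n : ℝ) ^ (-(1 + α) : ℝ)
  eq : ∀ w : ℂ, w.re = α + 1 / 2 → logDeriv Y w = B w - ∑' n : ℕ, a n * (n : ℂ) ^ (-(1 / 2 + w))

section
variable {α : ℝ} {Y B : ℂ → ℂ} {a : ℕ → ℂ}

/-- the coefficient of a zero -/
noncomputable def ag (α : ℝ) (Y : ℂ → ℂ) (b : ℂ) : ℂ := (od Y b : ℂ) * (2 * α / (α ^ 2 - b ^ 2))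

lemma od_pos (H : EDat α Y B a) (b : {b : ℂ // Y b = 0}) : 1 ≤ od Y b := by
  have h2 : analyticOrderAt Y b ≠ 0 := by
    rw [(H.diff.analyticAt b).analyticOrderAt_ne_zero]
    exact b.2
  have h3 : analyticOrderAt Y b ≠ ⊤ := by
    intro h
    rw [analyticOrderAt_eq_top] at h
    have han : AnalyticOnNhd ℂ Y Set.univ := fun z _ => H.diff.analyticAt z
    exact H.nl (han.eqOn_zero_of_preconnected_of_eventuallyEq_zero isPreconnected_univ
      (Set.mem_univ _) h (Set.mem_univ _))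
  have h4 : analyticOrderNatAt Y b ≠ 0 := by
    intro h
    unfold analyticOrderNatAt at h
    rcases (ENat.toNat_eq_zero).1 h with h | h
    · exact h2 h
    · exact h3 h
  unfold od
  exact_mod_cast Nat.one_le_iff_ne_zero.2 h4

lemma zfin (H : EDat α Y B a) (R : ℝ) : {b : {b : ℂ // Y b = 0} | ‖(b : ℂ)‖ ≤ R}.Finite := by
  obtain ⟨R', hR', hR0⟩ : ∃ R' : ℝ, R ≤ R' ∧ 0 ≤ R' := ⟨max R 0, le_max_left _ _, le_max_right _ _⟩
  have h1 := H.sm.tendsto_cofinite_zero
  have h2 := h1.eventually (gt_mem_nhds (show (0 : ℝ) < 1 / (1 + R') ^ 2 by positivity))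
  rw [eventually_cofinite] at h2
  refine h2.subset fun b hb => ?_
  have hb : ‖(b : ℂ)‖ ≤ R := hb
  show ¬ (_ < _)
  rw [not_lt]
  have h3 := od_pos H b
  unfold od at h3
  calc 1 / (1 + R') ^ 2 ≤ 1 / (1 + ‖(b : ℂ)‖) ^ 2 := by
        apply one_div_le_one_div_of_le (by positivity)
        gcongr
        linarith
    _ ≤ _ := le_mul_of_one_le_left (by positivity) h3

lemma ne_sq (H : EDat α Y B a) (b : {b : ℂ // Y b = 0}) : ((α : ℂ) ^ 2 - (b : ℂ) ^ 2) ≠ 0 ∧
    ((α : ℂ) - (b : ℂ)) ≠ 0 ∧ ((α : ℂ) + (b : ℂ)) ≠ 0 := by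
  have h1 : ((α : ℂ) - (b : ℂ)) ≠ 0 := by
    intro h
    refine H.nr ?_
    rw [sub_eq_zero.1 h]
    exact b.2
  have h2 : ((α : ℂ) + (b : ℂ)) ≠ 0 := by
    intro h
    refine H.nl ?_
    rw [show (-(α : ℂ)) = b by linear_combination -h]
    exact b.2
  refine ⟨?_, h1, h2⟩
  have : ((α : ℂ) ^ 2 - (b : ℂ) ^ 2) = ((α : ℂ) - (b : ℂ)) * ((α : ℂ) + (b : ℂ)) := by ring
  rw [this]
  exact mul_ne_zero h1 h2

lemma ag_sum (H : EDat α Y B a) : Summable fun b : {b : ℂ // Y b = 0} => ‖ag α Y b‖ := by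
  have hα := H.hα
  refine Summable.of_norm_bounded_eventually (g := fun b : {b : ℂ // Y b = 0} =>
    (16 * α) * ((analyticOrderNatAt Y (b : ℂ) : ℝ) * (1 / (1 + ‖(b : ℂ)‖) ^ 2))) (H.sm.mul_left _) ?_
  rw [eventually_cofinite]
  refine (zfin H (1 + 2 * α)).subset fun b hb => ?_
  show ‖(b : ℂ)‖ ≤ 1 + 2 * α
  by_contra hcon
  push Not at hcon
  apply hb
  rw [norm_norm]
  unfold ag od
  have e0 : ‖(2 * α : ℂ)‖ = 2 * α := by
    rw [norm_mul, Complex.norm_real, Real.norm_of_nonneg (by linarith)]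
    norm_num
  rw [norm_mul, Complex.norm_real, Real.norm_of_nonneg (Nat.cast_nonneg _), norm_div, e0]
  have h1 : 1 / 8 * (1 + ‖(b : ℂ)‖) ^ 2 ≤ ‖((α : ℂ) ^ 2 - (b : ℂ) ^ 2)‖ := by
    have h2 := norm_sub_norm_le ((b : ℂ) ^ 2) ((α : ℂ) ^ 2)
    rw [norm_sub_rev, norm_pow, norm_pow, Complex.norm_real, Real.norm_of_nonneg (by linarith : 0 ≤ α)] at h2
    have h4 : α ≤ (‖(b : ℂ)‖ - 1) / 2 := by linarith
    have h5 : α ^ 2 ≤ ((‖(b : ℂ)‖ - 1) / 2) ^ 2 := by
      apply pow_le_pow_left₀ (by linarith) h4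
    nlinarith
  calc (analyticOrderNatAt Y (b : ℂ) : ℝ) * (2 * α / ‖((α : ℂ) ^ 2 - (b : ℂ) ^ 2)‖)
      ≤ (analyticOrderNatAt Y (b : ℂ) : ℝ) * (2 * α / (1 / 8 * (1 + ‖(b : ℂ)‖) ^ 2)) := by
        refine mul_le_mul_of_nonneg_left ?_ (Nat.cast_nonneg _)
        exact div_le_div_of_nonneg_left (by linarith) (by positivity) h1
    _ = _ := by
        field_simp
        ring

/-- the sum over the coefficients -/
noncomputable def DG (α : ℝ) (a : ℕ → ℂ) (y : ℝ) : ℂ :=
  ∑' n : ℕ, a n * (n : ℂ) ^ (-(1 / 2) : ℂ) * bg α α (y - Real.log n)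

/-- the sum over the zeros -/
noncomputable def ZG (α : ℝ) (Y : ℂ → ℂ) (y : ℝ) : ℂ := ∑' b : {b : ℂ // Y b = 0}, ag α Y b * bg α b y

lemma DG_fin {y : ℝ} {N : ℕ} (hN : y ≤ Real.log N) (hN0 : 0 < N) :
    DG α a y = ∑ n ∈ Finset.range N, a n * (n : ℂ) ^ (-(1 / 2) : ℂ) * bg α α (y - Real.log n) := by
  unfold DG
  refine tsum_eq_sum fun n hn => ?_
  rw [Finset.mem_range, not_lt] at hn
  have h1 : Real.log N ≤ Real.log n := Real.log_le_log (by exact_mod_cast hN0) (by exact_mod_cast hn)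
  rw [bg_neg _ (by linarith), mul_zero]

/-- the sum over the coefficients is a finite sum -/
lemma DG_eq (h0 : a 0 = 0) (y : ℝ) : DG α a y = ∑ n ∈ Finset.Icc 1 ⌊Real.exp y⌋₊,
    a n * (n : ℂ) ^ (-(1 / 2) : ℂ) * (cexp (α * (y - Real.log n)) - cexp (-(α * (y - Real.log n)))) := by
  unfold DG
  rw [tsum_eq_sum (s := Finset.Icc 1 ⌊Real.exp y⌋₊)]
  · refine Finset.sum_congr rfl fun n hn => ?_
    rw [Finset.mem_Icc] at hn
    have hn0 : (0 : ℝ) < n := by exact_mod_cast hn.1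
    have h1 : (n : ℝ) ≤ Real.exp y := (Nat.le_floor_iff (Real.exp_pos y).le).1 hn.2
    have h2 : Real.log n ≤ y := (Real.log_le_iff_le_exp hn0).2 h1
    rw [bg_pos _ (by linarith)]
    push_cast
    rw [neg_mul]
  · intro n hn
    rw [Finset.mem_Icc, not_and_or, not_le, not_le] at hn
    rcases hn with hn | hn
    · have : n = 0 := by omega
      rw [this, h0, zero_mul, zero_mul]
    · have h1 : Real.exp y < n := (Nat.floor_lt (Real.exp_pos y).le).1 hn
      have hn0 : (0 : ℝ) < n := (Real.exp_pos y).trans h1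
      have h2 : y < Real.log n := (Real.lt_log_iff_exp_lt hn0).2 h1
      rw [bg_neg _ (by linarith), mul_zero]

lemma DG_cont : Continuous (DG α a) := by
  rw [continuous_iff_continuousAt]
  intro y
  obtain ⟨N, hN⟩ := exists_nat_ge (Real.exp (y + 1))
  have hN0 : (0 : ℝ) < N := (Real.exp_pos _).trans_le hN
  have h1 : y + 1 ≤ Real.log N := by
    rw [Real.le_log_iff_exp_le hN0]
    exact hN
  have h2 : Continuous fun y : ℝ => ∑ n ∈ Finset.range N, a n * (n : ℂ) ^ (-(1 / 2) : ℂ) *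
      bg α α (y - Real.log n) := by
    refine continuous_finsetSum _ fun n _ => continuous_const.mul ((bg_cont _).comp (by fun_prop))
  refine h2.continuousAt.congr ?_
  filter_upwards [Iio_mem_nhds (show y < y + 1 by linarith)] with u hu
  have hu : u < y + 1 := hu
  exact (DG_fin (by linarith) (by exact_mod_cast hN0)).symm

lemma bg_le (hα : 0 ≤ α) {c : ℂ} (hc : |c.re| ≤ α) (y : ℝ) : ‖bg α c y‖ ≤ 2 * Real.exp (α * |y|) := by
  unfold bg
  have h0 : max y 0 ≤ |y| := max_le (le_abs_self _) (abs_nonneg _)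
  have h0' : 0 ≤ max y 0 := le_max_right _ _
  refine (norm_sub_le _ _).trans ?_
  have h1 : ‖cexp (c * (max y 0 : ℝ))‖ ≤ Real.exp (α * |y|) := by
    rw [Complex.norm_exp]
    refine Real.exp_le_exp.2 ?_
    rw [Complex.re_mul_ofReal]
    have := (abs_le.1 hc).2
    calc c.re * max y 0 ≤ α * max y 0 := mul_le_mul_of_nonneg_right this h0'
      _ ≤ _ := mul_le_mul_of_nonneg_left h0 hα
  have h2 : ‖cexp (-(α : ℂ) * (max y 0 : ℝ))‖ ≤ Real.exp (α * |y|) := by
    rw [Complex.norm_exp]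
    refine Real.exp_le_exp.2 ?_
    rw [Complex.re_mul_ofReal, neg_re, ofReal_re]
    have h3 : 0 ≤ α * max y 0 := mul_nonneg hα h0'
    have h4 : 0 ≤ α * |y| := mul_nonneg hα (abs_nonneg _)
    linarith
  linarith

lemma ZG_cont (H : EDat α Y B a) : Continuous (ZG α Y) := by
  have hα := H.hα
  rw [continuous_iff_continuousAt]
  intro y
  have h1 : ContinuousOn (ZG α Y) (Icc (y - 1) (y + 1)) := by
    refine continuousOn_tsum (u := fun b : {b : ℂ // Y b = 0} => ‖ag α Y b‖ * (2 * Real.exp (α * (|y| + 1))))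
      (fun b => (continuous_const.mul (bg_cont _)).continuousOn) ((ag_sum H).mul_right _) fun b x hx => ?_
    rw [norm_mul]
    refine mul_le_mul_of_nonneg_left ((bg_le (by linarith) ((H.strip b b.2).trans hα) x).trans ?_) (norm_nonneg _)
    have h2 : |x - y| ≤ 1 := abs_le.2 ⟨by linarith [hx.1], by linarith [hx.2]⟩
    have h3 := abs_sub_abs_le_abs_sub x y
    have h4 : α * |x| ≤ α * (|y| + 1) := mul_le_mul_of_nonneg_left (by linarith) (by linarith)
    have := Real.exp_le_exp.2 h4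
    linarith
  exact h1.continuousAt (Icc_mem_nhds (by linarith) (by linarith))

/-- the transform of the sum over the coefficients -/
lemma DG_lap (H : EDat α Y B a) {w : ℂ} (hw : w.re = α + 1 / 2) :
    Integrable (fun y : ℝ => DG α a y * cexp (-(w * y))) ∧
      ∫ y : ℝ, DG α a y * cexp (-(w * y)) = (1 / (w - α) - 1 / (w + α)) *
        ∑' n : ℕ, a n * (n : ℂ) ^ (-(1 / 2 + w)) := by
  have hα := H.hα
  have hh : (1 / 2 : ℂ).re = 1 / 2 := by norm_num
  obtain ⟨i1, v1⟩ := bg_lap (α := α) (c := α) (w := w) (by rw [ofReal_re, hw]; linarith) (by rw [hw]; linarith)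
  -- the terms
  have hterm : ∀ n : ℕ, Integrable (fun y : ℝ => a n * (n : ℂ) ^ (-(1 / 2) : ℂ) *
      bg α α (y - Real.log n) * cexp (-(w * y))) ∧
      (∫ y : ℝ, a n * (n : ℂ) ^ (-(1 / 2) : ℂ) * bg α α (y - Real.log n) * cexp (-(w * y)) =
        (1 / (w - α) - 1 / (w + α)) * (a n * (n : ℂ) ^ (-(1 / 2 + w)))) ∧
      ∫ y : ℝ, ‖a n * (n : ℂ) ^ (-(1 / 2) : ℂ) * bg α α (y - Real.log n) * cexp (-(w * y))‖ ≤
        4 * (‖a n‖ * (n : ℝ) ^ (-(1 + α) : ℝ)) := by
    intro n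
    rcases Nat.eq_zero_or_pos n with h0 | h0
    · rw [h0, H.a0]
      simp
    have hn : (0 : ℝ) < n := by exact_mod_cast h0
    have hnc : (n : ℂ) ≠ 0 := by exact_mod_cast h0.ne'
    have e1 : ∀ y : ℝ, a n * (n : ℂ) ^ (-(1 / 2) : ℂ) * bg α α (y - Real.log n) * cexp (-(w * y)) =
        (a n * (n : ℂ) ^ (-(1 / 2 + w))) * (fun u : ℝ => bg α α u * cexp (-(w * u))) (y - Real.log n) := by
      intro y
      have e2 : (n : ℂ) ^ (-(1 / 2 + w)) = (n : ℂ) ^ (-(1 / 2) : ℂ) * cexp (-(w * Real.log n)) := by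
        rw [neg_add, Complex.cpow_add _ _ hnc]
        congr 1
        rw [Complex.cpow_def_of_ne_zero hnc, ← Complex.natCast_log]
        ring_nf
      have e3 : cexp (-(w * y)) = cexp (-(w * Real.log n)) * cexp (-(w * ((y - Real.log n : ℝ) : ℂ))) := by
        rw [← Complex.exp_add]
        congr 1
        push_cast
        ring
      rw [e2, e3]
      simp only
      ring
    simp_rw [e1]
    refine ⟨(i1.comp_sub_right (Real.log n)).const_mul _, ?_, ?_⟩
    · rw [integral_const_mul, integral_sub_right_eq_self (fun u : ℝ => bg α α u * cexp (-(w * u))), v1]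
      ring
    · simp_rw [norm_mul (a n * (n : ℂ) ^ (-(1 / 2 + w)))]
      rw [integral_const_mul, integral_sub_right_eq_self (fun u : ℝ => ‖bg α α u * cexp (-(w * u))‖)]
      have h1 := bg_abs (α := α) (c := α) (by linarith) (by rw [ofReal_re]) hw
      have h2 : ‖a n * (n : ℂ) ^ (-(1 / 2 + w))‖ = ‖a n‖ * (n : ℝ) ^ (-(1 + α) : ℝ) := by
        rw [norm_mul, Complex.norm_natCast_cpow_of_pos h0]
        congr 2
        rw [neg_re, add_re, hh, hw]
        ring
      rw [h2]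
      have h3 : 0 ≤ ‖a n‖ * (n : ℝ) ^ (-(1 + α) : ℝ) := by positivity
      nlinarith
  have hs : Summable fun n : ℕ => ∫ y : ℝ, ‖a n * (n : ℂ) ^ (-(1 / 2) : ℂ) * bg α α (y - Real.log n) *
      cexp (-(w * y))‖ :=
    Summable.of_nonneg_of_le (fun n => integral_nonneg fun y => norm_nonneg _) (fun n => (hterm n).2.2)
      (H.as.mul_left 4)
  have hE : ∀ y : ℝ, DG α a y * cexp (-(w * y)) = ∑' n : ℕ, a n * (n : ℂ) ^ (-(1 / 2) : ℂ) *
      bg α α (y - Real.log n) * cexp (-(w * y)) := fun y => by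
    unfold DG
    rw [tsum_mul_right]
  constructor
  · exact int_tsum (fun n => (hterm n).1) hs
      (DG_cont.mul (by fun_prop : Continuous fun y : ℝ => cexp (-(w * y)))).aestronglyMeasurable hE
  · simp_rw [hE]
    rw [← (hasSum_integral_of_summable_integral_norm (fun n => (hterm n).1) hs).tsum_eq, ← tsum_mul_left]
    exact tsum_congr fun n => (hterm n).2.1

/-- the zeros are countable -/
lemma zcount (H : EDat α Y B a) : Countable {b : ℂ // Y b = 0} := by
  have h1 := H.sm.countable_support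
  have h2 : Function.support (fun b : {b : ℂ // Y b = 0} =>
      (analyticOrderNatAt Y (b : ℂ) : ℝ) * (1 / (1 + ‖(b : ℂ)‖) ^ 2)) = Set.univ := by
    ext b
    simp only [Function.mem_support, Set.mem_univ, iff_true]
    have := od_pos H b
    unfold od at this
    have h3 : (0 : ℝ) < 1 / (1 + ‖(b : ℂ)‖) ^ 2 := by positivity
    exact (mul_pos (by linarith) h3).ne'
  rw [h2] at h1
  exact Set.countable_univ_iff.1 h1

/-- the transform of the sum over the zeros -/
lemma ZG_lap (H : EDat α Y B a) {w : ℂ} (hw : w.re = α + 1 / 2) :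
    Integrable (fun y : ℝ => ZG α Y y * cexp (-(w * y))) ∧
      ∫ y : ℝ, ZG α Y y * cexp (-(w * y)) =
        -((1 / (w - α) - 1 / (w + α)) * (logDeriv Y w - logDeriv Y α)) := by
  have hα := H.hα
  have hst : ∀ b : {b : ℂ // Y b = 0}, (b : ℂ).re ≤ 1 / 2 := fun b => (abs_le.1 (H.strip b b.2)).2
  have hE : ∀ y : ℝ, ZG α Y y * cexp (-(w * y)) = ∑' b : {b : ℂ // Y b = 0}, ag α Y b * bg α b y * cexp (-(w * y)) :=
    fun y => by
    unfold ZG
    rw [tsum_mul_right]
  have hl : ∀ b : {b : ℂ // Y b = 0}, Integrable (fun y : ℝ => ag α Y b * bg α b y * cexp (-(w * y))) ∧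
      (∫ y : ℝ, ag α Y b * bg α b y * cexp (-(w * y)) = ag α Y b * (1 / (w - b) - 1 / (w + α))) ∧
      ∫ y : ℝ, ‖ag α Y b * bg α b y * cexp (-(w * y))‖ ≤ 4 * ‖ag α Y b‖ := by
    intro b
    have h1 := hst b
    obtain ⟨i1, v1⟩ := bg_lap (α := α) (c := (b : ℂ)) (w := w) (by rw [hw]; linarith) (by rw [hw]; linarith)
    simp_rw [mul_assoc (ag α Y b)]
    refine ⟨i1.const_mul _, by rw [integral_const_mul, v1], ?_⟩
    simp_rw [norm_mul (ag α Y b)]
    rw [integral_const_mul]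
    have := bg_abs (α := α) (by linarith) (h1.trans hα) hw
    nlinarith [norm_nonneg (ag α Y b)]
  have := zcount H
  have hs : Summable fun b : {b : ℂ // Y b = 0} => ∫ y : ℝ, ‖ag α Y b * bg α b y * cexp (-(w * y))‖ :=
    Summable.of_nonneg_of_le (fun n => integral_nonneg fun y => norm_nonneg _) (fun n => (hl n).2.2)
      ((ag_sum H).mul_left 4)
  constructor
  · exact int_tsum (fun n => (hl n).1) hs
      ((ZG_cont H).mul (by fun_prop : Continuous fun y : ℝ => cexp (-(w * y)))).aestronglyMeasurable hE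
  · simp_rw [hE]
    rw [← (hasSum_integral_of_summable_integral_norm (fun n => (hl n).1) hs).tsum_eq]
    have n1 : w - α ≠ 0 := by
      intro h
      have := congrArg Complex.re h
      rw [sub_re, ofReal_re, zero_re, hw] at this
      linarith
    have n2 : w + α ≠ 0 := by
      intro h
      have := congrArg Complex.re h
      rw [add_re, ofReal_re, zero_re, hw] at this
      linarith
    have n0 : Y w ≠ 0 := by
      intro h
      have := (abs_le.1 (H.strip w h)).2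
      rw [hw] at this
      linarith
    have h1 := ((H.pf w α n0 H.nr).mul_left (-(1 / (w - α) - 1 / (w + α)))).tsum_eq
    rw [neg_mul] at h1
    rw [← h1]
    refine tsum_congr fun b => ?_
    rw [(hl b).2.1]
    obtain ⟨m1, m2, m3⟩ := ne_sq H b
    have m4 : w - b ≠ 0 := by
      intro h
      have h2 := congrArg Complex.re h
      rw [sub_re, zero_re, hw] at h2
      linarith [hst b]
    unfold ag od
    push_cast
    generalize (analyticOrderNatAt Y (b : ℂ) : ℂ) = m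
    generalize (b : ℂ) = b at *
    generalize (α : ℂ) = t at *
    have e : (t ^ 2 - b ^ 2) = (t - b) * (t + b) := by ring
    rw [e]
    field_simp
    ring

/-- the remainder -/
noncomputable def QG (α : ℝ) (Y B : ℂ → ℂ) (a : ℕ → ℂ) (y : ℝ) : ℂ :=
  DG α a y + (logDeriv Y α - B α) * bg α α y - ZG α Y y

/-- its transform -/
noncomputable def RG (α : ℝ) (B : ℂ → ℂ) (w : ℂ) : ℂ := 2 * α * (dslope B α w / (w + α))

lemma QG_cont (H : EDat α Y B a) : Continuous (QG α Y B a) := by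
  unfold QG
  exact ((DG_cont).add (continuous_const.mul (bg_cont _))).sub (ZG_cont H)

lemma QG_lap (H : EDat α Y B a) {w : ℂ} (hw : w.re = α + 1 / 2) :
    Integrable (fun y : ℝ => QG α Y B a y * cexp (-(w * y))) ∧
      ∫ y : ℝ, QG α Y B a y * cexp (-(w * y)) = RG α B w := by
  have hα := H.hα
  obtain ⟨i1, v1⟩ := DG_lap H hw
  obtain ⟨i3, v3⟩ := bg_lap (α := α) (c := α) (w := w) (by rw [ofReal_re, hw]; linarith) (by rw [hw]; linarith)
  obtain ⟨i4, v4⟩ := ZG_lap H hw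
  have e : ∀ y : ℝ, QG α Y B a y * cexp (-(w * y)) = DG α a y * cexp (-(w * y)) +
      (logDeriv Y α - B α) * (bg α α y * cexp (-(w * y))) - ZG α Y y * cexp (-(w * y)) := by
    intro y
    unfold QG
    ring
  simp_rw [e]
  have j2 := i3.const_mul (logDeriv Y α - B α)
  refine ⟨(i1.add j2).sub i4, ?_⟩
  have n1 : w - α ≠ 0 := by
    intro h
    have := congrArg Complex.re h
    rw [sub_re, ofReal_re, zero_re, hw] at this
    linarith
  have n2 : w + α ≠ 0 := by
    intro h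
    have := congrArg Complex.re h
    rw [add_re, ofReal_re, zero_re, hw] at this
    linarith
  have n3 : w ≠ α := sub_ne_zero.1 n1
  have k1 := integral_sub (i1.add j2) i4
  have k2 := integral_add i1 j2
  simp only [Pi.add_apply] at k1 k2
  rw [k1, k2, integral_const_mul, v1, v3, v4, H.eq w hw]
  unfold RG
  rw [dslope_of_ne _ n3, slope_def_field]
  generalize (∑' n : ℕ, a n * (n : ℂ) ^ (-(1 / 2 + w))) = S
  generalize logDeriv Y α = l
  generalize B α = b0
  generalize B w = b1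
  generalize (α : ℂ) = t at *
  field_simp
  ring

lemma RG_diff (H : EDat α Y B a) {w : ℂ} (hw : -(1 / 2) < w.re) : DifferentiableAt ℂ (RG α B) w := by
  have hα := H.hα
  have hU : IsOpen {z : ℂ | -(1 / 2) < z.re} := isOpen_lt continuous_const Complex.continuous_re
  have h1 : DifferentiableOn ℂ (dslope B α) {z : ℂ | -(1 / 2) < z.re} := by
    rw [Complex.differentiableOn_dslope (hU.mem_nhds (by
      show -(1 / 2 : ℝ) < (α : ℂ).re
      rw [ofReal_re]
      linarith))]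
    exact H.Ban
  have h2 : w + α ≠ 0 := by
    intro h
    have := congrArg Complex.re h
    rw [add_re, zero_re, ofReal_re] at this
    linarith
  exact ((h1.differentiableAt (hU.mem_nhds hw)).div (by fun_prop) h2).const_mul _

lemma RG_bd (H : EDat α Y B a) : ∃ K : ℝ, 0 ≤ K ∧ ∀ w : ℂ, 0 ≤ w.re → w.re ≤ α + 1 / 2 →
    ‖RG α B w‖ ≤ K * (1 + ‖w.im‖) ^ (-(3 / 2) : ℝ) := by
  have hα := H.hα
  obtain ⟨C, hC0, hC⟩ := H.Bbd
  -- the compact part
  obtain ⟨T, hT⟩ : ∃ T : ℝ, T = α + 1 := ⟨_, rfl⟩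
  obtain ⟨M, hM⟩ : ∃ M : ℝ, ∀ w : ℂ, 0 ≤ w.re → w.re ≤ α + 1 / 2 → |w.im| ≤ T → ‖RG α B w‖ ≤ M := by
    have hc : IsCompact (Icc (0 : ℝ) (α + 1 / 2) ×ℂ Icc (-T) T) := isCompact_Icc.reProdIm isCompact_Icc
    have hcont : ContinuousOn (fun w => ‖RG α B w‖) (Icc (0 : ℝ) (α + 1 / 2) ×ℂ Icc (-T) T) := by
      intro w hw
      have h1 : w.re ∈ Icc (0 : ℝ) (α + 1 / 2) := hw.1
      exact (RG_diff H (by linarith [h1.1])).continuousAt.norm.continuousWithinAt
    obtain ⟨M, hM⟩ := hc.bddAbove_image hcont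
    exact ⟨M, fun w h1 h2 h3 => hM ⟨w, ⟨⟨h1, h2⟩, abs_le.1 h3⟩, rfl⟩⟩
  have hM0 : 0 ≤ M := (norm_nonneg _).trans (hM 0 (by simp) (by simp; linarith) (by simp; linarith))
  obtain ⟨A, hA⟩ : ∃ A : ℝ, A = (1 + T) ^ (3 / 2 : ℝ) := ⟨_, rfl⟩
  have hA0 : 0 < A := by rw [hA]; exact Real.rpow_pos_of_pos (by linarith) _
  refine ⟨A * M + 2 * α * (32 * C), by positivity, fun w h0 h1 => ?_⟩
  have ht0 := norm_nonneg w.im
  rcases le_or_gt |w.im| T with h2 | h2
  · refine (hM w h0 h1 h2).trans ?_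
    have h3 : 1 / A ≤ (1 + ‖w.im‖) ^ (-(3 / 2) : ℝ) := by
      rw [Real.rpow_neg (by positivity), ← one_div]
      apply one_div_le_one_div_of_le (by positivity)
      rw [hA]
      exact Real.rpow_le_rpow (by positivity) (by rw [Real.norm_eq_abs]; linarith) (by norm_num)
    have h4 : 0 ≤ (1 + ‖w.im‖) ^ (-(3 / 2) : ℝ) := by positivity
    have h5 : 0 ≤ 2 * α * (32 * C) := by positivity
    have h6 : M = A * M * (1 / A) := by field_simp
    have h7 : A * M * (1 / A) ≤ A * M * (1 + ‖w.im‖) ^ (-(3 / 2) : ℝ) :=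
      mul_le_mul_of_nonneg_left h3 (by positivity)
    nlinarith
  · have ht : T < ‖w.im‖ := h2
    have n3 : w ≠ α := by
      intro h
      rw [h, ofReal_im] at ht
      simp at ht
      linarith
    unfold RG
    rw [dslope_of_ne _ n3, slope_def_field, norm_mul, norm_div, norm_div]
    have e0 : ‖(2 * α : ℂ)‖ = 2 * α := by
      rw [norm_mul, Complex.norm_real, Real.norm_of_nonneg (by linarith)]
      norm_num
    rw [e0]
    have g1 : ‖w.im‖ ≤ ‖w - α‖ := by
      have := Complex.abs_im_le_norm (w - α)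
      rw [sub_im, ofReal_im, sub_zero] at this
      exact this
    have g2 : ‖w.im‖ ≤ ‖w + α‖ := by
      have := Complex.abs_im_le_norm (w + α)
      rw [add_im, ofReal_im, add_zero] at this
      exact this
    have hw : ‖w‖ ≤ 2 * (1 + ‖w.im‖) := by
      refine (Complex.norm_le_abs_re_add_abs_im w).trans ?_
      rw [abs_of_nonneg h0, ← Real.norm_eq_abs]
      linarith
    have hlog : ∀ x : ℝ, 0 ≤ x → x ≤ 2 * (1 + ‖w.im‖) → Real.log (2 + x) ≤ 4 * (1 + ‖w.im‖) ^ (1 / 2 : ℝ) := by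
      intro x hx0 hx
      have h3 : Real.log (2 + x) ≤ (2 + x) ^ (1 / 2 : ℝ) / (1 / 2) :=
        Real.log_le_rpow_div (by positivity) (by norm_num)
      have h4 : (2 + x) ^ (1 / 2 : ℝ) ≤ (4 * (1 + ‖w.im‖)) ^ (1 / 2 : ℝ) :=
        Real.rpow_le_rpow (by positivity) (by linarith) (by norm_num)
      rw [Real.mul_rpow (by norm_num) (by positivity)] at h4
      have h5 : (4 : ℝ) ^ (1 / 2 : ℝ) = 2 := by
        rw [← Real.sqrt_eq_rpow, show (4 : ℝ) = 2 ^ 2 by norm_num]
        exact Real.sqrt_sq (by norm_num)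
      rw [h5] at h4
      linarith
    have h6 : ‖B w - B α‖ ≤ 8 * C * (1 + ‖w.im‖) ^ (1 / 2 : ℝ) := by
      refine (norm_sub_le _ _).trans ?_
      have h7 := (hC w h0).trans (mul_le_mul_of_nonneg_left (hlog ‖w‖ (norm_nonneg _) hw) hC0.le)
      have h8 := (hC α (by rw [ofReal_re]; linarith)).trans (mul_le_mul_of_nonneg_left
        (hlog ‖(α : ℂ)‖ (norm_nonneg _) (by
          rw [Complex.norm_real, Real.norm_of_nonneg (by linarith)]
          linarith)) hC0.le)
      linarith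
    have h9 : (1 + ‖w.im‖) ^ 2 / 4 ≤ ‖w - α‖ * ‖w + α‖ := by
      have := mul_le_mul g1 g2 ht0 (norm_nonneg _)
      have h10 : 1 ≤ ‖w.im‖ := by linarith
      nlinarith
    have hpos : (0 : ℝ) < 1 + ‖w.im‖ := by linarith
    have h11 : ‖B w - B α‖ / ‖w - α‖ / ‖w + α‖ ≤ 32 * C * (1 + ‖w.im‖) ^ (-(3 / 2) : ℝ) := by
      calc ‖B w - B α‖ / ‖w - α‖ / ‖w + α‖ = ‖B w - B α‖ / (‖w - α‖ * ‖w + α‖) := by
            rw [div_div]
        _ ≤ (8 * C * (1 + ‖w.im‖) ^ (1 / 2 : ℝ)) / ((1 + ‖w.im‖) ^ 2 / 4) := by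
            gcongr
        _ = 32 * C * ((1 + ‖w.im‖) ^ (1 / 2 : ℝ) / (1 + ‖w.im‖) ^ (2 : ℝ)) := by
            rw [Real.rpow_two]
            field_simp
            ring
        _ = 32 * C * (1 + ‖w.im‖) ^ (-(3 / 2) : ℝ) := by
            rw [← Real.rpow_sub hpos]
            norm_num
    have h12 : 0 ≤ A * M * (1 + ‖w.im‖) ^ (-(3 / 2) : ℝ) := by positivity
    have h13 := mul_le_mul_of_nonneg_left h11 (show 0 ≤ 2 * α by linarith)
    linarith

/-- **The explicit formula.** -/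
theorem exg (H : EDat α Y B a) : Tendsto (QG α Y B a) atTop (𝓝 0) := by
  have hα := H.hα
  obtain ⟨K, hK0, hK⟩ := RG_bd H
  have hdec : Integrable fun t : ℝ => K * (1 + ‖t‖) ^ (-(3 / 2) : ℝ) :=
    (integrable_one_add_norm (by simp; norm_num)).const_mul K
  have hline : ∀ x : ℝ, 0 ≤ x → x ≤ α + 1 / 2 → Continuous fun t : ℝ => RG α B ⟨x, t⟩ := by
    intro x h0 h1
    rw [continuous_iff_continuousAt]
    intro t
    have h2 : ContinuousAt (RG α B) (⟨x, t⟩ : ℂ) :=
      (RG_diff H (w := ⟨x, t⟩) (by show -(1 / 2 : ℝ) < x; linarith)).continuousAt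
    exact h2.comp (f := fun t : ℝ => (⟨x, t⟩ : ℂ)) (Pool.Agent.H862.VK.mk_cont x).continuousAt
  have hint : ∀ x : ℝ, 0 ≤ x → x ≤ α + 1 / 2 → Integrable fun t : ℝ => RG α B ⟨x, t⟩ := fun x h0 h1 =>
    hdec.mono' (hline x h0 h1).aestronglyMeasurable (Eventually.of_forall fun t => hK ⟨x, t⟩ h0 h1)
  obtain ⟨β, hβ⟩ : ∃ β : ℝ, β = α + 1 / 2 := ⟨_, rfl⟩
  have hβ0 : 0 ≤ β := by rw [hβ]; linarith
  rw [← hβ] at hline hint hK
  -- the inversion on the line `Re = β`
  have hone : ∀ t y : ℝ, cexp (-((⟨β, t⟩ : ℂ) * y)) = cexp (-(β * y : ℂ)) * cexp (-(t * y * I)) := by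
    intro t y
    rw [← Complex.exp_add]
    congr 1
    have : (⟨β, t⟩ : ℂ) = β + t * I := by apply Complex.ext <;> simp
    rw [this]
    ring
  have h1 : ∀ y : ℝ, QG α Y B a y * cexp (-(β * y : ℂ)) =
      (1 / (2 * Real.pi)) * ∫ t : ℝ, RG α B ⟨β, t⟩ * cexp (t * y * I) := by
    intro y
    refine inversion (q := fun y : ℝ => QG α Y B a y * cexp (-(β * y : ℂ))) ((QG_cont H).mul (by fun_prop)) ?_
      (hint β hβ0 le_rfl) (fun t => ?_) y
    · have := (QG_lap H (w := ⟨β, 0⟩) (by show β = α + 1 / 2; exact hβ)).1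
      refine this.congr (Eventually.of_forall fun y => ?_)
      simp only
      rw [hone]
      simp
    · rw [← (QG_lap H (w := ⟨β, t⟩) (by show β = α + 1 / 2; exact hβ)).2]
      refine integral_congr_ae (Eventually.of_forall fun y => ?_)
      simp only
      rw [hone, mul_assoc]
  -- the shift to `Re = 0`
  have h2 : ∀ y : ℝ, QG α Y B a y = (1 / (2 * Real.pi)) * ∫ t : ℝ, RG α B ⟨0, t⟩ * cexp (t * y * I) := by
    intro y
    have e1 : QG α Y B a y = (1 / (2 * Real.pi)) * ∫ t : ℝ, RG α B ⟨β, t⟩ * cexp ((⟨β, t⟩ : ℂ) * y) := by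
      have h3 := congrArg (fun x => x * cexp (β * y : ℂ)) (h1 y)
      rw [mul_assoc, ← Complex.exp_add, neg_add_cancel, Complex.exp_zero, mul_one] at h3
      rw [h3, mul_assoc, ← integral_mul_const]
      congr 1
      refine integral_congr_ae (Eventually.of_forall fun t => ?_)
      simp only
      rw [mul_assoc, ← Complex.exp_add]
      congr 2
      have : (⟨β, t⟩ : ℂ) = β + t * I := by apply Complex.ext <;> simp
      rw [this]
      ring
    rw [e1]
    congr 1
    have hn : ∀ x : ℝ, 0 ≤ x → x ≤ β → ∀ t : ℝ, ‖cexp ((⟨x, t⟩ : ℂ) * y)‖ ≤ Real.exp (β * |y|) := by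
      intro x h0 h1 t
      rw [Complex.norm_exp]
      refine Real.exp_le_exp.2 ?_
      rw [Complex.re_mul_ofReal]
      show x * y ≤ β * |y|
      have h5 := le_abs_self y
      have h6 := abs_nonneg y
      calc x * y ≤ x * |y| := mul_le_mul_of_nonneg_left h5 h0
        _ ≤ _ := mul_le_mul_of_nonneg_right h1 h6
    have hint2 : ∀ x : ℝ, 0 ≤ x → x ≤ β → Integrable fun t : ℝ => RG α B ⟨x, t⟩ * cexp ((⟨x, t⟩ : ℂ) * y) := by
      intro x h0 h1
      refine (hdec.mul_const (Real.exp (β * |y|))).mono' ((hline x h0 h1).mul (Complex.continuous_exp.comp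
        ((Pool.Agent.H862.VK.mk_cont x).mul continuous_const))).aestronglyMeasurable
        (Eventually.of_forall fun t => ?_)
      rw [norm_mul]
      exact mul_le_mul (hK ⟨x, t⟩ h0 h1) (hn x h0 h1 t) (norm_nonneg _) (by positivity)
    have hD : Tendsto (fun T : ℝ => K * (1 + T) ^ (-(3 / 2) : ℝ) * Real.exp (β * |y|)) atTop (𝓝 0) := by
      have k1 : Tendsto (fun T : ℝ => (1 + T) ^ (-(3 / 2) : ℝ)) atTop (𝓝 0) :=
        (tendsto_rpow_neg_atTop (by norm_num)).comp (tendsto_atTop_add_const_left _ 1 tendsto_id)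
      have := (k1.const_mul K).mul_const (Real.exp (β * |y|))
      rw [mul_zero, zero_mul] at this
      exact this
    have h3 := Pool.Agent.H862.VK.shift0 (G := fun w => RG α B w * cexp (w * y)) (a := 0) (b := β)
      (D := fun T => K * (1 + T) ^ (-(3 / 2) : ℝ) * Real.exp (β * |y|)) hβ0
      (fun z h0 _ => (RG_diff H (by linarith)).mul (by fun_prop)) (hint2 0 le_rfl hβ0)
      (hint2 β hβ0 le_rfl) hD (fun x hx t T hT ht => by
        rw [norm_mul]
        refine mul_le_mul ?_ (hn x hx.1 hx.2 t) (norm_nonneg _) (by positivity)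
        have := hK ⟨x, t⟩ hx.1 hx.2
        rw [Real.norm_eq_abs] at this
        rwa [ht] at this)
    rw [h3]
    refine integral_congr_ae (Eventually.of_forall fun t => ?_)
    simp only
    congr 2
    have : (⟨0, t⟩ : ℂ) = t * I := by apply Complex.ext <;> simp
    rw [this]
    ring
  have h3 := (rlem fun t => RG α B ⟨0, t⟩).const_mul ((1 / (2 * Real.pi) : ℂ))
  rw [mul_zero] at h3
  exact h3.congr fun y => (h2 y).symm

end

end Pool.Agent.H862.EC
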