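import Pool.Agent.H862.EL.Mult
import Pool.Agent.H862.EC.Exg

/-!
# The zeros of one self-dual entire completed `L`-function
-/

set_option autoImplicit false

open Complex MeasureTheory Filter Topology Set
open scoped ComplexConjugate

namespace Pool.Agent.H862.EC

open Pool.Agent.H862.EL (od SysL Sys)
open Pool.Agent.N804.LI (EM I0)

/-- the kernel -/
noncomputable def AG (α : ℝ) (w : ℂ) : ℂ := 2 * α / (α ^ 2 - w ^ 2)

lemma AG_conj (α : ℝ) (w : ℂ) : AG α (conj w) = conj (AG α w) := by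
  unfold AG
  rw [map_div₀, map_sub, map_pow, map_pow, map_mul, map_ofNat, Complex.conj_ofReal]

/-- the data -/
structure SDat (α : ℝ) (Y B : ℂ → ℂ) (a : ℕ → ℂ) (P : ℝ → ℝ) : Prop where
  dat : EDat α Y B a
  cz : ∀ b, Y b = 0 → Y (conj b) = 0
  co : ∀ b, analyticOrderNatAt Y (conj b) = analyticOrderNatAt Y b
  rz : ∀ b, Y b = 0 → Y (-(conj b)) = 0
  cont : Continuous P
  eq : ∀ y : ℝ, 0 ≤ y → (P y : ℂ) = DG α a y + (logDeriv Y α - B α) * cexp (α * y)

section
variable {α : ℝ} {Y B : ℂ → ℂ} {a : ℕ → ℂ} {P : ℝ → ℝ}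

/-- the conjugate zero -/
def sbar (F : SDat α Y B a P) (k : {b : ℂ // Y b = 0}) : {b : ℂ // Y b = 0} := ⟨conj (k : ℂ), F.cz k k.2⟩

lemma AG_pos (hα : 1 / 2 ≤ α) {b : ℂ} (hb : |b.re| ≤ 1 / 2) (h1 : ((α : ℂ) - b) ≠ 0) (h2 : ((α : ℂ) + b) ≠ 0)
    (h : b.im = 0 ∨ b.re = 0) : 0 < (AG α b).re ∧ (AG α b).im = 0 := by
  have key : ∃ x : ℝ, 0 < x ∧ (α : ℂ) ^ 2 - b ^ 2 = (x : ℂ) := by
    rcases h with h | h
    · refine ⟨α ^ 2 - b.re ^ 2, ?_, ?_⟩
      · have e : b = (b.re : ℂ) := Complex.ext rfl (by simpa using h)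
        have n1 : b.re ≠ α := by
          intro hb1
          apply h1
          rw [e, hb1]
          ring
        have n2 : b.re ≠ -α := by
          intro hb1
          apply h2
          rw [e, hb1]
          push_cast
          ring
        have h3 := abs_le.1 hb
        have h4 : b.re < α := lt_of_le_of_ne (h3.2.trans hα) n1
        have h5 : -α < b.re := lt_of_le_of_ne ((neg_le_neg hα).trans h3.1) (Ne.symm n2)
        nlinarith
      · have e : b = (b.re : ℂ) := Complex.ext rfl (by simpa using h)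
        conv_lhs => rw [e]
        push_cast
        ring
    · refine ⟨α ^ 2 + b.im ^ 2, by positivity, ?_⟩
      have e : b = (b.im : ℂ) * I := by
        apply Complex.ext
        · simp [h]
        · simp
      conv_lhs => rw [e]
      rw [mul_pow, I_sq]
      push_cast
      ring
  obtain ⟨x, hx, e⟩ := key
  unfold AG
  rw [e]
  have e2 : (2 * (α : ℂ) / (x : ℂ)) = ((2 * α / x : ℝ) : ℂ) := by push_cast; rfl
  rw [e2, Complex.ofReal_re, Complex.ofReal_im]
  exact ⟨div_pos (by linarith) hx, rfl⟩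

lemma ag_eq (α : ℝ) (Y : ℂ → ℂ) (b : ℂ) : ag α Y b = (od Y b : ℂ) * AG α b := rfl

/-- **The system of the zeros.** -/
theorem s_sys (F : SDat α Y B a P) :
    SysL (fun k : {b : ℂ // Y b = 0} => (k : ℂ)) (fun k => od Y k) (AG α) P (sbar F) where
  pos k := lt_of_lt_of_le one_pos (od_pos F.dat k)
  str k := F.dat.strip k k.2
  fin R := zfin F.dat R
  sum := by
    refine (ag_sum F.dat).congr fun b => ?_
    rw [ag_eq, norm_mul, Complex.norm_real, Real.norm_of_nonneg (by unfold od; positivity)]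
  ne k := by
    obtain ⟨h1, -, -⟩ := ne_sq F.dat k
    have := F.dat.hα
    refine div_ne_zero (mul_ne_zero two_ne_zero ?_) h1
    exact_mod_cast (show α ≠ 0 by linarith)
  real k h := by
    obtain ⟨-, h1, h2⟩ := ne_sq F.dat k
    exact AG_pos F.dat.hα (F.dat.strip k k.2) h1 h2 (Or.inl h)
  line k h := by
    obtain ⟨-, h1, h2⟩ := ne_sq F.dat k
    exact AG_pos F.dat.hα (F.dat.strip k k.2) h1 h2 (Or.inr h)
  cont := F.cont
  inv k := Subtype.ext (Complex.conj_conj _)
  mub k := by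
    unfold sbar od
    simp only
    rw [F.co]
  zb k := rfl
  Ab k := AG_conj _ _
  refl k := ⟨⟨-(conj (k : ℂ)), F.rz k k.2⟩, rfl⟩
  lim := by
    have hα := F.dat.hα
    have h1 : Tendsto (QG α Y B a) atTop (𝓝 0) := exg F.dat
    obtain ⟨c, hc⟩ : ∃ c : ℂ, c = (logDeriv Y α - B α) - ∑' b : {b : ℂ // Y b = 0}, ag α Y b := ⟨_, rfl⟩
    have h2 : Tendsto (fun y : ℝ => c * cexp (-(α : ℂ) * y)) atTop (𝓝 0) := by
      have h3 : Tendsto (fun y : ℝ => cexp (-(α : ℂ) * y)) atTop (𝓝 0) := by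
        rw [tendsto_zero_iff_norm_tendsto_zero]
        have h4 : ∀ y : ℝ, ‖cexp (-(α : ℂ) * y)‖ = Real.exp (-(α * y)) := by
          intro y
          rw [Complex.norm_exp]
          congr 1
          rw [Complex.re_mul_ofReal, neg_re, ofReal_re]
          ring
        simp_rw [h4]
        exact Real.tendsto_exp_neg_atTop_nhds_zero.comp (tendsto_id.const_mul_atTop (by linarith))
      have := h3.const_mul c
      rwa [mul_zero] at this
    have h3 := h1.add h2
    rw [add_zero] at h3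
    refine h3.congr' ?_
    filter_upwards [eventually_ge_atTop (0 : ℝ)] with y hy
    have hsum : Summable fun b : {b : ℂ // Y b = 0} => ag α Y b * cexp ((b : ℂ) * y) := by
      refine Summable.of_norm_bounded ((ag_sum F.dat).mul_right (Real.exp |y|)) fun b => ?_
      rw [norm_mul]
      refine mul_le_mul_of_nonneg_left ?_ (norm_nonneg _)
      rw [Complex.norm_exp]
      refine Real.exp_le_exp.2 ?_
      rw [Complex.re_mul_ofReal]
      have h5 := abs_le.1 (F.dat.strip b b.2)
      rw [abs_of_nonneg hy]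
      nlinarith
    have hZ : ZG α Y y = (∑' b : {b : ℂ // Y b = 0}, ag α Y b * cexp ((b : ℂ) * y)) -
        (∑' b : {b : ℂ // Y b = 0}, ag α Y b) * cexp (-(α : ℂ) * y) := by
      unfold ZG
      rw [← tsum_mul_right, ← hsum.tsum_sub (((ag_sum F.dat).of_norm).mul_right _)]
      refine tsum_congr fun b => ?_
      rw [bg_pos _ hy, mul_sub]
    have hall : ∑' k : {b : ℂ // Y b = 0}, (od Y k : ℂ) * AG α k * cexp ((k : ℂ) * y) =
        ∑' b : {b : ℂ // Y b = 0}, ag α Y b * cexp ((b : ℂ) * y) := rfl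
    rw [hall, F.eq y hy, hc]
    unfold QG
    rw [hZ, bg_pos _ hy]
    ring

end

end Pool.Agent.H862.EC
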