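import Pool.Agent.H862.EL.Zeta
import Pool.Agent.H862.EC.PFG
import Pool.Agent.H862.EC.Sysg
import Pool.Agent.H862.EC.Newf
import Pool.Agent.H862.EC.ExtL

/-!
# The weighted sums of the coefficients of a newform of weight two and its zeros
-/

set_option autoImplicit false
set_option linter.unusedSectionVars false

open Complex Filter Topology Set CongruenceSubgroup MeasureTheory
open scoped MatrixGroups ComplexConjugate
open Pool.Agent.TH941 (Hecke)
open Pool.Agent.W165.RS (ac ac_zero)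
open Pool.Agent.NH98.RT (Fricke)
open Pool.Agent.NH98.RT.Xi
open Pool.Agent.H862.EL (SysL Sys m0 PR PM cf od em_dich em_both)
open Pool.Agent.N804.LI (EM I0)

namespace Pool.Agent.H862.EC

/-- multiplying the system by a positive constant -/
lemma scale {K : Type} {z : K → ℂ} {μ : K → ℝ} {A : ℂ → ℂ} {P : ℝ → ℝ} {bar : K → K} (H : SysL z μ A P bar)
    {t : ℝ} (ht : 0 < t) : SysL z μ (fun w => t * A w) (fun y => t * P y) bar where
  pos := H.pos
  str := H.str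
  fin := H.fin
  sum := by
    refine (H.sum.mul_left t).congr fun k => ?_
    rw [norm_mul, Complex.norm_real, Real.norm_of_nonneg ht.le]
    ring
  ne k := mul_ne_zero (by exact_mod_cast ht.ne') (H.ne k)
  real k h := by
    obtain ⟨h1, h2⟩ := H.real k h
    rw [Complex.re_ofReal_mul, Complex.im_ofReal_mul, h2, mul_zero]
    exact ⟨mul_pos ht h1, rfl⟩
  line k h := by
    obtain ⟨h1, h2⟩ := H.line k h
    rw [Complex.re_ofReal_mul, Complex.im_ofReal_mul, h2, mul_zero]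
    exact ⟨mul_pos ht h1, rfl⟩
  cont := continuous_const.mul H.cont
  lim := by
    have h1 := H.lim.const_mul (t : ℂ)
    rw [mul_zero] at h1
    refine h1.congr fun y => ?_
    rw [mul_sub, ← tsum_mul_left]
    push_cast
    congr 1
    refine tsum_congr fun k => ?_
    ring
  inv := H.inv
  mub := H.mub
  zb := H.zb
  Ab k := by
    rw [map_mul, Complex.conj_ofReal, H.Ab]
  refl := H.refl

section

variable {N : ℕ} [NeZero N] {f : CuspForm (Gamma0 N : Subgroup (GL (Fin 2) ℝ)) 2}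

/-- the coefficients in the normalisation of `EDat` -/
noncomputable def af (f : CuspForm (Gamma0 N : Subgroup (GL (Fin 2) ℝ)) 2) (n : ℕ) : ℂ :=
  bf f n * (n : ℂ) ^ (-(1 / 2) : ℂ)

lemma xi_gr {ε : ℂ} (hε : ‖ε‖ = 1) (hfe : ∀ s : ℂ, xi f (-s) = ε * xi f s) : Pool.Agent.NH13.UV.Gr (xi f) := by
  obtain ⟨C, hC⟩ := xi_growth f hε hfe
  refine ⟨4 * |C| + 1, by positivity, fun z => (hC z).trans (Real.exp_le_exp.2 ?_)⟩
  have hz := norm_nonneg z
  have h1 : Real.log (2 + ‖z‖) ≤ 4 * (1 + ‖z‖) ^ (1 / 2 : ℝ) := by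
    have h3 : Real.log (2 + ‖z‖) ≤ (2 + ‖z‖) ^ (1 / 2 : ℝ) / (1 / 2) :=
      Real.log_le_rpow_div (by positivity) (by norm_num)
    have h4 : (2 + ‖z‖) ^ (1 / 2 : ℝ) ≤ (4 * (1 + ‖z‖)) ^ (1 / 2 : ℝ) :=
      Real.rpow_le_rpow (by positivity) (by linarith) (by norm_num)
    rw [Real.mul_rpow (by norm_num) (by positivity)] at h4
    have h5 : (4 : ℝ) ^ (1 / 2 : ℝ) = 2 := by
      rw [← Real.sqrt_eq_rpow, show (4 : ℝ) = 2 ^ 2 by norm_num]
      exact Real.sqrt_sq (by norm_num)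
    rw [h5] at h4
    linarith
  have h0 : 0 ≤ Real.log (2 + ‖z‖) := Real.log_nonneg (by linarith)
  calc C * (1 + ‖z‖) * Real.log (2 + ‖z‖) ≤ |C| * (1 + ‖z‖) * (4 * (1 + ‖z‖) ^ (1 / 2 : ℝ)) := by
        gcongr
        exact le_abs_self C
    _ = 4 * |C| * (1 + ‖z‖) ^ (3 / 2 : ℝ) := by
        have : (1 + ‖z‖) ^ (3 / 2 : ℝ) = (1 + ‖z‖) * (1 + ‖z‖) ^ (1 / 2 : ℝ) := by
          rw [show (3 / 2 : ℝ) = 1 + 1 / 2 by norm_num, Real.rpow_add (by linarith), Real.rpow_one]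
        rw [this]
        ring
    _ ≤ _ := by
        have : 0 ≤ (1 + ‖z‖) ^ (3 / 2 : ℝ) := by positivity
        nlinarith

lemma xi_ne_one (hf : Hecke f) : xi f ((1 : ℝ) : ℂ) ≠ 0 := by
  intro h
  rw [xi_zero_iff (by rw [ofReal_re]; norm_num)] at h
  exact Lf_ne hf (by rw [add_re, one_re, ofReal_re]; norm_num) h

lemma xi_ne_neg (hf : Hecke f) {ε : ℂ} (hε : ‖ε‖ = 1) (hfe : ∀ s : ℂ, xi f (-s) = ε * xi f s) :
    xi f (-((1 : ℝ) : ℂ)) ≠ 0 := by
  rw [hfe]
  have : ε ≠ 0 := by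
    intro h
    rw [h, norm_zero] at hε
    exact zero_ne_one hε
  exact mul_ne_zero this (xi_ne_one hf)

/-- the data -/
theorem dat (hf : Hecke f) {ε : ℂ} (hε : ‖ε‖ = 1) (hfe : ∀ s : ℂ, xi f (-s) = ε * xi f s) :
    EDat 1 (xi f) (Bf N) (af f) where
  hα := by norm_num
  diff := xi_diff f
  pf z w hz hw := pfg (xi_diff f) (xi_gr hε hfe) z w hz hw
  sm := Pool.Agent.H862.EL.sm_of_growth (xi_diff f) (xi_gr hε hfe) (xi_ne_one hf)
  strip z h := xi_strip hf hfe h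
  nr := xi_ne_one hf
  nl := xi_ne_neg hf hε hfe
  Ban := Bf_diff
  Bbd := Bf_le
  a0 := by unfold af; rw [bf_zero, zero_mul]
  as := by
    have h := (bf_summable hf (s := ((5 / 2 : ℝ) : ℂ)) (by rw [ofReal_re]; norm_num)).norm
    refine h.congr fun n => ?_
    rw [LSeries.norm_term_eq, ofReal_re]
    unfold af
    split_ifs with hn
    · rw [hn, bf_zero]; simp
    · have hn0 : 0 < n := Nat.pos_of_ne_zero hn
      have hn1 : (0 : ℝ) < n := by exact_mod_cast hn0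
      rw [norm_mul, Complex.norm_natCast_cpow_of_pos hn0, mul_assoc, ← Real.rpow_add hn1, div_eq_mul_inv,
        ← Real.rpow_neg hn1.le]
      congr 2
      have : (-(1 / 2) : ℂ).re = -(1 / 2) := by norm_num
      rw [this]
      norm_num
  eq w hw := by
    rw [logDeriv_xi hf (by rw [hw]; norm_num)]
    congr 1
    unfold LSeries
    refine tsum_congr fun n => ?_
    rcases eq_or_ne n 0 with hn | hn
    · rw [hn]
      unfold af
      rw [bf_zero]
      simp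
    · rw [LSeries.term_of_ne_zero hn, div_eq_mul_inv, ← Complex.cpow_neg]
      unfold af
      rw [mul_assoc, ← Complex.cpow_add _ _ (by exact_mod_cast hn)]
      congr 2
      ring

/-- the excess of points, `-b(n)` -/
noncomputable def dl (f : CuspForm (Gamma0 N : Subgroup (GL (Fin 2) ℝ)) 2) (n : ℕ) : ℝ := -(bf f n).re

/-- the power sums are real -/
lemma ps_real {A q : ℂ} (hA : A.im = 0) (hq : q.im = 0) (k : ℕ) : (ps A q k).im = 0 := by
  have h : (ps A q k).im = 0 ∧ (ps A q (k + 1)).im = 0 := by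
    induction k with
    | zero =>
      refine ⟨?_, ?_⟩
      · rw [ps]; simp
      · rw [ps]; exact hA
    | succ k ih =>
      refine ⟨ih.2, ?_⟩
      rw [ps_two, sub_im, mul_im, mul_im, hA, hq, ih.1, ih.2]
      ring
  exact h.1

lemma bf_real (hf : Hecke f) (n : ℕ) : bf f n = ((-dl f n : ℝ) : ℂ) := by
  classical
  unfold dl
  rw [neg_neg]
  apply Complex.ext
  · simp
  · rw [ofReal_im]
    unfold bf bb
    split_ifs with h
    · rw [mul_im, ofReal_im, ofReal_re, ps_real (hf.real _) (by unfold qN; split_ifs <;> simp)]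
      ring
    · simp

/-- the total of the series -/
noncomputable def S2 (f : CuspForm (Gamma0 N : Subgroup (GL (Fin 2) ℝ)) 2) : ℝ := ∑' n : ℕ, dl f n / (n : ℝ) ^ 2

lemma bf_div_summable (hf : Hecke f) : Summable fun n : ℕ => dl f n / (n : ℝ) ^ 2 := by
  have h := (bf_summable hf (s := ((2 : ℝ) : ℂ)) (by rw [ofReal_re]; norm_num)).norm
  refine Summable.of_norm (h.congr fun n => ?_)
  rw [LSeries.norm_term_eq, ofReal_re]
  split_ifs with hn
  · rw [hn]; simp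
  · rw [norm_div, norm_pow, Real.norm_of_nonneg (Nat.cast_nonneg n), ← Real.rpow_natCast (n : ℝ) 2, bf_real hf,
      Complex.norm_real, norm_neg]
    norm_num

lemma LS2 (hf : Hecke f) : LSeries (bf f) 2 = ((-(S2 f) : ℝ) : ℂ) := by
  unfold LSeries S2
  rw [← tsum_neg, Complex.ofReal_tsum]
  refine tsum_congr fun n => ?_
  rcases eq_or_ne n 0 with hn | hn
  · rw [hn]; simp
  · rw [LSeries.term_of_ne_zero hn, bf_real hf]
    have : (n : ℂ) ^ (2 : ℂ) = (n : ℂ) ^ 2 := by norm_num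
    rw [this]
    push_cast
    ring

/-- the function `2 A(e^y)` -/
noncomputable def P2 (f : CuspForm (Gamma0 N : Subgroup (GL (Fin 2) ℝ)) 2) (y : ℝ) : ℝ :=
  Real.exp (-y) * (∑ n ∈ Finset.Icc 1 ⌊Real.exp y⌋₊, dl f n) +
    Real.exp y * (S2 f - ∑ n ∈ Finset.Icc 1 ⌊Real.exp y⌋₊, dl f n / (n : ℝ) ^ 2)

lemma term_eq (hf : Hecke f) (y : ℝ) {n : ℕ} (hn : 0 < n) : af f n * (n : ℂ) ^ (-(1 / 2) : ℂ) *
    (cexp ((1 : ℝ) * (y - Real.log n)) - cexp (-((1 : ℝ) * (y - Real.log n)))) =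
      ((Real.exp (-y) * dl f n - Real.exp y * (dl f n / (n : ℝ) ^ 2) : ℝ) : ℂ) := by
  have hn0 : (0 : ℝ) < n := by exact_mod_cast hn
  have hnc : (n : ℂ) ≠ 0 := by exact_mod_cast hn.ne'
  have e1 : af f n * (n : ℂ) ^ (-(1 / 2) : ℂ) = bf f n / n := by
    unfold af
    rw [mul_assoc, ← Complex.cpow_add _ _ hnc, show (-(1 / 2) : ℂ) + -(1 / 2) = -1 by norm_num,
      Complex.cpow_neg_one, div_eq_mul_inv]
  have e2 : cexp ((1 : ℝ) * (y - Real.log n)) = ((Real.exp y / n : ℝ) : ℂ) := by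
    rw [show ((1 : ℝ) : ℂ) * (y - Real.log n) = ((y - Real.log n : ℝ) : ℂ) by push_cast; ring, ← Complex.ofReal_exp,
      Real.exp_sub, Real.exp_log hn0]
  have e3 : cexp (-((1 : ℝ) * (y - Real.log n))) = ((n * Real.exp (-y) : ℝ) : ℂ) := by
    rw [show -(((1 : ℝ) : ℂ) * (y - Real.log n)) = ((Real.log n + -y : ℝ) : ℂ) by push_cast; ring,
      ← Complex.ofReal_exp, Real.exp_add, Real.exp_log hn0]
  rw [e1, e2, e3, bf_real hf]
  push_cast
  field_simp
  ring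

lemma P2_eq (hf : Hecke f) (y : ℝ) : (P2 f y : ℂ) = DG 1 (af f) y +
    (logDeriv (xi f) ((1 : ℝ) : ℂ) - Bf N ((1 : ℝ) : ℂ)) * cexp (((1 : ℝ) : ℂ) * y) := by
  have h1 := logDeriv_xi hf (w := ((1 : ℝ) : ℂ)) (by rw [ofReal_re]; norm_num)
  have e0 : (1 : ℂ) + ((1 : ℝ) : ℂ) = 2 := by push_cast; norm_num
  rw [e0, LS2 hf] at h1
  rw [h1, DG_eq (by unfold af; rw [bf_zero, zero_mul]) y]
  have e1 : ∑ n ∈ Finset.Icc 1 ⌊Real.exp y⌋₊, af f n * (n : ℂ) ^ (-(1 / 2) : ℂ) *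
      (cexp ((1 : ℝ) * (y - Real.log n)) - cexp (-((1 : ℝ) * (y - Real.log n)))) =
      ∑ n ∈ Finset.Icc 1 ⌊Real.exp y⌋₊, ((Real.exp (-y) * dl f n - Real.exp y * (dl f n / (n : ℝ) ^ 2) : ℝ) : ℂ) :=
    Finset.sum_congr rfl fun n hn => term_eq hf y (Finset.mem_Icc.1 hn).1
  rw [e1]
  unfold P2
  push_cast
  rw [Finset.sum_sub_distrib, ← Finset.mul_sum, ← Finset.mul_sum]
  rw [show (1 : ℂ) * (y : ℂ) = y by ring]
  ring

lemma P2_cont (hf : Hecke f) : Continuous (P2 f) := by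
  have h1 : (fun y => P2 f y) = fun y => (DG 1 (af f) y +
    (logDeriv (xi f) ((1 : ℝ) : ℂ) - Bf N ((1 : ℝ) : ℂ)) * cexp (((1 : ℝ) : ℂ) * y)).re := by
    funext y
    rw [← P2_eq hf, ofReal_re]
  show Continuous (fun y => P2 f y)
  rw [h1]
  exact Complex.continuous_re.comp (DG_cont.add (by fun_prop))

lemma conj_order (hf : Hecke f) (b : ℂ) : analyticOrderAt (xi f) (conj b) = analyticOrderAt (xi f) b :=
  Pool.Agent.H862.EL.order_cc (xi_diff f) (xi_diff f) one_ne_zero (fun z => by rw [one_mul]; exact xi_conj hf z) b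

theorem sdat (hf : Hecke f) {ε : ℂ} (hε : ‖ε‖ = 1) (hfe : ∀ s : ℂ, xi f (-s) = ε * xi f s) :
    SDat 1 (xi f) (Bf N) (af f) (P2 f) where
  dat := dat hf hε hfe
  cz b h := by rw [xi_conj hf, h, map_zero]
  co b := by
    unfold analyticOrderNatAt
    rw [conj_order hf]
  rz b h := by rw [hfe, xi_conj hf, h, map_zero, mul_zero]
  cont := P2_cont hf
  eq y _ := P2_eq hf y

/-- the kernel -/
noncomputable def A1 (w : ℂ) : ℂ := 1 / (1 - w ^ 2)

lemma A1_eq : (fun w => ((1 / 2 : ℝ) : ℂ) * AG 1 w) = A1 := by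
  funext w
  unfold AG A1
  push_cast
  ring

/-- the function `A(e^y)` -/
noncomputable def PA (f : CuspForm (Gamma0 N : Subgroup (GL (Fin 2) ℝ)) 2) (y : ℝ) : ℝ := 1 / 2 * P2 f y

/-- the zeros -/
abbrev ZX (f : CuspForm (Gamma0 N : Subgroup (GL (Fin 2) ℝ)) 2) : Type := {b : ℂ // xi f b = 0}

/-- **The system of the zeros of `L(f, s)`.** -/
theorem fsys (hf : Hecke f) {ε : ℂ} (hε : ‖ε‖ = 1) (hfe : ∀ s : ℂ, xi f (-s) = ε * xi f s) :
    SysL (fun k : ZX f => (k : ℂ)) (fun k => od (xi f) k) A1 (PA f) (sbar (sdat hf hε hfe)) := by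
  have h := scale (s_sys (sdat hf hε hfe)) (show (0 : ℝ) < 1 / 2 by norm_num)
  rw [A1_eq] at h
  exact h

end

end Pool.Agent.H862.EC
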