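import Mathlib

/-!
# Steep slopes of trigonometric series whose frequencies have logarithmic density
-/

set_option autoImplicit false

namespace Pool.Agent.H862.EC

open Filter Topology Set

/-! ### simultaneous approximation -/

/-- Dirichlet's theorem on simultaneous approximation, for the multiples of a step -/
theorem simult {K : Type} (b : K → ℝ) (F : Finset K) (Y0 : ℝ) {Q : ℕ} (hQ : 1 ≤ Q) :
    ∃ j : ℕ, 1 ≤ j ∧ j ≤ Q ^ F.card ∧ ∀ k ∈ F,
      ‖Complex.exp (((b k * (j * Y0) : ℝ) : ℂ) * Complex.I) - 1‖ ≤ 2 * Real.pi / Q := by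
  classical
  have hQ0 : (0 : ℝ) < Q := by exact_mod_cast hQ
  obtain ⟨u, hu⟩ : ∃ u : K → ℕ → ℝ, u = fun (k : K) (j : ℕ) => b k * ((j : ℝ) * Y0) / (2 * Real.pi) := ⟨_, rfl⟩
  have hfl : ∀ x : ℝ, ⌊(Q : ℝ) * Int.fract x⌋₊ < Q := by
    intro x
    rw [Nat.floor_lt (mul_nonneg hQ0.le (Int.fract_nonneg x))]
    have := Int.fract_lt_one x
    nlinarith
  obtain ⟨g, hg⟩ : ∃ g : ℕ → (F → Fin Q), g = fun j k => ⟨⌊(Q : ℝ) * Int.fract (u k j)⌋₊, hfl _⟩ := ⟨_, rfl⟩
  have hcard : (Finset.univ : Finset (F → Fin Q)).card < (Finset.range (Q ^ F.card + 1)).card := by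
    rw [Finset.card_univ, Fintype.card_fun, Fintype.card_fin, Fintype.card_coe, Finset.card_range]
    exact Nat.lt_succ_self _
  obtain ⟨i, hi, j, hj, hij, he⟩ := Finset.exists_ne_map_eq_of_card_lt_of_maps_to hcard
    (f := g) (fun a _ => Finset.mem_univ _)
  -- the ordered case
  have key : ∀ i j : ℕ, i < j → j < Q ^ F.card + 1 → g i = g j → ∃ j : ℕ, 1 ≤ j ∧ j ≤ Q ^ F.card ∧ ∀ k ∈ F,
      ‖Complex.exp (((b k * (j * Y0) : ℝ) : ℂ) * Complex.I) - 1‖ ≤ 2 * Real.pi / Q := by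
    intro i j hlt hj he
    refine ⟨j - i, by omega, by omega, fun k hk => ?_⟩
    have h1 := congrFun he ⟨k, hk⟩
    rw [hg] at h1
    simp only [Fin.mk.injEq] at h1
    obtain ⟨δ, hδ⟩ : ∃ δ : ℝ, δ = Int.fract (u k j) - Int.fract (u k i) := ⟨_, rfl⟩
    have h2 : |δ| ≤ 1 / Q := by
      have a1 := Nat.floor_le (mul_nonneg hQ0.le (Int.fract_nonneg (u k i)))
      have a2 := Nat.lt_floor_add_one ((Q : ℝ) * Int.fract (u k i))
      have a3 := Nat.floor_le (mul_nonneg hQ0.le (Int.fract_nonneg (u k j)))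
      have a4 := Nat.lt_floor_add_one ((Q : ℝ) * Int.fract (u k j))
      rw [h1] at a1 a2
      rw [abs_le]
      constructor
      · have : -(1 : ℝ) ≤ Q * δ := by rw [hδ]; nlinarith
        rw [neg_le_iff_add_nonneg, ← sub_neg_eq_add, sub_nonneg]
        rw [show -(1 / (Q : ℝ)) = -1 / Q by ring, div_le_iff₀ hQ0] 
        linarith
      · have : (Q : ℝ) * δ ≤ 1 := by rw [hδ]; nlinarith
        rw [le_div_iff₀ hQ0]
        linarith
    have h3 : b k * (((j - i : ℕ) : ℝ) * Y0) = 2 * Real.pi * δ + (⌊u k j⌋ - ⌊u k i⌋ : ℤ) * (2 * Real.pi) := by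
      rw [Nat.cast_sub hlt.le, hδ]
      have f1 := Int.self_sub_floor (u k j)
      have f2 := Int.self_sub_floor (u k i)
      have e1 : b k * ((j : ℝ) * Y0) = 2 * Real.pi * u k j := by
        rw [hu]
        have := Real.pi_pos
        field_simp
      have e2 : b k * ((i : ℝ) * Y0) = 2 * Real.pi * u k i := by
        rw [hu]
        have := Real.pi_pos
        field_simp
      push_cast
      rw [← f1, ← f2]
      linear_combination e1 - e2
    have h4 : Complex.exp (((b k * (((j - i : ℕ) : ℝ) * Y0) : ℝ) : ℂ) * Complex.I) =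
        Complex.exp (((2 * Real.pi * δ : ℝ) : ℂ) * Complex.I) := by
      rw [h3]
      have e3 : ((((2 * Real.pi * δ + (⌊u k j⌋ - ⌊u k i⌋ : ℤ) * (2 * Real.pi) : ℝ)) : ℂ) * Complex.I) =
          (((2 * Real.pi * δ : ℝ) : ℂ) * Complex.I) + ((⌊u k j⌋ - ⌊u k i⌋ : ℤ) : ℂ) * (2 * Real.pi * Complex.I) := by
        push_cast
        ring
      rw [e3, Complex.exp_add, Complex.exp_int_mul_two_pi_mul_I, mul_one]
    rw [h4]
    have h5 := Real.norm_exp_I_mul_ofReal_sub_one_le (x := 2 * Real.pi * δ)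
    rw [mul_comm Complex.I] at h5
    refine h5.trans ?_
    rw [Real.norm_eq_abs, abs_mul, abs_of_pos (by positivity : 0 < 2 * Real.pi)]
    calc 2 * Real.pi * |δ| ≤ 2 * Real.pi * (1 / Q) := by gcongr
      _ = _ := by ring
  rcases lt_or_gt_of_ne hij with h | h
  · exact key i j h (Finset.mem_range.1 hj) he
  · exact key j i h (Finset.mem_range.1 hi) he.symm

section
variable {K : Type} {μ b : K → ℝ}

/-- the sums over the frequencies with Poisson kernels -/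
noncomputable def qq (μ b : K → ℝ) (n : ℝ) : ℝ := ∑' k, μ k * (n / (n ^ 2 + b k ^ 2))

/-- the trigonometric series -/
noncomputable def Tz (μ b : K → ℝ) (y : ℝ) : ℝ := ∑' k, μ k / (1 + b k ^ 2) * Real.cos (b k * y)

/-- hypotheses on the frequencies -/
structure Dens (μ b : K → ℝ) (C : ℝ) : Prop where
  one : ∀ k, 1 ≤ μ k
  sum : Summable fun k => μ k / (1 + b k ^ 2)
  lower : ∀ n : ℕ, 1 ≤ n → Real.log n - C ≤ qq μ b n
  upper : ∀ n : ℕ, 1 ≤ n → qq μ b n ≤ Real.log n + C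

lemma qq_sum {C : ℝ} (H : Dens μ b C) {n : ℝ} (hn : 1 ≤ n) : Summable fun k => μ k * (n / (n ^ 2 + b k ^ 2)) := by
  refine Summable.of_nonneg_of_le (fun k => ?_) (fun k => ?_) (H.sum.mul_left n)
  · have := H.one k
    have h2 : 0 ≤ b k ^ 2 := sq_nonneg _
    positivity
  · have h1 := H.one k
    have h2 : 0 ≤ b k ^ 2 := sq_nonneg _
    have h3 : n / (n ^ 2 + b k ^ 2) ≤ n / (1 + b k ^ 2) := by
      apply div_le_div_of_nonneg_left (by linarith) (by positivity)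
      nlinarith
    calc μ k * (n / (n ^ 2 + b k ^ 2)) ≤ μ k * (n / (1 + b k ^ 2)) := mul_le_mul_of_nonneg_left h3 (by linarith)
      _ = _ := by ring

lemma tt_sum {C : ℝ} (H : Dens μ b C) (y : ℝ) : Summable fun k => μ k / (1 + b k ^ 2) * Real.cos (b k * y) := by
  refine Summable.of_norm_bounded H.sum fun k => ?_
  have h1 := H.one k
  have h2 : 0 ≤ b k ^ 2 := sq_nonneg _
  have h3 : 0 ≤ μ k / (1 + b k ^ 2) := by positivity
  rw [norm_mul, Real.norm_of_nonneg h3, Real.norm_eq_abs]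
  have := Real.abs_cos_le_one (b k * y)
  nlinarith

/-- the drop of the series at a small argument -/
lemma drop {C : ℝ} (H : Dens μ b C) {n : ℕ} (hn : 1 ≤ n) :
    2 / Real.pi ^ 2 * (1 / (8 * (n : ℝ))) ^ 2 * ((n : ℝ) * qq μ b n - (∑' k, μ k / (1 + b k ^ 2)) -
      (n : ℝ) / 4 * qq μ b ((8 * n : ℕ) : ℝ)) ≤ Tz μ b 0 - Tz μ b (1 / (8 * (n : ℝ))) := by
  have hn1 : (1 : ℝ) ≤ n := by exact_mod_cast hn
  obtain ⟨h, hh⟩ : ∃ h : ℝ, h = 1 / (8 * (n : ℝ)) := ⟨_, rfl⟩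
  have hh0 : 0 < h := by rw [hh]; positivity
  have hnh : h * (8 * n) = 1 := by rw [hh]; field_simp
  rw [← hh]
  have hpi := Real.pi_pos
  have s1 := qq_sum H hn1
  have s2 := qq_sum H (n := ((8 * n : ℕ) : ℝ)) (by push_cast; linarith)
  unfold Tz qq
  rw [← (tt_sum H 0).tsum_sub (tt_sum H h), ← tsum_mul_left, ← tsum_mul_left, ← (s1.mul_left _).tsum_sub H.sum,
    ← ((s1.mul_left _).sub H.sum).tsum_sub (s2.mul_left _), ← tsum_mul_left]
  refine Summable.tsum_le_tsum (fun k => ?_) ((((s1.mul_left _).sub H.sum).sub (s2.mul_left _)).mul_left _)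
    ((tt_sum H 0).sub (tt_sum H h))
  have h1 := H.one k
  have hμ0 : 0 < μ k := by linarith
  have hb : 0 ≤ b k ^ 2 := sq_nonneg _
  obtain ⟨c, hc⟩ : ∃ c : ℝ, c = μ k / (1 + b k ^ 2) := ⟨_, rfl⟩
  have hc0 : 0 < c := by rw [hc]; positivity
  have hcb : c * (1 + b k ^ 2) = μ k := by rw [hc]; field_simp
  rw [← hc, mul_zero, Real.cos_zero, mul_one]
  have hK : 0 ≤ 2 / Real.pi ^ 2 * h ^ 2 := by positivity
  push_cast
  rcases le_or_gt |b k| (8 * n) with hk | hk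
  · -- small frequencies
    have h2 : |b k * h| ≤ Real.pi := by
      rw [abs_mul, abs_of_pos hh0]
      have : |b k| * h ≤ 8 * n * h := mul_le_mul_of_nonneg_right hk hh0.le
      have h3 := Real.pi_gt_three
      nlinarith
    have h3 := Real.cos_le_one_sub_mul_cos_sq h2
    have h4 : 2 / Real.pi ^ 2 * h ^ 2 * (c * b k ^ 2) ≤ c - c * Real.cos (b k * h) := by
      have : c * Real.cos (b k * h) ≤ c * (1 - 2 / Real.pi ^ 2 * (b k * h) ^ 2) := mul_le_mul_of_nonneg_left h3 hc0.le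
      nlinarith
    refine le_trans (mul_le_mul_of_nonneg_left ?_ hK) h4
    have h5 : (n : ℝ) * (μ k * (n / (n ^ 2 + b k ^ 2))) ≤ μ k := by
      rw [show (n : ℝ) * (μ k * (n / (n ^ 2 + b k ^ 2))) = μ k * (n ^ 2 / (n ^ 2 + b k ^ 2)) by ring]
      have : (n : ℝ) ^ 2 / (n ^ 2 + b k ^ 2) ≤ 1 := by
        rw [div_le_one (by positivity)]
        linarith
      nlinarith
    have h6 : 0 ≤ (n : ℝ) / 4 * (μ k * (8 * n / ((8 * n) ^ 2 + b k ^ 2))) := by positivity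
    nlinarith
  · -- large frequencies
    have h2 : 0 ≤ c - c * Real.cos (b k * h) := by
      have := Real.cos_le_one (b k * h)
      nlinarith
    refine le_trans (mul_nonpos_of_nonneg_of_nonpos hK ?_) h2
    have h3 : (8 * (n : ℝ)) ^ 2 ≤ b k ^ 2 := by
      rw [← sq_abs (b k)]
      exact pow_le_pow_left₀ (by positivity) hk.le 2
    have h4 : (n : ℝ) * (μ k * (n / (n ^ 2 + b k ^ 2))) ≤ (n : ℝ) / 4 * (μ k * (8 * n / ((8 * n) ^ 2 + b k ^ 2))) := by
      rw [show (n : ℝ) * (μ k * (n / (n ^ 2 + b k ^ 2))) = μ k * n ^ 2 * (1 / (n ^ 2 + b k ^ 2)) by ring,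
        show (n : ℝ) / 4 * (μ k * (8 * n / ((8 * n) ^ 2 + b k ^ 2))) =
          μ k * n ^ 2 * (2 / ((8 * n) ^ 2 + b k ^ 2)) by ring]
      refine mul_le_mul_of_nonneg_left ?_ (by positivity)
      rw [div_le_div_iff₀ (by positivity) (by positivity)]
      nlinarith
    linarith

/-- the comparison of the series at `y + u` and `u` -/
lemma shift_le {C : ℝ} (H : Dens μ b C) {R : ℕ} (hR : 1 ≤ R) {η y : ℝ} (hη : 0 ≤ η)
    (hy : ∀ k, |b k| ≤ R → ‖Complex.exp (((b k * y : ℝ) : ℂ) * Complex.I) - 1‖ ≤ η) (u : ℝ) :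
    |Tz μ b (y + u) - Tz μ b u| ≤ η * (∑' k, μ k / (1 + b k ^ 2)) + 4 / R * qq μ b R := by
  have hR1 : (1 : ℝ) ≤ R := by exact_mod_cast hR
  have s1 := qq_sum H hR1
  unfold Tz
  rw [← (tt_sum H (y + u)).tsum_sub (tt_sum H u), ← Real.norm_eq_abs]
  unfold qq
  rw [← tsum_mul_left, ← tsum_mul_left, ← (H.sum.mul_left _).tsum_add (s1.mul_left _)]
  refine tsum_of_norm_bounded ((H.sum.mul_left _).add (s1.mul_left _)).hasSum fun k => ?_
  have h1 := H.one k
  have hμ0 : 0 < μ k := by linarith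
  have hb : 0 ≤ b k ^ 2 := sq_nonneg _
  obtain ⟨c, hc⟩ : ∃ c : ℝ, c = μ k / (1 + b k ^ 2) := ⟨_, rfl⟩
  have hc0 : 0 < c := by rw [hc]; positivity
  have hcb : c * (1 + b k ^ 2) = μ k := by rw [hc]; field_simp
  rw [← hc, ← mul_sub, norm_mul, Real.norm_of_nonneg hc0.le]
  have hq0 : 0 ≤ 4 / (R : ℝ) * (μ k * (R / (R ^ 2 + b k ^ 2))) := by positivity
  rcases le_or_gt |b k| R with hk | hk
  · have h2 : ‖Real.cos (b k * (y + u)) - Real.cos (b k * u)‖ ≤ η := by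
      have e : Real.cos (b k * (y + u)) - Real.cos (b k * u) = (Complex.exp (((b k * u : ℝ) : ℂ) * Complex.I) *
          (Complex.exp (((b k * y : ℝ) : ℂ) * Complex.I) - 1)).re := by
        rw [mul_sub, ← Complex.exp_add, mul_one, Complex.sub_re,
          show ((b k * u : ℝ) : ℂ) * Complex.I + ((b k * y : ℝ) : ℂ) * Complex.I =
            ((b k * (y + u) : ℝ) : ℂ) * Complex.I by push_cast; ring,
          Complex.exp_ofReal_mul_I_re, Complex.exp_ofReal_mul_I_re]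
      rw [e, Real.norm_eq_abs]
      refine (Complex.abs_re_le_norm _).trans ?_
      rw [norm_mul, Complex.norm_exp_ofReal_mul_I, one_mul]
      exact hy k hk
    nlinarith
  · have h2 : ‖Real.cos (b k * (y + u)) - Real.cos (b k * u)‖ ≤ 2 := by
      rw [Real.norm_eq_abs, abs_le]
      have a1 := Real.cos_le_one (b k * (y + u))
      have a2 := Real.neg_one_le_cos (b k * (y + u))
      have a3 := Real.cos_le_one (b k * u)
      have a4 := Real.neg_one_le_cos (b k * u)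
      constructor <;> linarith
    have h3 : (R : ℝ) ^ 2 ≤ b k ^ 2 := by
      rw [← sq_abs (b k)]
      exact pow_le_pow_left₀ (by positivity) hk.le 2
    have h4 : 2 * c ≤ 4 / (R : ℝ) * (μ k * (R / (R ^ 2 + b k ^ 2))) := by
      rw [show 4 / (R : ℝ) * (μ k * (R / (R ^ 2 + b k ^ 2))) = μ k * (4 / (R ^ 2 + b k ^ 2)) by field_simp,
        hc, show 2 * (μ k / (1 + b k ^ 2)) = μ k * (2 / (1 + b k ^ 2)) by ring]
      refine mul_le_mul_of_nonneg_left ?_ hμ0.le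
      rw [div_le_div_iff₀ (by positivity) (by positivity)]
      nlinarith
    nlinarith [mul_nonneg hη hc0.le]

/-- there are few small frequencies -/
lemma count {C : ℝ} (H : Dens μ b C) {R : ℕ} (hR : 1 ≤ R) :
    ∃ F : Finset K, (∀ k, k ∈ F ↔ |b k| ≤ R) ∧ (F.card : ℝ) ≤ 2 * R * qq μ b R := by
  classical
  have hR1 : (1 : ℝ) ≤ R := by exact_mod_cast hR
  have s1 := qq_sum H hR1
  have hge : ∀ k, |b k| ≤ R → 1 / (2 * R) ≤ μ k * (R / (R ^ 2 + b k ^ 2)) := by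
    intro k hk
    have h1 := H.one k
    have h2 : b k ^ 2 ≤ (R : ℝ) ^ 2 := by
      rw [← sq_abs (b k)]
      exact pow_le_pow_left₀ (abs_nonneg _) hk 2
    have hb : 0 ≤ b k ^ 2 := sq_nonneg _
    have h3 : 1 / (2 * R) ≤ (R : ℝ) / (R ^ 2 + b k ^ 2) := by
      rw [div_le_div_iff₀ (by positivity) (by positivity)]
      nlinarith
    have h4 : 0 ≤ (R : ℝ) / (R ^ 2 + b k ^ 2) := by positivity
    nlinarith
  have hfin : {k | |b k| ≤ (R : ℝ)}.Finite := by
    have h1 := s1.tendsto_cofinite_zero.eventually (gt_mem_nhds (show (0 : ℝ) < 1 / (2 * R) by positivity))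
    rw [Filter.eventually_cofinite] at h1
    refine h1.subset fun k hk => ?_
    exact not_lt.2 (hge k hk)
  refine ⟨hfin.toFinset, fun k => by simp, ?_⟩
  have h2 : ∑ k ∈ hfin.toFinset, 1 / (2 * (R : ℝ)) ≤ qq μ b R := by
    calc ∑ k ∈ hfin.toFinset, 1 / (2 * (R : ℝ)) ≤ ∑ k ∈ hfin.toFinset, μ k * (R / (R ^ 2 + b k ^ 2)) :=
          Finset.sum_le_sum fun k hk => hge k (by simpa using hk)
      _ ≤ _ := s1.sum_le_tsum _ fun k _ => by
          have := H.one k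
          positivity
  rw [Finset.sum_const, nsmul_eq_mul, mul_one_div, div_le_iff₀ (by positivity)] at h2
  linarith

lemma size_aux {n j : ℝ} {m : ℕ} {L : ℝ} (hn : 3 ≤ n) (hL : L = Real.log n) (hL1 : 1 ≤ L) (hL2 : L ≤ n / 8)
    (hm : (m : ℝ) ≤ n ^ 3) (hj : j ≤ (n ^ 2) ^ m) : j * (8 * L) ≤ Real.exp (n ^ 5) := by
  have hnpos : 0 < n := by linarith
  have h3 : j ≤ Real.exp (2 * n ^ 3 * L) := by
    refine hj.trans ?_
    have h1 : (n ^ 2) ^ m = Real.exp (2 * m * L) := by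
      rw [← pow_mul, ← Real.rpow_natCast, Real.rpow_def_of_pos hnpos, ← hL]
      congr 1
      push_cast
      ring
    rw [h1]
    refine Real.exp_le_exp.2 ?_
    have : (m : ℝ) * L ≤ n ^ 3 * L := mul_le_mul_of_nonneg_right hm (by linarith)
    linarith
  have h6 : 8 * L ≤ Real.exp n := by
    have := Real.add_one_le_exp n
    linarith
  calc j * (8 * L) ≤ Real.exp (2 * n ^ 3 * L) * Real.exp n :=
        mul_le_mul h3 h6 (by linarith) (Real.exp_pos _).le
    _ = Real.exp (2 * n ^ 3 * L + n) := by rw [Real.exp_add]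
    _ ≤ Real.exp (n ^ 5) := by
        refine Real.exp_le_exp.2 ?_
        have h7 : 2 * n ^ 3 * L ≤ 2 * n ^ 3 * (n / 8) := mul_le_mul_of_nonneg_left hL2 (by positivity)
        have h9 : 1 ≤ n ^ 3 := one_le_pow₀ (by linarith)
        have h10 : n ≤ n ^ 4 := by
          calc n = n * 1 := by ring
            _ ≤ n * n ^ 3 := by gcongr
            _ = _ := by ring
        have h11 : 3 * n ^ 4 ≤ n ^ 5 := by
          calc 3 * n ^ 4 ≤ n * n ^ 4 := by gcongr
            _ = _ := by ring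
        have h12 : 2 * n ^ 3 * (n / 8) = n ^ 4 / 4 := by ring
        linarith

lemma drop_aux {C : ℝ} (H : Dens μ b C) {C1 G : ℝ} (hC1 : C ≤ C1) (hG : G = ∑' k, μ k / (1 + b k ^ 2))
    (hG0 : 0 ≤ G) {n : ℕ} (hn3 : 3 ≤ n) (f1 : 8 * C1 + 4 * G + 4 ≤ Real.log n) (hC11 : 1 ≤ C1) :
    1 / 128 * (1 / (8 * (n : ℝ))) * Real.log n ≤ Tz μ b 0 - Tz μ b (1 / (8 * (n : ℝ))) := by
  have hpi := Real.pi_pos
  have hpi4 := Real.pi_lt_four
  have hn1 : 1 ≤ n := by omega
  have hnr : (3 : ℝ) ≤ n := by exact_mod_cast hn3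
  have hnpos : (0 : ℝ) < n := by linarith
  have hlogn : 1 ≤ Real.log n := by linarith
  have hlog8 : Real.log 8 ≤ 3 := by
    have h1 : Real.log 8 = 3 * Real.log 2 := by
      rw [show (8 : ℝ) = 2 ^ 3 by norm_num, Real.log_pow]
      norm_num
    have := Real.log_two_lt_d9
    rw [h1]
    linarith
  refine le_trans ?_ (drop H hn1)
  rw [← hG]
  have h1 := H.lower n hn1
  have h2 := H.upper (8 * n) (by omega)
  have h3 : Real.log ((8 * n : ℕ) : ℝ) = Real.log 8 + Real.log n := by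
    push_cast
    rw [Real.log_mul (by norm_num) (by positivity)]
  rw [h3] at h2
  have h4 : 1 / 2 * (n : ℝ) * Real.log n ≤ (n : ℝ) * qq μ b n - G - (n : ℝ) / 4 * qq μ b ((8 * n : ℕ) : ℝ) := by
    have h5 : (n : ℝ) * (Real.log n - C1) ≤ (n : ℝ) * qq μ b n :=
      mul_le_mul_of_nonneg_left (by linarith) hnpos.le
    have h6 : (n : ℝ) / 4 * qq μ b ((8 * n : ℕ) : ℝ) ≤ (n : ℝ) / 4 * (3 + Real.log n + C1) :=
      mul_le_mul_of_nonneg_left (by linarith) (by positivity)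
    have h7 : G ≤ n * G := by nlinarith
    have h8 : (n : ℝ) * (8 * C1 + 4 * G + 4) ≤ n * Real.log n := mul_le_mul_of_nonneg_left f1 hnpos.le
    have h9 : 0 ≤ (n : ℝ) * C1 := by positivity
    linarith
  have h5 : (1 : ℝ) / 16 ≤ 1 / Real.pi ^ 2 := by
    apply one_div_le_one_div_of_le (by positivity)
    nlinarith
  calc 1 / 128 * (1 / (8 * (n : ℝ))) * Real.log n =
        2 * (1 / 16) * (1 / (8 * (n : ℝ))) ^ 2 * (1 / 2 * (n : ℝ) * Real.log n) := by
        field_simp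
        ring
    _ ≤ 2 * (1 / Real.pi ^ 2) * (1 / (8 * (n : ℝ))) ^ 2 * (1 / 2 * (n : ℝ) * Real.log n) := by
        gcongr
    _ = 2 / Real.pi ^ 2 * (1 / (8 * (n : ℝ))) ^ 2 * (1 / 2 * (n : ℝ) * Real.log n) := by ring
    _ ≤ _ := by
        refine mul_le_mul_of_nonneg_left h4 (by positivity)

lemma err_aux {G C1 q n L : ℝ} (hG0 : 0 ≤ G) (hC11 : 1 ≤ C1) (hn : 3 ≤ n) (hL : 1 ≤ L) (hq : q ≤ 2 * L + C1)
    (f2 : 4096 * (8 * G + 24 + 4 * C1) ≤ n) :
    2 * (2 * Real.pi / n ^ 2 * G + 4 / n ^ 2 * q) ≤ 1 / 256 * (1 / (8 * n)) * L := by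
  have hpi4 := Real.pi_lt_four
  have hnpos : 0 < n := by linarith
  have h1 : 2 * Real.pi / n ^ 2 * G + 4 / n ^ 2 * q = (2 * Real.pi * G + 4 * q) / n ^ 2 := by
    field_simp
  have h2 : 2 * Real.pi * G ≤ 8 * G := by nlinarith
  have h3 : 2 * Real.pi * G + 4 * q ≤ (8 * G + 24 + 4 * C1) * L := by nlinarith
  have h4 : 1 / 256 * (1 / (8 * n)) * L = (n * L / 2048) / n ^ 2 := by
    field_simp
    norm_num
  rw [h1, h4, mul_div_assoc', div_le_div_iff_of_pos_right (by positivity)]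
  have h5 : 4096 * (8 * G + 24 + 4 * C1) * L ≤ n * L := mul_le_mul_of_nonneg_right f2 (by linarith)
  linarith

/-- **Steep slopes.** -/
theorem slopes {C : ℝ} (H : Dens μ b C) : ∃ c : ℝ, 0 < c ∧ ∃ n0 : ℕ, ∀ n : ℕ, n0 ≤ n → ∃ y : ℝ,
    8 * Real.log n ≤ y ∧ y ≤ Real.exp ((n : ℝ) ^ 5) ∧
      c * (1 / (8 * (n : ℝ))) * Real.log n ≤ Tz μ b y - Tz μ b (y + 1 / (8 * (n : ℝ))) ∧
      c * (1 / (8 * (n : ℝ))) * Real.log n ≤ Tz μ b y - Tz μ b (y - 1 / (8 * (n : ℝ))) := by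
  obtain ⟨G, hG⟩ : ∃ G : ℝ, G = ∑' k, μ k / (1 + b k ^ 2) := ⟨_, rfl⟩
  have hG0 : 0 ≤ G := by
    rw [hG]
    exact tsum_nonneg fun k => by
      have := H.one k
      positivity
  have hlog : Tendsto (fun n : ℕ => Real.log (n : ℝ)) atTop atTop := Real.tendsto_log_atTop.comp tendsto_natCast_atTop_atTop
  have hnat : Tendsto (fun n : ℕ => (n : ℝ)) atTop atTop := tendsto_natCast_atTop_atTop
  have hlo : Tendsto (fun n : ℕ => Real.log (n : ℝ) / n) atTop (𝓝 0) := by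
    have h1 := Real.isLittleO_log_id_atTop.tendsto_div_nhds_zero
    exact h1.comp hnat
  obtain ⟨C1, hC1⟩ : ∃ C1 : ℝ, C1 = |C| + 1 := ⟨_, rfl⟩
  have hC10 : C ≤ C1 := by rw [hC1]; linarith [le_abs_self C]
  have hC11 : 1 ≤ C1 := by rw [hC1]; linarith [abs_nonneg C]
  have e1 := hlog.eventually (eventually_ge_atTop (8 * C1 + 4 * G + 4))
  have e2 := hnat.eventually (eventually_ge_atTop (4096 * (8 * G + 24 + 4 * C1)))
  have e3 := hlo.eventually (gt_mem_nhds (show (0 : ℝ) < 1 / (100 * (C1 + 1)) by positivity))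
  obtain ⟨n0, hn0⟩ := eventually_atTop.1 ((e1.and (e2.and e3)).and (eventually_ge_atTop 3))
  refine ⟨1 / 256, by norm_num, n0, fun n hn => ?_⟩
  obtain ⟨⟨f1, f2, f3⟩, hn3⟩ := hn0 n hn
  clear e1 e2 e3 hn0
  have hn1 : 1 ≤ n := by omega
  have hnr : (3 : ℝ) ≤ n := by exact_mod_cast hn3
  have hnpos : (0 : ℝ) < n := by linarith
  rw [div_lt_iff₀ hnpos] at f3
  have f3 : Real.log n * (100 * (C1 + 1)) ≤ n := by
    have : 1 / (100 * (C1 + 1)) * (n : ℝ) * (100 * (C1 + 1)) = n := by field_simp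
    have h4 := mul_le_mul_of_nonneg_right f3.le (show 0 ≤ 100 * (C1 + 1) by linarith)
    linarith
  have hlogn : 1 ≤ Real.log n := by linarith
  have hdrop := drop_aux H hC10 hG hG0 hn3 f1 hC11
  -- the almost period
  obtain ⟨R, hR⟩ : ∃ R : ℕ, R = n ^ 2 := ⟨_, rfl⟩
  have hR1 : 1 ≤ R := by rw [hR]; exact Nat.one_le_pow _ _ hn1
  have hRr : (R : ℝ) = (n : ℝ) ^ 2 := by rw [hR]; push_cast; ring
  obtain ⟨F, hF, hFc⟩ := count H hR1
  obtain ⟨j, hj1, hj2, hj⟩ := simult b F (8 * Real.log n) hR1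
  have hqR : qq μ b R ≤ 2 * Real.log n + C1 := by
    have := H.upper R hR1
    rw [hRr, Real.log_pow] at this
    rw [hRr]
    push_cast at this
    linarith
  obtain ⟨y, hy⟩ : ∃ y : ℝ, y = (j : ℝ) * (8 * Real.log n) := ⟨_, rfl⟩
  have hjr : (1 : ℝ) ≤ j := by exact_mod_cast hj1
  have hy1 : 8 * Real.log n ≤ y := by rw [hy]; nlinarith
  rw [← hy] at hj
  refine ⟨y, hy1, ?_, ?_⟩
  · -- the size
    have h1 : (F.card : ℝ) ≤ (n : ℝ) ^ 3 := by
      refine hFc.trans ?_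
      rw [hRr]
      rw [hRr] at hqR
      have h2 : 2 * Real.log n + C1 ≤ n / 2 := by nlinarith
      calc 2 * (n : ℝ) ^ 2 * qq μ b ((n : ℝ) ^ 2) ≤ 2 * (n : ℝ) ^ 2 * (n / 2) :=
            mul_le_mul_of_nonneg_left (hqR.trans h2) (by positivity)
        _ = _ := by ring
    have h3 : (j : ℝ) ≤ ((n : ℝ) ^ 2) ^ F.card := by
      rw [← hRr]
      exact_mod_cast hj2
    rw [hy]
    exact size_aux hnr rfl hlogn (by nlinarith) h1 h3
  · -- the slope
    obtain ⟨h, hh⟩ : ∃ h : ℝ, h = 1 / (8 * (n : ℝ)) := ⟨_, rfl⟩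
    have herr := err_aux hG0 hC11 hnr hlogn hqR f2
    rw [← hh] at hdrop herr ⊢
    have hpi := Real.pi_pos
    have hη : 0 ≤ 2 * Real.pi / (R : ℝ) := by positivity
    have hyk : ∀ k, |b k| ≤ R → ‖Complex.exp (((b k * y : ℝ) : ℂ) * Complex.I) - 1‖ ≤ 2 * Real.pi / (R : ℝ) :=
      fun k hk => hj k ((hF k).2 hk)
    have a1 := shift_le H hR1 hη hyk 0
    have a2 := shift_le H hR1 hη hyk h
    have a3 := shift_le H hR1 hη hyk (-h)
    have e4 : Tz μ b (-h) = Tz μ b h := by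
      unfold Tz
      refine tsum_congr fun k => ?_
      rw [mul_neg, Real.cos_neg]
    rw [e4, ← sub_eq_add_neg] at a3
    rw [add_zero] at a1
    rw [← hG] at a1 a2 a3
    have b1 := (abs_le.1 a1).1
    have b2 := (abs_le.1 a2).2
    have b3 := (abs_le.1 a3).2
    rw [← hRr] at herr
    constructor <;> linarith

end

end Pool.Agent.H862.EC
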