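import Pool.Agent.H862.EC.Rate
import Pool.Agent.H862.EC.Slope
import Pool.Agent.H862.EC.App

/-!
# The density of the zeros of the `L`-function of a newform of weight two
-/

set_option autoImplicit false
set_option linter.unusedSectionVars false

open Complex Filter Topology Set CongruenceSubgroup MeasureTheory
open scoped MatrixGroups ComplexConjugate
open Pool.Agent.TH941 (Hecke)
open Pool.Agent.NH98.RT.Xi
open Pool.Agent.H862.EL (SysL Sys m0 cf od)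

namespace Pool.Agent.H862.EC

lemma dig (n : ℕ) : logDeriv Complex.Gamma (1 + (n : ℂ)) =
    (((harmonic n : ℚ) : ℝ) - Real.eulerMascheroniConstant : ℝ) := by
  have h0 : logDeriv Complex.Gamma (1 + (n : ℂ)) = Complex.digamma (1 + n) := rfl
  rw [h0]
  clear h0
  induction n with
  | zero => simp [Complex.digamma_one]
  | succ n ih =>
    have h := Complex.digamma_apply_add_one (1 + (n : ℂ)) (fun m => by
      intro h
      have := congrArg Complex.re h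
      simp at this
      have h2 : (0 : ℝ) ≤ m := Nat.cast_nonneg m
      have h3 : (0 : ℝ) ≤ n := Nat.cast_nonneg n
      linarith)
    have e : (1 : ℂ) + ((n + 1 : ℕ) : ℂ) = 1 + n + 1 := by push_cast; ring
    rw [e, h, ih, harmonic_succ]
    push_cast
    ring

section

variable {N : ℕ} [NeZero N] {f : CuspForm (Gamma0 N : Subgroup (GL (Fin 2) ℝ)) 2}

lemma xi_ne_nat (hf : Hecke f) {n : ℕ} (hn : 1 ≤ n) : xi f ((n : ℝ) : ℂ) ≠ 0 := by
  have hn1 : (1 : ℝ) ≤ n := by exact_mod_cast hn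
  intro h
  rw [xi_zero_iff (by rw [ofReal_re]; linarith)] at h
  exact Lf_ne hf (by rw [add_re, one_re, ofReal_re]; linarith) h

lemma xi_ne_nneg (hf : Hecke f) {ε : ℂ} (hε : ‖ε‖ = 1) (hfe : ∀ s : ℂ, xi f (-s) = ε * xi f s)
    {n : ℕ} (hn : 1 ≤ n) : xi f (-((n : ℝ) : ℂ)) ≠ 0 := by
  rw [hfe]
  have : ε ≠ 0 := by
    intro h
    rw [h, norm_zero] at hε
    exact zero_ne_one hε
  exact mul_ne_zero this (xi_ne_nat hf hn)

/-- partial fractions at the natural numbers -/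
lemma pfn (hf : Hecke f) {ε : ℂ} (hε : ‖ε‖ = 1) (hfe : ∀ s : ℂ, xi f (-s) = ε * xi f s) {n : ℕ} (hn : 1 ≤ n) :
    HasSum (fun k : ZX f => (od (xi f) k : ℂ) * (n / ((n : ℂ) ^ 2 - (k : ℂ) ^ 2)))
      (Bf N ((n : ℝ) : ℂ) - LSeries (bf f) (1 + ((n : ℝ) : ℂ))) := by
  have hn1 : (1 : ℝ) ≤ n := by exact_mod_cast hn
  have h1 := pfg (xi_diff f) (xi_gr hε hfe) ((n : ℝ) : ℂ) (-((n : ℝ) : ℂ)) (xi_ne_nat hf hn) (xi_ne_nneg hf hε hfe hn)
  rw [logDeriv_neg hε hfe, logDeriv_xi hf (by rw [ofReal_re]; linarith)] at h1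
  have h2 := h1.mul_left (1 / 2)
  have e2 : (1 / 2 : ℂ) * (Bf N ((n : ℝ) : ℂ) - LSeries (bf f) (1 + ((n : ℝ) : ℂ)) -
      -(Bf N ((n : ℝ) : ℂ) - LSeries (bf f) (1 + ((n : ℝ) : ℂ)))) =
      Bf N ((n : ℝ) : ℂ) - LSeries (bf f) (1 + ((n : ℝ) : ℂ)) := by ring
  rw [e2] at h2
  refine h2.congr_fun ?_
  intro k
  have m1 : ((n : ℂ) - k) ≠ 0 := by
    intro h
    apply xi_ne_nat hf hn
    have : ((n : ℝ) : ℂ) = k := by
      push_cast
      linear_combination h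
    rw [this]
    exact k.2
  have m2 : ((n : ℂ) + k) ≠ 0 := by
    intro h
    apply xi_ne_nneg hf hε hfe hn
    have : -((n : ℝ) : ℂ) = k := by
      push_cast
      linear_combination -h
    rw [this]
    exact k.2
  have m3 : (-(n : ℂ) - k) ≠ 0 := by
    intro h
    apply m2
    linear_combination -h
  unfold od
  push_cast
  rw [show (n : ℂ) ^ 2 - (k : ℂ) ^ 2 = ((n : ℂ) - k) * (n + k) by ring]
  field_simp
  ring

/-- a bound for the prime sum -/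
lemma LS_bd (hf : Hecke f) : ∃ C : ℝ, ∀ n : ℕ, 1 ≤ n → ‖LSeries (bf f) (1 + ((n : ℝ) : ℂ))‖ ≤ C := by
  have h := (bf_summable hf (s := ((2 : ℝ) : ℂ)) (by rw [ofReal_re]; norm_num)).norm
  refine ⟨∑' m : ℕ, ‖LSeries.term (bf f) ((2 : ℝ) : ℂ) m‖, fun n hn => ?_⟩
  have hn1 : (1 : ℝ) ≤ n := by exact_mod_cast hn
  refine tsum_of_norm_bounded h.hasSum fun m => ?_
  refine LSeries.norm_term_le_of_re_le_re (bf f) ?_ m
  rw [ofReal_re, add_re, one_re, ofReal_re]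
  linarith

lemma re_term (hl : ∀ k : ZX f, (k : ℂ).re = 0) (k : ZX f) (n : ℕ) :
    ((od (xi f) k : ℂ) * (n / ((n : ℂ) ^ 2 - (k : ℂ) ^ 2))).re =
      od (xi f) k * ((n : ℝ) / ((n : ℝ) ^ 2 + (k : ℂ).im ^ 2)) := by
  have e : (k : ℂ) = ((k : ℂ).im : ℂ) * I := by
    apply Complex.ext
    · simp [hl k]
    · simp
  have e2 : (n : ℂ) ^ 2 - (k : ℂ) ^ 2 = (((n : ℝ) ^ 2 + (k : ℂ).im ^ 2 : ℝ) : ℂ) := by
    conv_lhs => rw [e]
    rw [mul_pow, I_sq]
    push_cast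
    ring
  rw [e2, Complex.re_ofReal_mul]
  congr 1
  rw [show ((n : ℂ) / (((n : ℝ) ^ 2 + (k : ℂ).im ^ 2 : ℝ) : ℂ)) =
    (((n : ℝ) / ((n : ℝ) ^ 2 + (k : ℂ).im ^ 2) : ℝ) : ℂ) by push_cast; ring, Complex.ofReal_re]

lemma cf_eq' (hl : ∀ k : ZX f, (k : ℂ).re = 0) (k : ZX f) :
    cf (fun k : ZX f => (k : ℂ)) (fun k => od (xi f) k) A1 k = od (xi f) k / (1 + (k : ℂ).im ^ 2) := by
  have e : (k : ℂ) = ((k : ℂ).im : ℂ) * I := by
    apply Complex.ext
    · simp [hl k]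
    · simp
  unfold cf
  have : (A1 (k : ℂ)).re = 1 / (1 + (k : ℂ).im ^ 2) := by
    unfold A1
    conv_lhs => rw [e]
    rw [mul_pow, I_sq, show (1 : ℂ) - ((k : ℂ).im : ℂ) ^ 2 * (-1) = ((1 + (k : ℂ).im ^ 2 : ℝ) : ℂ) by push_cast; ring,
      show (1 : ℂ) / ((1 + (k : ℂ).im ^ 2 : ℝ) : ℂ) = ((1 / (1 + (k : ℂ).im ^ 2) : ℝ) : ℂ) by push_cast; ring,
      Complex.ofReal_re]
  simp only
  rw [this]
  ring

/-- **The density of the zeros.** -/
theorem dens (hf : Hecke f) {ε : ℂ} (hε : ‖ε‖ = 1) (hfe : ∀ s : ℂ, xi f (-s) = ε * xi f s)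
    (hl : ∀ k : ZX f, (k : ℂ).re = 0) :
    ∃ C : ℝ, Dens (fun k : ZX f => od (xi f) k) (fun k : ZX f => (k : ℂ).im) C := by
  obtain ⟨C0, hC0⟩ := LS_bd hf
  obtain ⟨M, hM⟩ : ∃ M : ℝ, M = |Real.log N / 2 - Real.log (2 * Real.pi)| + |Real.eulerMascheroniConstant| + 1 + |C0| :=
    ⟨_, rfl⟩
  have hval : ∀ n : ℕ, 1 ≤ n → |qq (fun k : ZX f => od (xi f) k) (fun k : ZX f => (k : ℂ).im) n -
      ((harmonic n : ℚ) : ℝ)| ≤ |Real.log N / 2 - Real.log (2 * Real.pi)| + |Real.eulerMascheroniConstant| + |C0| := by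
    intro n hn
    have h1 := (Complex.hasSum_re (pfn hf hε hfe hn)).tsum_eq
    simp_rw [re_term hl] at h1
    unfold qq
    rw [h1]
    have h2 : Bf N ((n : ℝ) : ℂ) = ((Real.log N / 2 - Real.log (2 * Real.pi) +
        (((harmonic n : ℚ) : ℝ) - Real.eulerMascheroniConstant) : ℝ) : ℂ) := by
      unfold Bf
      rw [show (((n : ℝ) : ℂ)) = (n : ℂ) by push_cast; rfl, dig]
      push_cast
      ring
    rw [h2, sub_re, ofReal_re]
    have h3 : |(LSeries (bf f) (1 + ((n : ℝ) : ℂ))).re| ≤ |C0| :=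
      (Complex.abs_re_le_norm _).trans ((hC0 n hn).trans (le_abs_self _))
    have h4 := abs_le.1 h3
    rw [abs_le]
    have a1 := neg_abs_le (Real.log N / 2 - Real.log (2 * Real.pi))
    have a2 := le_abs_self (Real.log N / 2 - Real.log (2 * Real.pi))
    have a3 := neg_abs_le Real.eulerMascheroniConstant
    have a4 := le_abs_self Real.eulerMascheroniConstant
    constructor <;> linarith
  refine ⟨M, ⟨fun k => od_pos (dat hf hε hfe) k, ?_, fun n hn => ?_, fun n hn => ?_⟩⟩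
  · exact (Pool.Agent.H862.EL.cf_sum (fsys hf hε hfe)).congr fun k => cf_eq' hl k
  · have h1 := (abs_le.1 (hval n hn)).1
    have h2 := log_add_one_le_harmonic n
    have hn1 : (1 : ℝ) ≤ n := by exact_mod_cast hn
    have h3 : Real.log n ≤ Real.log ((n + 1 : ℕ) : ℝ) := Real.log_le_log (by linarith) (by push_cast; linarith)
    rw [hM]
    push_cast at h2 h3
    linarith
  · have h1 := (abs_le.1 (hval n hn)).2
    have h2 := harmonic_le_one_add_log n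
    rw [hM]
    linarith

/-- the series over the zeros -/
lemma pa_TT (hf : Hecke f) {ε : ℂ} (hε : ‖ε‖ = 1) (hfe : ∀ s : ℂ, xi f (-s) = ε * xi f s)
    (hl : ∀ k : ZX f, (k : ℂ).re = 0) : ∃ C : ℝ, 0 ≤ C ∧ ∀ y : ℝ, 0 ≤ y →
      |PA f y - Tz (fun k : ZX f => od (xi f) k) (fun k : ZX f => (k : ℂ).im) y| ≤ C * Real.exp (-(y / 4)) := by
  obtain ⟨C, hC0, hC⟩ := pa_rate hf hε hfe
  refine ⟨C, hC0, fun y hy => ?_⟩
  have H := fsys hf hε hfe
  have h1 := hC y hy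
  have h2 : (∑' k : ZX f, (od (xi f) k : ℂ) * A1 k * cexp ((k : ℂ) * y)).re =
      Tz (fun k : ZX f => od (xi f) k) (fun k : ZX f => (k : ℂ).im) y := by
    have hs : Summable fun k : ZX f => (od (xi f) k : ℂ) * A1 k * cexp ((k : ℂ) * y) :=
      Pool.Agent.H862.EL.FF_sum H.toSys y
    rw [Complex.re_tsum hs]
    unfold Tz
    refine tsum_congr fun k => ?_
    have h3 := Pool.Agent.H862.EL.term_line H (hl k) y
    rw [h3, Complex.re_ofReal_mul, Complex.exp_ofReal_mul_I_re, cf_eq' hl k]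
  have h3 := Complex.abs_re_le_norm ((PA f y : ℂ) - ∑' k : ZX f, (od (xi f) k : ℂ) * A1 k * cexp ((k : ℂ) * y))
  rw [Complex.sub_re, Complex.ofReal_re, h2] at h3
  exact h3.trans h1

end

end Pool.Agent.H862.EC
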