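import Mathlib

/-!
# The discrepancy and the mean of the cosines
-/

set_option autoImplicit false

open Filter Topology MeasureTheory

namespace Pool.Agent.H862.EC.Dsc

/-- the distribution function of Sato and Tate -/
noncomputable def F (w : ℝ) : ℝ := ∫ u in (0 : ℝ)..w, 2 * Real.sin (Real.pi * u) ^ 2

lemma F_eq (w : ℝ) : F w = w - Real.sin (2 * Real.pi * w) / (2 * Real.pi) := by
  have hpi := Real.pi_pos
  have hd : ∀ u : ℝ, HasDerivAt (fun u : ℝ => u - Real.sin (2 * Real.pi * u) / (2 * Real.pi))
      (2 * Real.sin (Real.pi * u) ^ 2) u := by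
    intro u
    have h1 : HasDerivAt (fun u : ℝ => 2 * Real.pi * u) (2 * Real.pi) u := by
      simpa using (hasDerivAt_id u).const_mul (2 * Real.pi)
    have h2 := (hasDerivAt_id u).sub ((h1.sin).div_const (2 * Real.pi))
    refine h2.congr_deriv ?_
    have h3 : Real.cos (2 * Real.pi * u) = 1 - 2 * Real.sin (Real.pi * u) ^ 2 := by
      rw [mul_assoc, Real.cos_two_mul, Real.cos_sq']
      ring
    rw [h3]
    field_simp
    ring
  unfold F
  rw [intervalIntegral.integral_eq_sub_of_hasDerivAt (fun u _ => hd u)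
    ((by fun_prop : Continuous fun u : ℝ => 2 * Real.sin (Real.pi * u) ^ 2).intervalIntegrable _ _)]
  simp

lemma hd_cos (u : ℝ) : HasDerivAt (fun u : ℝ => -Real.cos (Real.pi * u)) (Real.pi * Real.sin (Real.pi * u)) u := by
  have h1 : HasDerivAt (fun u : ℝ => Real.pi * u) Real.pi u := by
    simpa using (hasDerivAt_id u).const_mul Real.pi
  refine h1.cos.neg.congr_deriv ?_
  ring

lemma ii_sin (a b : ℝ) : IntervalIntegrable (fun u : ℝ => Real.pi * Real.sin (Real.pi * u)) volume a b :=
  (by fun_prop : Continuous fun u : ℝ => Real.pi * Real.sin (Real.pi * u)).intervalIntegrable _ _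

lemma int_sin : ∫ w in (0 : ℝ)..1, Real.pi * Real.sin (Real.pi * w) = 2 := by
  rw [intervalIntegral.integral_eq_sub_of_hasDerivAt (fun u _ => hd_cos u) (ii_sin _ _)]
  simp
  norm_num

lemma int_F : ∫ w in (0 : ℝ)..1, Real.pi * Real.sin (Real.pi * w) * (1 - F w) = 1 := by
  have hpi := Real.pi_pos
  have e : ∀ w : ℝ, Real.pi * Real.sin (Real.pi * w) * (1 - F w) = Real.pi * (1 - w) * Real.sin (Real.pi * w) +
      Real.sin (Real.pi * w) ^ 2 * Real.cos (Real.pi * w) := by
    intro w
    rw [F_eq, mul_assoc 2 Real.pi w, Real.sin_two_mul]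
    field_simp
    ring
  have hd : ∀ u : ℝ, HasDerivAt (fun w : ℝ => -((1 - w) * Real.cos (Real.pi * w)) -
      Real.sin (Real.pi * w) / Real.pi + Real.sin (Real.pi * w) ^ 3 / (3 * Real.pi))
      (Real.pi * (1 - u) * Real.sin (Real.pi * u) + Real.sin (Real.pi * u) ^ 2 * Real.cos (Real.pi * u)) u := by
    intro u
    have h1 : HasDerivAt (fun u : ℝ => Real.pi * u) Real.pi u := by
      simpa using (hasDerivAt_id u).const_mul Real.pi
    have h2 : HasDerivAt (fun u : ℝ => 1 - u) (-1) u := by
      simpa using (hasDerivAt_id u).const_sub 1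
    have h3 := (((h2.mul h1.cos).neg).sub (h1.sin.div_const Real.pi)).add ((h1.sin.pow 3).div_const (3 * Real.pi))
    refine h3.congr_deriv ?_
    field_simp
    norm_num
    ring
  rw [intervalIntegral.integral_congr (g := fun w => Real.pi * (1 - w) * Real.sin (Real.pi * w) +
      Real.sin (Real.pi * w) ^ 2 * Real.cos (Real.pi * w)) (fun w _ => e w)]
  rw [intervalIntegral.integral_eq_sub_of_hasDerivAt (fun u _ => hd u)
    ((by fun_prop : Continuous fun w : ℝ => Real.pi * (1 - w) * Real.sin (Real.pi * w) +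
      Real.sin (Real.pi * w) ^ 2 * Real.cos (Real.pi * w)).intervalIntegrable _ _)]
  simp

lemma cos_int {x : ℝ} (hx : x ∈ Set.Icc (0 : ℝ) 1) : Real.cos (Real.pi * x) =
    1 - ∫ w in (0 : ℝ)..1, Set.indicator {w | w ≤ x} (fun w => Real.pi * Real.sin (Real.pi * w)) w := by
  rw [intervalIntegral.integral_indicator hx]
  rw [intervalIntegral.integral_eq_sub_of_hasDerivAt (fun u _ => hd_cos u) (ii_sin _ _)]
  simp

/-- **The inequality of Koksma** for the cosine. -/
theorem koksma {x : ℕ → ℝ} (hx : ∀ k, x k ∈ Set.Icc (0 : ℝ) 1) (K : ℕ) {D : ℝ}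
    (h : ∀ w ∈ Set.Icc (0 : ℝ) 1, |(((Finset.range K).filter (fun k => x k < w)).card : ℝ) - K * F w| ≤ D) :
    |∑ k ∈ Finset.range K, Real.cos (Real.pi * x k)| ≤ 2 * D := by
  have hc : Continuous fun u : ℝ => Real.pi * Real.sin (Real.pi * u) := by fun_prop
  have hFc : Continuous F := by
    have : F = fun w => w - Real.sin (2 * Real.pi * w) / (2 * Real.pi) := funext F_eq
    rw [this]
    fun_prop
  have hi : ∀ k, IntervalIntegrable (Set.indicator {w | w ≤ x k} (fun w => Real.pi * Real.sin (Real.pi * w)))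
      volume 0 1 := by
    intro k
    rw [intervalIntegrable_iff]
    exact ((hc.intervalIntegrable (μ := volume) 0 1).1.indicator measurableSet_Iic) |> fun h => by
      rwa [Set.uIoc_of_le zero_le_one]
  have e1 : ∑ k ∈ Finset.range K, Real.cos (Real.pi * x k) = -∫ w in (0 : ℝ)..1,
      ((∑ k ∈ Finset.range K, Set.indicator {w | w ≤ x k} (fun w => Real.pi * Real.sin (Real.pi * w)) w) -
        K * (Real.pi * Real.sin (Real.pi * w) * (1 - F w))) := by
    rw [intervalIntegral.integral_sub, intervalIntegral.integral_finsetSum, intervalIntegral.integral_const_mul, int_F]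
    · rw [Finset.sum_congr rfl fun k _ => cos_int (hx k), Finset.sum_sub_distrib]
      simp
    · exact fun k _ => hi k
    · have h3 := IntervalIntegrable.sum (Finset.range K) fun k _ => hi k
      refine h3.congr fun w _ => ?_
      simp only [Finset.sum_apply]
    · exact (continuous_const.mul (hc.mul (continuous_const.sub hFc))).intervalIntegrable _ _
  rw [e1, abs_neg, ← Real.norm_eq_abs]
  have h2 : ∫ w in (0 : ℝ)..1, Real.pi * Real.sin (Real.pi * w) * D = 2 * D := by
    rw [intervalIntegral.integral_mul_const, int_sin]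
  rw [← h2]
  refine intervalIntegral.norm_integral_le_of_norm_le zero_le_one (Eventually.of_forall fun w hw => ?_)
    ((hc.mul continuous_const).intervalIntegrable _ _)
  have hw' : w ∈ Set.Icc (0 : ℝ) 1 := ⟨hw.1.le, hw.2⟩
  have hs : 0 ≤ Real.pi * Real.sin (Real.pi * w) := by
    refine mul_nonneg Real.pi_pos.le (Real.sin_nonneg_of_nonneg_of_le_pi ?_ ?_)
    · exact mul_nonneg Real.pi_pos.le hw'.1
    · have := Real.pi_pos
      nlinarith [hw'.2]
  have e2 : (∑ k ∈ Finset.range K, Set.indicator {w | w ≤ x k} (fun w => Real.pi * Real.sin (Real.pi * w)) w) =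
      (K - (((Finset.range K).filter (fun k => x k < w)).card : ℝ)) * (Real.pi * Real.sin (Real.pi * w)) := by
    have e3 : ∀ k, Set.indicator {w | w ≤ x k} (fun w => Real.pi * Real.sin (Real.pi * w)) w =
        Real.pi * Real.sin (Real.pi * w) - (if x k < w then Real.pi * Real.sin (Real.pi * w) else 0) := by
      intro k
      by_cases hk : w ≤ x k
      · rw [Set.indicator_of_mem (show w ∈ {w | w ≤ x k} from hk), if_neg (not_lt.2 hk), sub_zero]
      · rw [Set.indicator_of_notMem (show w ∉ {w | w ≤ x k} from hk), if_pos (not_le.1 hk), sub_self]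
    rw [Finset.sum_congr rfl fun k _ => e3 k, Finset.sum_sub_distrib, ← Finset.sum_filter, Finset.sum_const,
      Finset.sum_const, Finset.card_range, nsmul_eq_mul, nsmul_eq_mul]
    ring
  rw [e2, show (K - (((Finset.range K).filter (fun k => x k < w)).card : ℝ)) * (Real.pi * Real.sin (Real.pi * w)) -
    K * (Real.pi * Real.sin (Real.pi * w) * (1 - F w)) = Real.pi * Real.sin (Real.pi * w) *
      (-((((Finset.range K).filter (fun k => x k < w)).card : ℝ) - K * F w)) by ring, norm_mul, norm_neg,
    Real.norm_of_nonneg hs, Real.norm_eq_abs]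
  exact mul_le_mul_of_nonneg_left (h w hw') hs

/-- partial summation with increasing weights -/
lemma abel_mono {w c : ℕ → ℝ} (hw : Monotone w) (h0 : 0 ≤ w 0) (K : ℕ) {M : ℝ}
    (h : ∀ m, m ≤ K → |∑ k ∈ Finset.range m, c k| ≤ M) : |∑ k ∈ Finset.range K, w k * c k| ≤ 2 * w (K - 1) * M := by
  have hM : 0 ≤ M := (abs_nonneg _).trans (h 0 (Nat.zero_le _))
  have hwn : ∀ k, 0 ≤ w k := fun k => h0.trans (hw (Nat.zero_le k))
  have h1 := Finset.sum_range_by_parts (n := K) w c
  simp only [smul_eq_mul] at h1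
  rw [h1]
  have h2 : |w (K - 1) * ∑ k ∈ Finset.range K, c k| ≤ w (K - 1) * M := by
    rw [abs_mul, abs_of_nonneg (hwn _)]
    exact mul_le_mul_of_nonneg_left (h K le_rfl) (hwn _)
  have h3 : |∑ i ∈ Finset.range (K - 1), (w (i + 1) - w i) * ∑ k ∈ Finset.range (i + 1), c k| ≤
      (w (K - 1) - w 0) * M := by
    refine (Finset.abs_sum_le_sum_abs _ _).trans ?_
    calc ∑ i ∈ Finset.range (K - 1), |(w (i + 1) - w i) * ∑ k ∈ Finset.range (i + 1), c k|
        ≤ ∑ i ∈ Finset.range (K - 1), (w (i + 1) - w i) * M := by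
          refine Finset.sum_le_sum fun i hi => ?_
          rw [Finset.mem_range] at hi
          have h4 : 0 ≤ w (i + 1) - w i := sub_nonneg.2 (hw (Nat.le_succ i))
          rw [abs_mul, abs_of_nonneg h4]
          exact mul_le_mul_of_nonneg_left (h (i + 1) (by omega)) h4
      _ = (w (K - 1) - w 0) * M := by rw [← Finset.sum_mul, Finset.sum_range_sub]
  have h4 : (w (K - 1) - w 0) * M ≤ w (K - 1) * M := mul_le_mul_of_nonneg_right (by linarith) hM
  refine (abs_sub _ _).trans ?_
  linarith

/-- the primes up to `t` in increasing order -/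
lemma sum_primes (g : ℕ → ℝ) (n : ℕ) : ∑ p ∈ (Finset.Icc 1 n).filter Nat.Prime, g p =
    ∑ k ∈ Finset.range (Nat.primeCounting n), g (Nat.nth Nat.Prime k) := by
  induction n with
  | zero =>
    have : Nat.primeCounting 0 = 0 := by decide
    rw [this]
    simp
  | succ n ih =>
    have e1 : Finset.Icc 1 (n + 1) = insert (n + 1) (Finset.Icc 1 n) := by
      ext k
      simp only [Finset.mem_Icc, Finset.mem_insert]
      omega
    have e2 : n + 1 ∉ Finset.Icc 1 n := by simp
    have e3 : Nat.primeCounting (n + 1) = Nat.primeCounting n + if (n + 1).Prime then 1 else 0 := by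
      unfold Nat.primeCounting Nat.primeCounting'
      rw [Nat.count_succ]
    rw [e1, Finset.filter_insert, e3]
    by_cases hp : (n + 1).Prime
    · rw [if_pos hp, if_pos hp, Finset.sum_insert (by simp), Finset.sum_range_succ, ih, add_comm]
      congr 2
      unfold Nat.primeCounting Nat.primeCounting'
      exact (Nat.nth_count hp).symm
    · rw [if_neg hp, if_neg hp, add_zero, ih]

end Pool.Agent.H862.EC.Dsc
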