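import Pool.Agent.H862.EC.Dsc

/-!
# The discrepancy is as large as the sum over the primes
-/

set_option autoImplicit false

open Filter Topology MeasureTheory

namespace Pool.Agent.H862.EC.Dsc

/-- the triple logarithm -/
noncomputable def l3 (t : ℝ) : ℝ := Real.log (Real.log (Real.log t))

lemma sqrt_log_small {δ : ℝ} (hδ : 0 < δ) : ∀ᶠ t : ℝ in atTop, Real.sqrt t * Real.log t ≤ δ * t := by
  have h1 := (isLittleO_log_rpow_atTop (show (0 : ℝ) < 1 / 2 by norm_num)).bound hδ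
  filter_upwards [h1, eventually_ge_atTop (1 : ℝ)] with t h2 h3
  rw [Real.norm_of_nonneg (Real.log_nonneg h3), Real.norm_of_nonneg (by positivity), ← Real.sqrt_eq_rpow] at h2
  have h4 := mul_le_mul_of_nonneg_left h2 (Real.sqrt_nonneg t)
  have h5 := Real.mul_self_sqrt (show 0 ≤ t by linarith)
  calc Real.sqrt t * Real.log t ≤ Real.sqrt t * (δ * Real.sqrt t) := h4
    _ = δ * (Real.sqrt t * Real.sqrt t) := by ring
    _ = δ * t := by rw [h5]

/-- the size of the number of the primes -/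
lemma pi_size : ∃ C : ℝ, 0 < C ∧ ∀ᶠ t : ℝ in atTop, Real.sqrt t ≤ (Nat.primeCounting ⌊t⌋₊ : ℝ) ∧
    (Nat.primeCounting ⌊t⌋₊ : ℝ) / Real.log (Nat.primeCounting ⌊t⌋₊ : ℝ) ≤ C * (t / Real.log t ^ 2) := by
  have hl4 : 0 < Real.log 4 := Real.log_pos (by norm_num)
  refine ⟨2 * (Real.log 4 + 1), by positivity, ?_⟩
  filter_upwards [Chebyshev.eventually_primeCounting_le one_pos, sqrt_log_small (show (0 : ℝ) < 1 / 8 by norm_num),
    eventually_ge_atTop (16 : ℝ)] with t h1 h2 h3
  have hlt : 0 < Real.log t := Real.log_pos (by linarith)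
  have hs4 : 4 ≤ Real.sqrt t := by
    rw [show (4 : ℝ) = Real.sqrt 16 by
      rw [show (16 : ℝ) = 4 ^ 2 by norm_num]; exact (Real.sqrt_sq (by norm_num)).symm]
    exact Real.sqrt_le_sqrt h3
  have h4 : Real.sqrt t ≤ (Nat.primeCounting ⌊t⌋₊ : ℝ) := by
    refine le_trans ?_ (Chebyshev.pi_ge' (show 1 < t by linarith))
    rw [le_div_iff₀ hlt]
    have h5 : Real.log (t + 2) ≤ t / 4 := by
      have h6 : Real.log (t + 2) ≤ Real.log 2 + Real.log t := by
        rw [← Real.log_mul (by norm_num) (by linarith)]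
        exact Real.log_le_log (by linarith) (by linarith)
      have h7 := Real.log_two_lt_d9
      have h8 : 4 * Real.log t ≤ Real.sqrt t * Real.log t := mul_le_mul_of_nonneg_right hs4 hlt.le
      linarith
    have h6 := Real.log_two_gt_d9
    have h7 : (t - 1) * 0.69 ≤ (t - 1) * Real.log 2 := mul_le_mul_of_nonneg_left (by linarith) (by linarith)
    linarith
  refine ⟨h4, ?_⟩
  have h5 : Real.log t / 2 ≤ Real.log (Nat.primeCounting ⌊t⌋₊ : ℝ) := by
    rw [← Real.log_sqrt (by linarith)]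
    exact Real.log_le_log (by linarith) h4
  calc (Nat.primeCounting ⌊t⌋₊ : ℝ) / Real.log (Nat.primeCounting ⌊t⌋₊ : ℝ)
      ≤ ((Real.log 4 + 1) * t / Real.log t) / (Real.log t / 2) := by
        gcongr
    _ = _ := by
        field_simp

lemma div_log_mono {m K : ℝ} (hm : 3 ≤ m) (hK : m ≤ K) : m / Real.log m ≤ K / Real.log K := by
  have h1 : Real.exp 1 ≤ m := Real.exp_one_lt_three.le.trans hm
  have h2 := Real.log_div_self_antitoneOn (Set.mem_Ici.2 h1) (Set.mem_Ici.2 (h1.trans hK)) hK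
  simp only at h2
  have h3 : 0 < Real.log m := Real.log_pos (by linarith)
  have h4 : 0 < Real.log K := Real.log_pos (by linarith)
  rw [div_le_div_iff₀ (by linarith) (by linarith)] at h2
  rw [div_le_div_iff₀ h3 h4]
  linarith

lemma l3_mono {a b : ℝ} (ha : 16 ≤ a) (hab : a ≤ b) : l3 a ≤ l3 b := by
  have h1 : 1 < Real.log a := by
    rw [Real.lt_log_iff_exp_lt (by linarith)]
    exact Real.exp_one_lt_three.trans (by linarith)
  have h2 : 0 < Real.log (Real.log a) := Real.log_pos h1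
  unfold l3
  exact Real.log_le_log h2 (Real.log_le_log (by linarith) (Real.log_le_log (by linarith) hab))

lemma l3_big (M : ℝ) : ∀ᶠ t : ℝ in atTop, M ≤ l3 t :=
  (Real.tendsto_log_atTop.comp (Real.tendsto_log_atTop.comp Real.tendsto_log_atTop)).eventually_ge_atTop M

/-- the weights -/
noncomputable def ww (k : ℕ) : ℝ := Real.sqrt (Nat.nth Nat.Prime k : ℝ) * Real.log (Nat.nth Nat.Prime k : ℝ)

lemma ww_le {k : ℕ} {t : ℝ} (h : (Nat.nth Nat.Prime k : ℝ) ≤ t) : ww k ≤ Real.sqrt t * Real.log t := by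
  have h1 : (1 : ℝ) ≤ Nat.nth Nat.Prime k := by exact_mod_cast (Nat.prime_nth_prime k).one_le
  unfold ww
  exact mul_le_mul (Real.sqrt_le_sqrt h) (Real.log_le_log (by linarith) h) (Real.log_nonneg h1) (Real.sqrt_nonneg _)

lemma ww_mono : Monotone ww := by
  intro i j h
  exact ww_le (by exact_mod_cast (Nat.nth_monotone Nat.infinite_setOfPred_prime h))

lemma ww_nonneg (k : ℕ) : 0 ≤ ww k := by
  have h1 : (1 : ℝ) ≤ Nat.nth Nat.Prime k := by exact_mod_cast (Nat.prime_nth_prime k).one_le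
  unfold ww
  exact mul_nonneg (Real.sqrt_nonneg _) (Real.log_nonneg h1)

lemma pi_le_self (n : ℕ) : Nat.primeCounting n ≤ n := by
  have h := sum_primes (fun _ => 1) n
  rw [Finset.sum_const, Finset.sum_const, Finset.card_range, nsmul_eq_mul, nsmul_eq_mul, mul_one, mul_one] at h
  have h2 : ((Finset.Icc 1 n).filter Nat.Prime).card ≤ n := by
    refine (Finset.card_filter_le _ _).trans ?_
    rw [Nat.card_Icc]
    omega
  have h3 : Nat.primeCounting n = ((Finset.Icc 1 n).filter Nat.Prime).card := by exact_mod_cast h.symm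
  rw [h3]
  exact h2

/-- **From the primes to the discrepancy.** -/
theorem omega_disc {x : ℕ → ℝ} (hx : ∀ k, x k ∈ Set.Icc (0 : ℝ) 1) {A : ℝ → ℝ} {C0 c : ℝ} (hc : 0 < c)
    (hA : ∀ t : ℝ, 1 ≤ t → |A t - ∑ k ∈ Finset.range (Nat.primeCounting ⌊t⌋₊), ww k *
      (2 * Real.cos (Real.pi * x k))| ≤ C0)
    (hfr : ∃ᶠ t : ℝ in atTop, c * (t * l3 t) ≤ |A t|) :
    ∃ c' : ℝ, 0 < c' ∧ ∀ (D : ℕ → ℝ) (B : ℝ), (∀ K : ℕ, ∀ w ∈ Set.Icc (0 : ℝ) 1,
      |(((Finset.range K).filter (fun k => x k < w)).card : ℝ) - K * F w| ≤ K * D K + B) →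
      ∃ᶠ K : ℕ in atTop, c' * (l3 K / Real.sqrt (K * Real.log K)) ≤ D K := by
  obtain ⟨C2, hC2, hpi⟩ := pi_size
  have hs2 : 0 < Real.sqrt C2 := Real.sqrt_pos.2 hC2
  refine ⟨c / (16 * Real.sqrt C2), by positivity, fun D B h hcon => ?_⟩
  obtain ⟨c', hc'⟩ : ∃ c' : ℝ, c' = c / (16 * Real.sqrt C2) := ⟨_, rfl⟩
  have hc'0 : 0 < c' := by rw [hc']; positivity
  have hcc : 8 * c' * Real.sqrt C2 = c / 2 := by rw [hc']; field_simp; norm_num
  rw [← hc'] at hcon
  obtain ⟨K1, hK1⟩ := eventually_atTop.1 hcon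
  obtain ⟨K0, hK0⟩ : ∃ K0 : ℕ, K0 = max K1 16 := ⟨_, rfl⟩
  have hK016 : 16 ≤ K0 := by rw [hK0]; exact le_max_right _ _
  have hK01 : K1 ≤ K0 := by rw [hK0]; exact le_max_left _ _
  obtain ⟨L, hL⟩ : ∃ L : ℝ, L = 8 * |B| + 4 * K0 := ⟨_, rfl⟩
  have hL0 : 0 ≤ L := by rw [hL]; positivity
  -- the point
  obtain ⟨t, h1, h2, h3, h4, h5, h6⟩ : ∃ t : ℝ, c * (t * l3 t) ≤ |A t| ∧ Real.sqrt t ≤ (Nat.primeCounting ⌊t⌋₊ : ℝ) ∧
      (Nat.primeCounting ⌊t⌋₊ : ℝ) / Real.log (Nat.primeCounting ⌊t⌋₊ : ℝ) ≤ C2 * (t / Real.log t ^ 2) ∧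
      L * (Real.sqrt t * Real.log t) ≤ c / 8 * t ∧ 1 ≤ l3 t ∧ max 16 (8 * |C0| / c + 1) ≤ t := by
    have e1 : ∀ᶠ t : ℝ in atTop, L * (Real.sqrt t * Real.log t) ≤ c / 8 * t := by
      filter_upwards [sqrt_log_small (show 0 < c / 8 / (L + 1) by positivity), eventually_ge_atTop (1 : ℝ)] with t ht ht1
      have h7 := mul_le_mul_of_nonneg_left ht hL0
      have h8 : L * (c / 8 / (L + 1) * t) ≤ c / 8 * t := by
        have h9 : L * (c / 8 / (L + 1)) ≤ c / 8 := by
          rw [mul_div_assoc', div_le_iff₀ (by positivity)]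
          nlinarith
        nlinarith
      exact h7.trans h8
    obtain ⟨t, h1, ⟨h2, h3⟩, h4, h5, h6⟩ := (hfr.and_eventually (hpi.and (e1.and ((l3_big 1).and
      (eventually_ge_atTop (max 16 (8 * |C0| / c + 1))))))).exists
    exact ⟨t, h1, h2, h3, h4, h5, h6⟩
  have ht16 : 16 ≤ t := (le_max_left _ _).trans h6
  have htC : 8 * |C0| / c + 1 ≤ t := (le_max_right _ _).trans h6
  obtain ⟨K, hK⟩ : ∃ K : ℕ, K = Nat.primeCounting ⌊t⌋₊ := ⟨_, rfl⟩
  have hA' := hA t (by linarith)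
  rw [← hK] at h2 h3 hA'
  have hlt : 0 < Real.log t := Real.log_pos (by linarith)
  have hKpos : 0 < K := by
    have : (0 : ℝ) < K := (Real.sqrt_pos.2 (by linarith)).trans_le h2
    exact_mod_cast this
  have hKt : (K : ℝ) ≤ t := by
    have h7 : K ≤ ⌊t⌋₊ := by rw [hK]; exact pi_le_self _
    exact (Nat.cast_le.2 h7).trans (Nat.floor_le (by linarith))
  obtain ⟨M, hM⟩ : ∃ M : ℝ, M = 4 * c' * Real.sqrt C2 * (Real.sqrt t / Real.log t) * l3 t + 4 * |B| + 2 * K0 := ⟨_, rfl⟩
  have hpart : 0 ≤ 4 * c' * Real.sqrt C2 * (Real.sqrt t / Real.log t) * l3 t := by positivity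
  have hT : ∀ m, m ≤ K → |∑ k ∈ Finset.range m, 2 * Real.cos (Real.pi * x k)| ≤ M := by
    intro m hm
    rcases lt_or_ge m K0 with h7 | h7
    · have h8 : |∑ k ∈ Finset.range m, 2 * Real.cos (Real.pi * x k)| ≤ m * 2 := by
        refine (Finset.abs_sum_le_sum_abs _ _).trans ?_
        calc ∑ k ∈ Finset.range m, |2 * Real.cos (Real.pi * x k)| ≤ ∑ k ∈ Finset.range m, (2 : ℝ) :=
              Finset.sum_le_sum fun k _ => by
                rw [abs_mul, abs_two]
                have := Real.abs_cos_le_one (Real.pi * x k)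
                linarith
          _ = m * 2 := by rw [Finset.sum_const, Finset.card_range, nsmul_eq_mul]
      have h9 : (m : ℝ) ≤ K0 := by exact_mod_cast h7.le
      have h10 := abs_nonneg B
      rw [hM]
      linarith
    · have hm16 : (16 : ℝ) ≤ m := by exact_mod_cast hK016.trans h7
      have h8 := koksma hx m (h m)
      have h9 := hK1 m (hK01.trans h7)
      push Not at h9
      have hlm : 0 < Real.log m := Real.log_pos (by linarith)
      have h10 : (m : ℝ) * D m ≤ c' * (l3 t * Real.sqrt (m / Real.log m)) := by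
        calc (m : ℝ) * D m ≤ m * (c' * (l3 m / Real.sqrt (m * Real.log m))) :=
              mul_le_mul_of_nonneg_left h9.le (by linarith)
          _ = c' * (l3 m * Real.sqrt (m / Real.log m)) := by
              rw [Real.sqrt_mul (by linarith), Real.sqrt_div (by linarith)]
              have h11 := Real.mul_self_sqrt (show (0 : ℝ) ≤ m by linarith)
              have h12 : 0 < Real.sqrt m := Real.sqrt_pos.2 (by linarith)
              have h13 : 0 < Real.sqrt (Real.log m) := Real.sqrt_pos.2 hlm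
              field_simp
              rw [sq, h11]
              ring
          _ ≤ c' * (l3 t * Real.sqrt (m / Real.log m)) := by
              have h11 : l3 m ≤ l3 t := l3_mono hm16 ((Nat.cast_le.2 hm).trans hKt)
              gcongr
      have h11 : Real.sqrt (m / Real.log m) ≤ Real.sqrt C2 * (Real.sqrt t / Real.log t) := by
        calc Real.sqrt (m / Real.log m) ≤ Real.sqrt (C2 * (t / Real.log t ^ 2)) :=
              Real.sqrt_le_sqrt ((div_log_mono (by linarith) (Nat.cast_le.2 hm)).trans h3)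
          _ = _ := by
              rw [Real.sqrt_mul hC2.le, Real.sqrt_div (by linarith), Real.sqrt_sq hlt.le]
      have h12 : c' * (l3 t * Real.sqrt (m / Real.log m)) ≤ c' * (l3 t * (Real.sqrt C2 * (Real.sqrt t / Real.log t))) := by
        gcongr
      rw [← Finset.mul_sum, abs_mul, abs_two, hM]
      have h13 := le_abs_self B
      have h14 : (0 : ℝ) ≤ K0 := Nat.cast_nonneg _
      linarith
  have h7 := abel_mono ww_mono (ww_nonneg 0) K hT
  have h8 : ww (K - 1) ≤ Real.sqrt t * Real.log t := by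
    apply ww_le
    have h9 : Nat.nth Nat.Prime (K - 1) < ⌊t⌋₊ + 1 := by
      apply Nat.nth_lt_of_lt_count
      have h10 : Nat.count Nat.Prime (⌊t⌋₊ + 1) = K := by rw [hK]; rfl
      rw [h10]
      omega
    have h10 : Nat.nth Nat.Prime (K - 1) ≤ ⌊t⌋₊ := by omega
    exact (Nat.cast_le.2 h10).trans (Nat.floor_le (by linarith))
  have hM0 : 0 ≤ M := (abs_nonneg _).trans (hT 0 (Nat.zero_le _))
  have h9 : 2 * ww (K - 1) * M ≤ 2 * (Real.sqrt t * Real.log t) * M := by gcongr
  have h10 : 2 * (Real.sqrt t * Real.log t) * M = c / 2 * (t * l3 t) + L * (Real.sqrt t * Real.log t) := by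
    have h11 := Real.mul_self_sqrt (show (0 : ℝ) ≤ t by linarith)
    have e1 : 2 * (Real.sqrt t * Real.log t) * (4 * c' * Real.sqrt C2 * (Real.sqrt t / Real.log t) * l3 t) =
        (8 * c' * Real.sqrt C2) * ((Real.sqrt t * Real.sqrt t) * l3 t) := by
      field_simp
      ring
    rw [hM, hL, mul_add, mul_add, e1, hcc, h11]
    ring
  have h11 : |A t| ≤ C0 + |∑ k ∈ Finset.range K, ww k * (2 * Real.cos (Real.pi * x k))| := by
    have := abs_sub_abs_le_abs_sub (A t) (∑ k ∈ Finset.range K, ww k * (2 * Real.cos (Real.pi * x k)))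
    linarith
  have h12 : c / 2 * (t * l3 t) ≤ |C0| + c / 8 * t := by
    have := le_abs_self C0
    linarith
  have h13 : c / 2 * t ≤ c / 2 * (t * l3 t) := by
    have : t ≤ t * l3 t := by nlinarith
    gcongr
  have h14 : |C0| ≤ c / 8 * (t - 1) := by
    have h15 : 8 * |C0| / c ≤ t - 1 := by linarith
    rw [div_le_iff₀ hc] at h15
    linarith
  nlinarith

end Pool.Agent.H862.EC.Dsc
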