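import Pool.Graph.R_pool_sql_team_seeded_63374d34.N706.LI_1
import Pool.Graph.R_pool_sql_team_seeded_63374d34.N804.LI.GlueM

/-!
# The mean value of the exponential of a trigonometric series with coefficients of both signs
-/

set_option autoImplicit false

namespace Pool.Agent.H862.EC

open Filter Topology MeasureTheory Pool.Agent.N804.LI
open Pool.Agent.N706.LI1 (words tm mn mn_le mn_tend)

lemma tm_sumg {K : Type} (θ w : K → ℝ) {κ : ℝ} (hκ : 0 ≤ κ)
    (hs : Summable fun k => |w k|) (y : ℝ) : (Summable fun p => |ww w κ p|) ∧ HasSum (fun p => tm θ w κ p y)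
      (Complex.exp ((κ : ℂ) * ∑' k, (w k : ℂ) * Complex.exp (((θ k * y : ℝ) : ℂ) * Complex.I))) := by
  have hn : ∀ k, ‖(w k : ℂ) * Complex.exp (((θ k * y : ℝ) : ℂ) * Complex.I)‖ = |w k| := by
    intro k
    rw [norm_mul, Complex.norm_exp_ofReal_mul_I, mul_one, Complex.norm_real, Real.norm_eq_abs]
  have h1 := words (fun k => (w k : ℂ) * Complex.exp (((θ k * y : ℝ) : ℂ) * Complex.I))
    (hs.congr fun k => (hn k).symm) hκ
  refine ⟨h1.1.congr fun p => ?_, ?_⟩
  · unfold ww
    rw [abs_mul, Finset.abs_prod, abs_of_nonneg (show (0 : ℝ) ≤ κ ^ p.1 / (p.1).factorial by positivity)]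
    congr 1
    exact Finset.prod_congr rfl fun i _ => hn _
  · convert h1.2 using 1
    funext p
    unfold tm ww ws
    rw [Finset.prod_mul_distrib, ← Complex.exp_sum]
    push_cast
    rw [mul_assoc]
    congr 3
    rw [Finset.sum_mul, Finset.sum_mul]

open Classical in
/-- the mean value of the exponential of a trigonometric series -/
theorem exp_gen {K : Type} (θ w : K → ℝ) {κ : ℝ} (hκ : 0 ≤ κ) (hs : Summable fun k => |w k|) :
    (Summable fun p => |ww w κ p|) ∧
    Tendsto (fun Y : ℝ => (1 / (Y : ℂ)) * ∫ y in (0 : ℝ)..Y,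
      Complex.exp ((κ : ℂ) * ∑' k, (w k : ℂ) * Complex.exp (((θ k * y : ℝ) : ℂ) * Complex.I))) atTop
      (𝓝 (∑' p : Wd K, if ws θ p = 0 then (ww w κ p : ℂ) else 0)) := by
  have hww := (tm_sumg θ w hκ hs 0).1
  refine ⟨hww, ?_⟩
  set f : ℝ → ℂ := fun y => Complex.exp ((κ : ℂ) * ∑' k, (w k : ℂ) *
    Complex.exp (((θ k * y : ℝ) : ℂ) * Complex.I)) with hf
  -- termwise integration
  have hint : ∀ Y : ℝ, (1 / (Y : ℂ)) * ∫ y in (0 : ℝ)..Y, f y =
      ∑' p : Wd K, (ww w κ p : ℂ) * mn (ws θ p) Y := by
    intro Y
    have hcount : (Function.support (fun p => |ww w κ p|)).Countable := hww.countable_support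
    have : Countable (Function.support (fun p => |ww w κ p|)) := hcount.to_subtype
    have h0 : ∀ p, p ∉ Function.support (fun p => |ww w κ p|) → ww w κ p = 0 := by
      intro p hp
      rw [Function.mem_support, not_not] at hp
      exact abs_eq_zero.1 hp
    have h1 : HasSum (fun p : Function.support (fun p => |ww w κ p|) => ∫ y in (0 : ℝ)..Y, tm θ w κ p y)
        (∫ y in (0 : ℝ)..Y, f y) := by
      refine intervalIntegral.hasSum_integral_of_dominated_convergence
        (fun p _ => |ww w κ (p : Wd K)|) ?_ ?_ ?_ ?_ ?_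
      · intro p
        have : Continuous (tm θ w κ (p : Wd K)) := by
          unfold tm
          fun_prop
        exact this.aestronglyMeasurable
      · intro p
        refine Eventually.of_forall fun t _ => ?_
        unfold tm
        rw [norm_mul, Complex.norm_exp_ofReal_mul_I, mul_one, Complex.norm_real, Real.norm_eq_abs]
      · exact Eventually.of_forall fun t _ => hww.subtype _
      · exact intervalIntegrable_const
      · refine Eventually.of_forall fun t _ => ?_
        have h2 := (tm_sumg θ w hκ hs t).2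
        have h3 : Function.support (fun p => tm θ w κ p t) ⊆ Function.support (fun p => |ww w κ p|) := by
          intro p hp
          by_contra hcon
          apply hp
          show tm θ w κ p t = 0
          unfold tm
          rw [h0 p hcon]
          simp
        exact (hasSum_subtype_iff_of_support_subset h3).2 h2
    have h4 : HasSum (fun p : Wd K => ∫ y in (0 : ℝ)..Y, tm θ w κ p y)
        (∫ y in (0 : ℝ)..Y, f y) := by
      have h3 : Function.support (fun p => ∫ y in (0 : ℝ)..Y, tm θ w κ p y) ⊆
          Function.support (fun p => |ww w κ p|) := by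
        intro p hp
        by_contra hcon
        apply hp
        show ∫ y in (0 : ℝ)..Y, tm θ w κ p y = 0
        unfold tm
        rw [h0 p hcon]
        simp
      exact (hasSum_subtype_iff_of_support_subset h3).1 h1
    rw [← h4.tsum_eq, ← tsum_mul_left]
    refine tsum_congr fun p => ?_
    unfold tm mn
    rw [intervalIntegral.integral_const_mul]
    ring
  have hlim : Tendsto (fun Y : ℝ => ∑' p : Wd K, (ww w κ p : ℂ) * mn (ws θ p) Y) atTop
      (𝓝 (∑' p : Wd K, (ww w κ p : ℂ) * (if ws θ p = 0 then 1 else 0))) := by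
    refine tendsto_tsum_of_dominated_convergence hww (fun p => (mn_tend (ws θ p)).const_mul _) ?_
    filter_upwards [eventually_gt_atTop 0] with Y hY p
    rw [norm_mul, Complex.norm_real, Real.norm_eq_abs]
    calc |ww w κ p| * ‖mn (ws θ p) Y‖ ≤ |ww w κ p| * 1 :=
          mul_le_mul_of_nonneg_left (mn_le _ hY) (abs_nonneg _)
      _ = |ww w κ p| := mul_one _
  have e : (∑' p : Wd K, if ws θ p = 0 then (ww w κ p : ℂ) else 0) =
      ∑' p : Wd K, (ww w κ p : ℂ) * (if ws θ p = 0 then 1 else 0) := by
    refine tsum_congr fun p => ?_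
    split_ifs <;> simp
  rw [e]
  refine hlim.congr fun Y => ?_
  rw [← hint Y]

end Pool.Agent.H862.EC
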