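import Pool.Graph.R_pool_sql_team_seeded_63374d34.N78.LI_MEAN
import Pool.Agent.H862.EL.Mult
import Pool.Agent.H862.EC.ExpG

/-!
# Extreme values of trigonometric series and of sums of exponentials on the critical line
-/

set_option autoImplicit false

namespace Pool.Agent.H862.EC

open Filter Topology MeasureTheory
open Pool.Agent.N804.LI (EM I0 Wd ww ws sg)
open Pool.Agent.H862.EL (SysL Sys m0 PR cf cf_pos cf_sum sum_line)

section trig
variable {ι : Type} {c lam : ι → ℝ}

/-- the trigonometric series -/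
noncomputable def TS (c lam : ι → ℝ) (y : ℝ) : ℝ := ∑' i, 2 * c i * Real.cos (lam i * y)

/-- an integral relation with an odd sum of its coefficients -/
def OddRel (lam : ι → ℝ) : Prop :=
  ∃ n : ι →₀ ℤ, (n.sum fun i k => (k : ℝ) * lam i) = 0 ∧ Odd (n.sum fun _ k => k)

lemma ts_term (hc : ∀ i, 0 < c i) (i : ι) (y : ℝ) : ‖2 * c i * Real.cos (lam i * y)‖ ≤ 2 * c i := by
  have h1 : 0 ≤ 2 * c i := by have := hc i; linarith
  rw [norm_mul, Real.norm_of_nonneg h1, Real.norm_eq_abs]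
  have := Real.abs_cos_le_one (lam i * y)
  nlinarith

lemma ts_cont (hc : ∀ i, 0 < c i) (hs : Summable c) : Continuous (TS c lam) := by
  unfold TS
  exact continuous_tsum (fun i => by fun_prop) (hs.mul_left 2) fun i y => ts_term hc i y

lemma ts_bd (hc : ∀ i, 0 < c i) (hs : Summable c) (y : ℝ) : |TS c lam y| ≤ ∑' i, 2 * c i := by
  rw [← Real.norm_eq_abs]
  exact tsum_of_norm_bounded (hs.mul_left 2).hasSum fun i => ts_term hc i y

/-- words with sum zero have even length if there is no odd relation -/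
lemma even_of_no_odd (h : ¬ OddRel lam) (p : Wd (ι × Bool)) (hp : ws (sg lam) p = 0) : Even p.1 := by
  classical
  by_contra hodd
  rw [Nat.not_even_iff_odd] at hodd
  apply h
  obtain ⟨n, q⟩ := p
  have hodd : Odd n := hodd
  obtain ⟨e, he⟩ : ∃ e : Fin n → ℤ, e = fun j => if (q j).2 then 1 else -1 := ⟨_, rfl⟩
  refine ⟨∑ j, Finsupp.single (q j).1 (e j), ?_, ?_⟩
  · rw [← Finsupp.sum_finsetSum_index (fun i => by simp) (fun i a b => by push_cast; ring)]
    have h1 : ∀ j, (Finsupp.single (q j).1 (e j)).sum (fun i k => (k : ℝ) * lam i) = sg lam (q j) := by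
      intro j
      rw [Finsupp.sum_single_index (by simp), he]
      unfold sg
      simp only
      split_ifs <;> simp
    simp_rw [h1]
    exact hp
  · rw [← Finsupp.sum_finsetSum_index (fun i => rfl) (fun i a b => rfl)]
    have h1 : ∀ j, (Finsupp.single (q j).1 (e j)).sum (fun _ k => k) = 1 - 2 * (if (q j).2 then 0 else 1) := by
      intro j
      rw [Finsupp.sum_single_index rfl, he]
      simp only
      split_ifs <;> simp
    simp_rw [h1]
    rw [Finset.sum_sub_distrib, ← Finset.mul_sum]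
    simp only [Finset.sum_const, Finset.card_univ, Fintype.card_fin, nsmul_eq_mul, mul_one]
    obtain ⟨k, hk⟩ := hodd
    have hk' : (n : ℤ) = 2 * k + 1 := by exact_mod_cast hk
    rw [hk']
    refine ⟨(k : ℤ) - ∑ j, (if (q j).2 then 0 else 1), ?_⟩
    ring

/-- the series as a sum over the signed frequencies -/
lemma neg_series (hc : ∀ i, 0 < c i) (hs : Summable c) (y : ℝ) :
    (∑' k : ι × Bool, ((-(c k.1) : ℝ) : ℂ) * Complex.exp (((sg lam k * y : ℝ) : ℂ) * Complex.I)) =
      ((-(TS c lam y) : ℝ) : ℂ) := by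
  have h := Pool.Agent.N78.LI_MEAN.exp_sum lam hc hs y
  have e : (fun k : ι × Bool => ((-(c k.1) : ℝ) : ℂ) * Complex.exp (((sg lam k * y : ℝ) : ℂ) * Complex.I)) =
      fun k : ι × Bool => -((c k.1 : ℂ) * Complex.exp (((sg lam k * y : ℝ) : ℂ) * Complex.I)) := by
    funext k
    push_cast
    ring
  rw [e, tsum_neg, h]
  unfold TS
  push_cast
  rfl

open Classical in
/-- the means of `exp (κ T)` -/
lemma pos_lim (hc : ∀ i, 0 < c i) (hs : Summable c) {κ : ℝ} (hκ : 0 ≤ κ) :
    Tendsto (EM (TS c lam) κ) atTop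
      (𝓝 (∑' p : Wd (ι × Bool), if ws (sg lam) p = 0 then (ww (fun k => c k.1) κ p : ℂ) else 0).re) := by
  obtain ⟨-, h⟩ := exp_gen (sg lam) (fun k : ι × Bool => c k.1) hκ
    ((Pool.Agent.N78.LI_MEAN.summable_w hc hs).congr fun k => (abs_of_pos (hc k.1)).symm)
  have h2 := (Complex.continuous_re.tendsto _).comp h
  refine h2.congr fun Y => ?_
  have hY : (1 / (Y : ℂ)) * ∫ y in (0 : ℝ)..Y, Complex.exp ((κ : ℂ) *
      ∑' k : ι × Bool, ((c k.1 : ℝ) : ℂ) * Complex.exp (((sg lam k * y : ℝ) : ℂ) * Complex.I)) =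
      ((EM (TS c lam) κ Y : ℝ) : ℂ) := by
    unfold EM
    rw [Complex.ofReal_mul, ← intervalIntegral.integral_ofReal]
    congr 1
    · push_cast
      rfl
    · refine intervalIntegral.integral_congr fun y _ => ?_
      show Complex.exp ((κ : ℂ) * ∑' k : ι × Bool, ((c k.1 : ℝ) : ℂ) *
        Complex.exp (((sg lam k * y : ℝ) : ℂ) * Complex.I)) = _
      rw [Pool.Agent.N78.LI_MEAN.exp_sum lam hc hs y, ← Complex.ofReal_mul, ← Complex.ofReal_exp]
      rfl
  rw [Function.comp_apply, hY, Complex.ofReal_re]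

open Classical in
/-- the means of `exp (-κ T)` -/
lemma neg_lim (hc : ∀ i, 0 < c i) (hs : Summable c) {κ : ℝ} (hκ : 0 ≤ κ) :
    Tendsto (EM (fun y => -(TS c lam y)) κ) atTop
      (𝓝 (∑' p : Wd (ι × Bool), if ws (sg lam) p = 0 then (ww (fun k => -(c k.1)) κ p : ℂ) else 0).re) := by
  obtain ⟨-, h⟩ := exp_gen (sg lam) (fun k : ι × Bool => -(c k.1)) hκ
    ((Pool.Agent.N78.LI_MEAN.summable_w hc hs).congr fun k => by rw [abs_neg, abs_of_pos (hc k.1)])
  have h2 := (Complex.continuous_re.tendsto _).comp h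
  refine h2.congr fun Y => ?_
  have hY : (1 / (Y : ℂ)) * ∫ y in (0 : ℝ)..Y, Complex.exp ((κ : ℂ) *
      ∑' k : ι × Bool, ((-(c k.1) : ℝ) : ℂ) * Complex.exp (((sg lam k * y : ℝ) : ℂ) * Complex.I)) =
      ((EM (fun y => -(TS c lam y)) κ Y : ℝ) : ℂ) := by
    unfold EM
    rw [Complex.ofReal_mul, ← intervalIntegral.integral_ofReal]
    congr 1
    · push_cast
      rfl
    · refine intervalIntegral.integral_congr fun y _ => ?_
      show Complex.exp ((κ : ℂ) * ∑' k : ι × Bool, ((-(c k.1) : ℝ) : ℂ) *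
        Complex.exp (((sg lam k * y : ℝ) : ℂ) * Complex.I)) = _
      rw [neg_series hc hs y, ← Complex.ofReal_mul, ← Complex.ofReal_exp]
  rw [Function.comp_apply, hY, Complex.ofReal_re]

/-- without odd relations the two means agree -/
lemma neg_lim_eq (hc : ∀ i, 0 < c i) (hs : Summable c) {κ : ℝ} (hκ : 0 ≤ κ) (h : ¬ OddRel lam) {E : ℝ}
    (hE : Tendsto (EM (TS c lam) κ) atTop (𝓝 E)) : Tendsto (EM (fun y => -(TS c lam y)) κ) atTop (𝓝 E) := by
  classical
  have h1 := tendsto_nhds_unique hE (pos_lim hc hs hκ)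
  have h2 := neg_lim (lam := lam) hc hs hκ
  rw [h1]
  have e : (fun p : Wd (ι × Bool) => if ws (sg lam) p = 0 then (ww (fun k : ι × Bool => -(c k.1)) κ p : ℂ) else 0) =
      fun p : Wd (ι × Bool) => if ws (sg lam) p = 0 then (ww (fun k : ι × Bool => c k.1) κ p : ℂ) else 0 := by
    funext p
    split_ifs with hp
    · have hev := even_of_no_odd h p hp
      congr 1
      unfold ww
      rw [Finset.prod_neg, Finset.card_univ, Fintype.card_fin, hev.neg_one_pow, one_mul]
    · rfl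
  rw [e] at h2
  exact h2

/-! ### the Bessel function -/

lemma I0_int (x a b : ℝ) : IntervalIntegrable (fun u : ℝ => Real.exp (x * Real.cos (2 * Real.pi * u))) volume a b :=
  (by fun_prop : Continuous fun u : ℝ => Real.exp (x * Real.cos (2 * Real.pi * u))).intervalIntegrable _ _

lemma one_le_I0 (x : ℝ) : 1 ≤ I0 x := by
  unfold I0
  have h1 : ∫ u in (0 : ℝ)..1, (x * Real.cos (2 * Real.pi * u) + 1) = 1 := by
    have hpi : (2 * Real.pi) ≠ 0 := by positivity
    have hc : ∫ u in (0 : ℝ)..1, Real.cos (2 * Real.pi * u) = 0 := by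
      rw [intervalIntegral.integral_comp_mul_left (fun u => Real.cos u) hpi]
      rw [integral_cos]
      simp
    rw [intervalIntegral.integral_add (by exact (by fun_prop : Continuous fun u : ℝ =>
      x * Real.cos (2 * Real.pi * u)).intervalIntegrable _ _) (by simp), intervalIntegral.integral_const_mul, hc]
    simp
  calc (1 : ℝ) = ∫ u in (0 : ℝ)..1, (x * Real.cos (2 * Real.pi * u) + 1) := h1.symm
    _ ≤ _ := by
      refine intervalIntegral.integral_mono_on (by norm_num) ?_ (I0_int x 0 1) fun u _ => Real.add_one_le_exp _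
      exact (by fun_prop : Continuous fun u : ℝ => x * Real.cos (2 * Real.pi * u) + 1).intervalIntegrable _ _

lemma I0_ge {x δ : ℝ} (hx : 0 ≤ x) (hδ : 0 ≤ δ) (hδ2 : δ ≤ 1 / 2) :
    δ * Real.exp (x * Real.cos (2 * Real.pi * δ)) ≤ I0 x := by
  unfold I0
  have hpi := Real.pi_pos
  rw [← intervalIntegral.integral_add_adjacent_intervals (I0_int x 0 δ) (I0_int x δ 1)]
  have h1 : 0 ≤ ∫ u in δ..1, Real.exp (x * Real.cos (2 * Real.pi * u)) :=
    intervalIntegral.integral_nonneg (by linarith) fun u _ => (Real.exp_pos _).le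
  have h2 : ∫ _ in (0 : ℝ)..δ, Real.exp (x * Real.cos (2 * Real.pi * δ)) ≤
      ∫ u in (0 : ℝ)..δ, Real.exp (x * Real.cos (2 * Real.pi * u)) := by
    refine intervalIntegral.integral_mono_on hδ (by simp) (I0_int x 0 δ) fun u hu => ?_
    refine Real.exp_le_exp.2 (mul_le_mul_of_nonneg_left ?_ hx)
    refine Real.cos_le_cos_of_nonneg_of_le_pi (by have := hu.1; positivity) (by nlinarith) ?_
    exact mul_le_mul_of_nonneg_left hu.2 (by positivity)
  rw [intervalIntegral.integral_const, sub_zero, smul_eq_mul] at h2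
  linarith

open Classical in
lemma prod_le_tprod {b : ι → ℝ} (hm : Multipliable b) (h1 : ∀ i, 1 ≤ b i) (F : Finset ι) : ∏ i ∈ F, b i ≤ ∏' i, b i := by
  refine ge_of_tendsto hm.hasProd ?_
  filter_upwards [eventually_ge_atTop F] with s hs
  rw [← Finset.prod_sdiff hs]
  have h2 : 1 ≤ ∏ i ∈ s \ F, b i := by
    calc (1 : ℝ) = ∏ i ∈ s \ F, (1 : ℝ) := by simp
      _ ≤ _ := Finset.prod_le_prod (fun i _ => zero_le_one) fun i _ => h1 i
  have h3 : 0 ≤ ∏ i ∈ F, b i := Finset.prod_nonneg fun i _ => zero_le_one.trans (h1 i)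
  exact le_mul_of_one_le_left h3 h2

/-- a bound for the limit of the means -/
lemma em_lim_le {h : ℝ → ℝ} (hc : Continuous h) {κ E M : ℝ} (hκ : 0 ≤ κ) (hE : Tendsto (EM h κ) atTop (𝓝 E))
    (hM : ∀ᶠ y in atTop, h y ≤ M) : E ≤ Real.exp (κ * M) := by
  obtain ⟨y0, hy0⟩ := eventually_atTop.1 hM
  obtain ⟨y1, hy1⟩ : ∃ y1 : ℝ, y1 = max y0 1 := ⟨_, rfl⟩
  have hint : ∀ a b : ℝ, IntervalIntegrable (fun y => Real.exp (κ * h y)) volume a b := fun a b =>
    (Real.continuous_exp.comp (continuous_const.mul hc)).intervalIntegrable _ _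
  obtain ⟨C, hC⟩ : ∃ C : ℝ, C = ∫ y in (0 : ℝ)..y1, Real.exp (κ * h y) := ⟨_, rfl⟩
  have h1 : Tendsto (fun Y : ℝ => (1 / Y) * (C - y1 * Real.exp (κ * M)) + Real.exp (κ * M)) atTop
      (𝓝 (0 * (C - y1 * Real.exp (κ * M)) + Real.exp (κ * M))) := by
    have h2 : Tendsto (fun Y : ℝ => 1 / Y) atTop (𝓝 0) := by
      simpa using tendsto_inv_atTop_zero (𝕜 := ℝ)
    exact (h2.mul_const _).add_const _
  rw [zero_mul, zero_add] at h1
  refine le_of_tendsto_of_tendsto hE h1 ?_
  filter_upwards [eventually_ge_atTop y1] with Y hY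
  have hY1 : 1 ≤ Y := le_trans (by rw [hy1]; exact le_max_right _ _) hY
  have hY0 : 0 < Y := by linarith
  unfold EM
  rw [← intervalIntegral.integral_add_adjacent_intervals (hint 0 y1) (hint y1 Y), ← hC]
  have h2 : ∫ y in y1..Y, Real.exp (κ * h y) ≤ (Y - y1) * Real.exp (κ * M) := by
    have h3 : ∫ y in y1..Y, Real.exp (κ * h y) ≤ ∫ _ in y1..Y, Real.exp (κ * M) := by
      refine intervalIntegral.integral_mono_on hY (hint y1 Y) (by simp) fun y hy => ?_
      refine Real.exp_le_exp.2 (mul_le_mul_of_nonneg_left ?_ hκ)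
      exact hy0 y (le_trans (by rw [hy1]; exact le_max_left _ _) hy.1)
    rw [intervalIntegral.integral_const, smul_eq_mul] at h3
    exact h3
  calc (1 / Y) * (C + ∫ y in y1..Y, Real.exp (κ * h y)) ≤ (1 / Y) * (C + (Y - y1) * Real.exp (κ * M)) := by
        gcongr
    _ = _ := by
        field_simp
        ring

/-- large values from the exponential means -/
lemma large {h : ℝ → ℝ} (hh : Continuous h) (hc : ∀ i, 0 < c i) (hs : Summable c)
    (hE : ∀ κ : ℝ, 0 < κ → ∃ E : ℝ, Tendsto (EM h κ) atTop (𝓝 E) ∧ Multipliable (fun i => I0 (2 * κ * c i)) ∧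
      ∏' i, I0 (2 * κ * c i) ≤ E) {ε : ℝ} (hε : 0 < ε) : ∃ᶠ y in atTop, (∑' i, 2 * c i) - ε ≤ h y := by
  classical
  obtain ⟨G, hG⟩ : ∃ G : ℝ, G = ∑' i, 2 * c i := ⟨_, rfl⟩
  have hG0 : 0 ≤ G := by rw [hG]; exact tsum_nonneg fun i => by have := hc i; linarith
  rw [← hG]
  by_contra hcon
  rw [not_frequently] at hcon
  have hM : ∀ᶠ y in atTop, h y ≤ G - ε := hcon.mono fun y hy => (not_le.1 hy).le
  -- a finite set of frequencies
  obtain ⟨F, hF⟩ : ∃ F : Finset ι, G - ε / 4 ≤ ∑ i ∈ F, 2 * c i := by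
    have h1 : Tendsto (fun F : Finset ι => ∑ i ∈ F, 2 * c i) atTop (𝓝 G) := by
      rw [hG]; exact (hs.mul_left 2).hasSum
    obtain ⟨F, hF⟩ := (h1.eventually (lt_mem_nhds (show G - ε / 4 < G by linarith))).exists
    exact ⟨F, hF.le⟩
  have hFG : ∑ i ∈ F, 2 * c i ≤ G := by
    rw [hG]
    exact (hs.mul_left 2).sum_le_tsum F fun i _ => by have := hc i; linarith
  -- a small angle
  obtain ⟨δ, hδ0, hδ1, hδ⟩ : ∃ δ : ℝ, 0 < δ ∧ δ ≤ 1 / 2 ∧ 1 - ε / (4 * (G + 1)) ≤ Real.cos (2 * Real.pi * δ) := by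
    have h1 : Tendsto (fun δ : ℝ => Real.cos (2 * Real.pi * δ)) (𝓝[>] 0) (𝓝 (Real.cos (2 * Real.pi * 0))) :=
      ((by fun_prop : Continuous fun δ : ℝ => Real.cos (2 * Real.pi * δ)).tendsto 0).mono_left nhdsWithin_le_nhds
    rw [mul_zero, Real.cos_zero] at h1
    have h2 : 1 - ε / (4 * (G + 1)) < 1 := by
      have : 0 < ε / (4 * (G + 1)) := by positivity
      linarith
    have h3 : ∀ᶠ δ : ℝ in 𝓝[>] 0, δ < 1 / 2 := nhdsWithin_le_nhds (gt_mem_nhds (by norm_num))
    obtain ⟨δ, h4, h5, h6⟩ := ((h1.eventually (lt_mem_nhds h2)).and (h3.and self_mem_nhdsWithin)).exists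
    exact ⟨δ, h6, h5.le, h4.le⟩
  have hsum : G - ε / 2 ≤ (∑ i ∈ F, 2 * c i) * Real.cos (2 * Real.pi * δ) := by
    have h0 : 0 ≤ ∑ i ∈ F, 2 * c i := Finset.sum_nonneg fun i _ => by have := hc i; linarith
    have h1 : (∑ i ∈ F, 2 * c i) * (1 - ε / (4 * (G + 1))) ≤ (∑ i ∈ F, 2 * c i) * Real.cos (2 * Real.pi * δ) :=
      mul_le_mul_of_nonneg_left hδ h0
    have h2 : (∑ i ∈ F, 2 * c i) * (ε / (4 * (G + 1))) ≤ ε / 4 := by
      calc (∑ i ∈ F, 2 * c i) * (ε / (4 * (G + 1))) ≤ (G + 1) * (ε / (4 * (G + 1))) := by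
            apply mul_le_mul_of_nonneg_right (by linarith) (by positivity)
        _ = ε / 4 := by field_simp
    linarith
  -- the comparison
  have hcomp : ∀ κ : ℝ, 0 < κ → δ ^ F.card * Real.exp (κ * (ε / 2)) ≤ 1 := by
    intro κ hκ
    obtain ⟨E, h1, h2, h3⟩ := hE κ hκ
    have h4 := em_lim_le hh hκ.le h1 hM
    have h5 : ∏ i ∈ F, I0 (2 * κ * c i) ≤ E := (prod_le_tprod h2 (fun i => one_le_I0 _) F).trans h3
    have h6 : ∏ i ∈ F, (δ * Real.exp ((2 * κ * c i) * Real.cos (2 * Real.pi * δ))) ≤ ∏ i ∈ F, I0 (2 * κ * c i) := by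
      refine Finset.prod_le_prod (fun i _ => by positivity) fun i _ => ?_
      exact I0_ge (by have := hc i; positivity) hδ0.le hδ1
    rw [Finset.prod_mul_distrib, Finset.prod_const, ← Real.exp_sum] at h6
    have h7 : ∑ i ∈ F, (2 * κ * c i) * Real.cos (2 * Real.pi * δ) =
        κ * ((∑ i ∈ F, 2 * c i) * Real.cos (2 * Real.pi * δ)) := by
      rw [Finset.sum_mul, Finset.mul_sum]
      refine Finset.sum_congr rfl fun i _ => ?_
      ring
    rw [h7] at h6
    have h8 : Real.exp (κ * (G - ε / 2)) ≤ Real.exp (κ * ((∑ i ∈ F, 2 * c i) * Real.cos (2 * Real.pi * δ))) :=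
      Real.exp_le_exp.2 (mul_le_mul_of_nonneg_left hsum hκ.le)
    have h9 : δ ^ F.card * Real.exp (κ * (G - ε / 2)) ≤ Real.exp (κ * (G - ε)) :=
      (mul_le_mul_of_nonneg_left h8 (by positivity)).trans (h6.trans (h5.trans h4))
    have h10 : Real.exp (κ * (G - ε / 2)) = Real.exp (κ * (ε / 2)) * Real.exp (κ * (G - ε)) := by
      rw [← Real.exp_add]; congr 1; ring
    rw [h10, ← mul_assoc] at h9
    exact le_of_mul_le_mul_right (by rwa [one_mul]) (Real.exp_pos (κ * (G - ε)))
  have hpos : 0 < δ ^ F.card := by positivity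
  have h1 : Tendsto (fun κ : ℝ => δ ^ F.card * Real.exp (κ * (ε / 2))) atTop atTop := by
    apply Tendsto.const_mul_atTop hpos
    exact Real.tendsto_exp_atTop.comp (tendsto_id.atTop_mul_const (by linarith))
  obtain ⟨κ, h2, h3⟩ := ((h1.eventually (eventually_gt_atTop 1)).and (eventually_gt_atTop 0)).exists
  exact absurd (hcomp κ h3) (not_le.2 h2)

/-- the upper limit of the series -/
lemma ts_large (hc : ∀ i, 0 < c i) (hs : Summable c) {ε : ℝ} (hε : 0 < ε) :
    ∃ᶠ y in atTop, (∑' i, 2 * c i) - ε ≤ TS c lam y := by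
  refine large (ts_cont hc hs) hc hs (fun κ hκ => ?_) hε
  obtain ⟨h1, -, E, h2, h3, -⟩ := Pool.Agent.N804.LI.mean ι c lam κ hκ hc hs
  exact ⟨E, h2, h1, h3⟩

/-- the lower limit of the series, without odd relations -/
lemma ts_small (hc : ∀ i, 0 < c i) (hs : Summable c) (h : ¬ OddRel lam) {ε : ℝ} (hε : 0 < ε) :
    ∃ᶠ y in atTop, TS c lam y ≤ -(∑' i, 2 * c i) + ε := by
  have h1 : ∃ᶠ y in atTop, (∑' i, 2 * c i) - ε ≤ -(TS c lam y) := by
    refine large (ts_cont hc hs).neg hc hs (fun κ hκ => ?_) hε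
    obtain ⟨h1, -, E, h2, h3, -⟩ := Pool.Agent.N804.LI.mean ι c lam κ hκ hc hs
    exact ⟨E, neg_lim_eq hc hs hκ.le h h2, h1, h3⟩
  exact h1.mono fun y hy => by linarith

/-- if the lower limit is reached there is no odd relation -/
lemma no_odd (hc : ∀ i, 0 < c i) (hs : Summable c)
    (h : ∀ ε : ℝ, 0 < ε → ∃ y : ℝ, TS c lam y ≤ -(∑' i, 2 * c i) + ε) : ¬ OddRel lam := by
  classical
  rintro ⟨n, hn, hodd⟩
  -- a sequence
  have h1 : ∀ k : ℕ, ∃ y : ℝ, TS c lam y ≤ -(∑' i, 2 * c i) + 1 / ((k : ℝ) + 1) := fun k => h _ (by positivity)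
  choose y hy using h1
  have hcos : ∀ i, Tendsto (fun k => Real.cos (lam i * y k)) atTop (𝓝 (-1)) := by
    intro i
    have h2 : ∀ k, 2 * c i * (1 + Real.cos (lam i * y k)) ≤ 1 / ((k : ℝ) + 1) := by
      intro k
      have hsum : Summable fun j => 2 * c j * (1 + Real.cos (lam j * y k)) := by
        have : (fun j => 2 * c j * (1 + Real.cos (lam j * y k))) =
            fun j => 2 * c j + 2 * c j * Real.cos (lam j * y k) := by funext j; ring
        rw [this]
        exact (hs.mul_left 2).add (Summable.of_norm_bounded (hs.mul_left 2) fun j => ts_term hc j _)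
      have h3 : ∑' j, 2 * c j * (1 + Real.cos (lam j * y k)) = (∑' j, 2 * c j) + TS c lam (y k) := by
        unfold TS
        rw [← (hs.mul_left 2).tsum_add (Summable.of_norm_bounded (hs.mul_left 2) fun j => ts_term hc j _)]
        exact tsum_congr fun j => by ring
      have h4 := hsum.le_tsum i fun j _ => by
        have := Real.neg_one_le_cos (lam j * y k)
        have := hc j
        exact mul_nonneg (by linarith) (by linarith)
      rw [h3] at h4
      have := hy k
      linarith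
    have h5 : Tendsto (fun k : ℕ => -1 + 1 / (2 * c i) * (1 / ((k : ℝ) + 1))) atTop (𝓝 (-1 + 1 / (2 * c i) * 0)) :=
      (tendsto_one_div_add_atTop_nhds_zero_nat.const_mul _).const_add _
    rw [mul_zero, add_zero] at h5
    refine tendsto_of_tendsto_of_tendsto_of_le_of_le tendsto_const_nhds h5 (fun k => Real.neg_one_le_cos _) fun k => ?_
    have h6 := h2 k
    have h7 := hc i
    have h8 : 1 + Real.cos (lam i * y k) ≤ 1 / (2 * c i) * (1 / ((k : ℝ) + 1)) := by
      rw [div_mul_eq_mul_div, le_div_iff₀ (by linarith), one_mul]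
      linarith
    simp only
    linarith
  have hexp : ∀ i, Tendsto (fun k => Complex.exp (((lam i * y k : ℝ) : ℂ) * Complex.I)) atTop (𝓝 (-1)) := by
    intro i
    have h2 := hcos i
    have h3 : Tendsto (fun k => Real.sin (lam i * y k)) atTop (𝓝 0) := by
      rw [tendsto_zero_iff_abs_tendsto_zero]
      have h4 : ∀ k, |Real.sin (lam i * y k)| = Real.sqrt (1 - Real.cos (lam i * y k) ^ 2) := fun k =>
        Real.abs_sin_eq_sqrt_one_sub_cos_sq _
      simp only [Function.comp_def, h4]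
      have h5 := ((h2.pow 2).const_sub 1)
      have h6 := (Real.continuous_sqrt.tendsto _).comp h5
      have e : Real.sqrt (1 - (-1) ^ 2) = 0 := by norm_num
      rw [e] at h6
      exact h6
    have h4 : ∀ k, Complex.exp (((lam i * y k : ℝ) : ℂ) * Complex.I) =
        ((Real.cos (lam i * y k) : ℝ) : ℂ) + ((Real.sin (lam i * y k) : ℝ) : ℂ) * Complex.I := by
      intro k
      rw [Complex.exp_mul_I, Complex.ofReal_cos, Complex.ofReal_sin]
    simp_rw [h4]
    have h5 := ((Complex.continuous_ofReal.tendsto _).comp h2).add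
      (((Complex.continuous_ofReal.tendsto _).comp h3).mul_const Complex.I)
    simpa using h5
  -- the product
  have hprod : Tendsto (fun k => ∏ i ∈ n.support, Complex.exp (((lam i * y k : ℝ) : ℂ) * Complex.I) ^ (n i)) atTop
      (𝓝 (∏ i ∈ n.support, (-1 : ℂ) ^ (n i))) :=
    tendsto_finsetProd _ fun i _ => (hexp i).zpow₀ _ (Or.inl (by norm_num))
  have e1 : ∀ k, ∏ i ∈ n.support, Complex.exp (((lam i * y k : ℝ) : ℂ) * Complex.I) ^ (n i) = 1 := by
    intro k
    have e2 : ∀ i, Complex.exp (((lam i * y k : ℝ) : ℂ) * Complex.I) ^ (n i) =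
        Complex.exp ((((n i : ℝ) * lam i * y k : ℝ) : ℂ) * Complex.I) := by
      intro i
      rw [← Complex.exp_int_mul]
      congr 1
      push_cast
      ring
    simp_rw [e2]
    rw [← Complex.exp_sum, ← Finset.sum_mul]
    have e3 : ∑ i ∈ n.support, (((n i : ℝ) * lam i * y k : ℝ) : ℂ) =
        (((n.sum fun i k => (k : ℝ) * lam i) * y k : ℝ) : ℂ) := by
      rw [Finsupp.sum, Finset.sum_mul]
      push_cast
      rfl
    rw [e3, hn]
    simp
  have e4 : ∏ i ∈ n.support, (-1 : ℂ) ^ (n i) = -1 := by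
    have e5 : ∀ s : Finset ι, ∏ i ∈ s, (-1 : ℂ) ^ (n i) = (-1) ^ (∑ i ∈ s, n i) := by
      intro s
      induction s using Finset.induction_on with
      | empty => simp
      | insert a s ha ih => rw [Finset.prod_insert ha, Finset.sum_insert ha, ih, zpow_add₀ (by norm_num)]
    rw [e5]
    exact hodd.neg_one_zpow
  simp_rw [e1] at hprod
  rw [e4] at hprod
  have := tendsto_nhds_unique hprod tendsto_const_nhds
  norm_num at this

end trig

end Pool.Agent.H862.EC
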