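import Pool.Agent.H862.EC.Dens

/-!
# Littlewood's theorem for the sums of the coefficients: the real variable part
-/

set_option autoImplicit false
set_option linter.unusedSectionVars false

open Complex Filter Topology Set CongruenceSubgroup MeasureTheory
open scoped MatrixGroups ComplexConjugate
open Pool.Agent.TH941 (Hecke)
open Pool.Agent.NH98.RT.Xi
open Pool.Agent.H862.EL (SysL Sys m0 cf od)

namespace Pool.Agent.H862.EC

/-- the summatory function -/
noncomputable def Dl (a : ℕ → ℝ) (t : ℝ) : ℝ := ∑ n ∈ Finset.Icc 1 ⌊t⌋₊, a n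

lemma icc0 (a : ℕ → ℝ) (h0 : a 0 = 0) (m : ℕ) : ∑ n ∈ Finset.Icc 0 m, a n = ∑ n ∈ Finset.Icc 1 m, a n := by
  refine (Finset.sum_subset (Finset.Icc_subset_Icc_left (Nat.zero_le 1)) fun n hn hn' => ?_).symm
  rw [Finset.mem_Icc] at hn hn'
  have : n = 0 := by omega
  rw [this, h0]

lemma Dl_ii (a : ℕ → ℝ) (x X : ℝ) : IntervalIntegrable (Dl a) volume x X := by
  have hm : Measurable (Dl a) := by
    have h1 : Measurable (fun m : ℕ => ∑ n ∈ Finset.Icc 1 m, a n) := measurable_from_nat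
    exact h1.comp Nat.measurable_floor
  have hb : ∀ t ∈ Set.uIoc x X, ‖Dl a t‖ ≤ ∑ n ∈ Finset.Icc 1 ⌊max x X⌋₊, |a n| := by
    intro t ht
    unfold Dl
    rw [Real.norm_eq_abs]
    refine (Finset.abs_sum_le_sum_abs _ _).trans (Finset.sum_le_sum_of_subset_of_nonneg ?_ fun _ _ _ => abs_nonneg _)
    apply Finset.Icc_subset_Icc_right
    apply Nat.floor_le_floor
    rw [Set.mem_uIoc] at ht
    rcases ht with h | h
    · exact h.2.trans (le_max_right _ _)
    · exact h.2.trans (le_max_left _ _)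
  rw [intervalIntegrable_iff]
  refine Measure.integrableOn_of_bounded (M := ∑ n ∈ Finset.Icc 1 ⌊max x X⌋₊, |a n|) ?_ hm.aestronglyMeasurable ?_
  · rw [Set.uIoc, Real.volume_Ioc]
    exact ENNReal.ofReal_ne_top
  · rw [ae_restrict_iff' measurableSet_uIoc]
    exact Eventually.of_forall hb

lemma Dl_int (a : ℕ → ℝ) {x X : ℝ} (hx : 0 < x) (hX : x ≤ X) :
    IntervalIntegrable (fun t => Dl a t / t ^ 3) volume x X := by
  have h1 : ContinuousOn (fun t : ℝ => (t ^ 3)⁻¹) (Set.uIcc x X) := by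
    rw [Set.uIcc_of_le hX]
    refine ContinuousOn.inv₀ (by fun_prop) fun t ht => ?_
    have : 0 < t := hx.trans_le ht.1
    positivity
  exact (Dl_ii a x X).mul_continuousOn h1

/-- partial summation -/
lemma abel (a : ℕ → ℝ) (h0 : a 0 = 0) {x X : ℝ} (hx : 0 < x) (hX : x ≤ X) :
    ∑ n ∈ Finset.Ioc ⌊x⌋₊ ⌊X⌋₊, a n / (n : ℝ) ^ 2 = Dl a X / X ^ 2 - Dl a x / x ^ 2 +
      2 * ∫ t in x..X, Dl a t / t ^ 3 := by
  have hd : ∀ t : ℝ, 0 < t → HasDerivAt (fun t : ℝ => (t ^ 2)⁻¹) (-2 * (t ^ 3)⁻¹) t := by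
    intro t ht
    have h1 := (hasDerivAt_pow 2 t).inv (by positivity)
    refine h1.congr_deriv ?_
    norm_num
    field_simp
  have hdc : ContinuousOn (fun t : ℝ => -2 * (t ^ 3)⁻¹) (Set.Icc x X) := by
    refine ContinuousOn.mul continuousOn_const (ContinuousOn.inv₀ (by fun_prop) fun t ht => ?_)
    have : 0 < t := hx.trans_le ht.1
    positivity
  have h := sum_mul_eq_sub_sub_integral_mul (f := fun t : ℝ => (t ^ 2)⁻¹) a hx.le hX
    (fun t ht => (hd t (hx.trans_le ht.1)).differentiableAt) (by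
      refine (hdc.congr fun t ht => ?_).integrableOn_Icc
      exact (hd t (hx.trans_le ht.1)).deriv)
  have e1 : ∑ n ∈ Finset.Ioc ⌊x⌋₊ ⌊X⌋₊, a n / (n : ℝ) ^ 2 = ∑ n ∈ Finset.Ioc ⌊x⌋₊ ⌊X⌋₊, ((n : ℝ) ^ 2)⁻¹ * a n :=
    Finset.sum_congr rfl fun n _ => by rw [div_eq_mul_inv, mul_comm]
  rw [e1, h, icc0 a h0, icc0 a h0, intervalIntegral.integral_of_le hX, ← integral_const_mul]
  have e2 : ∫ t in Set.Ioc x X, deriv (fun t : ℝ => (t ^ 2)⁻¹) t * ∑ k ∈ Finset.Icc 0 ⌊t⌋₊, a k =
      -∫ t in Set.Ioc x X, 2 * (Dl a t / t ^ 3) := by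
    rw [← integral_neg]
    refine setIntegral_congr_fun measurableSet_Ioc fun t ht => ?_
    rw [(hd t (hx.trans ht.1)).deriv, icc0 a h0]
    unfold Dl
    ring
  rw [e2]
  unfold Dl
  ring

/-- comparison with an antiderivative -/
lemma cmp (a : ℕ → ℝ) {x X : ℝ} (hx : 0 < x) (hX : x ≤ X) {F g : ℝ → ℝ} (hF : ∀ t : ℝ, 0 < t → HasDerivAt F (g t) t)
    (hg : ContinuousOn g (Set.Icc x X)) (H : ∀ t ∈ Set.Icc x X, Dl a t ≤ t ^ 3 * g t) :
    ∫ t in x..X, Dl a t / t ^ 3 ≤ F X - F x := by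
  have hgi : IntervalIntegrable g volume x X := by
    apply ContinuousOn.intervalIntegrable
    rwa [Set.uIcc_of_le hX]
  rw [← intervalIntegral.integral_eq_sub_of_hasDerivAt (f := F) (f' := g) (fun t ht => ?_) hgi]
  · refine intervalIntegral.integral_mono_on hX (Dl_int a hx hX) hgi fun t ht => ?_
    have ht0 : 0 < t := hx.trans_le ht.1
    rw [div_le_iff₀ (by positivity), mul_comm]
    exact H t ht
  · rw [Set.uIcc_of_le hX] at ht
    exact hF t (hx.trans_le ht.1)

lemma cmp_one (a : ℕ → ℝ) {x X : ℝ} (hx : 0 < x) (hX : x ≤ X) {M : ℝ} (H : ∀ t ∈ Set.Icc x X, Dl a t ≤ M * t) :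
    ∫ t in x..X, Dl a t / t ^ 3 ≤ M / x - M / X := by
  have h := cmp a hx hX (F := fun t => -(M / t)) (g := fun t => M / t ^ 2) (fun t ht => ?_) ?_ fun t ht => ?_
  · refine h.trans (le_of_eq ?_)
    ring
  · have h1 := ((hasDerivAt_inv ht.ne').const_mul M).neg
    refine (h1.congr_deriv ?_).congr_of_eventuallyEq (Eventually.of_forall fun s => ?_)
    · field_simp
    · simp [div_eq_mul_inv]
  · refine ContinuousOn.div continuousOn_const (by fun_prop) fun t ht => ?_
    have : 0 < t := hx.trans_le ht.1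
    positivity
  · have ht0 : 0 < t := hx.trans_le ht.1
    refine (H t ht).trans (le_of_eq ?_)
    field_simp

lemma cmp_log (a : ℕ → ℝ) {x X : ℝ} (hx : 0 < x) (hX : x ≤ X) {M : ℝ}
    (H : ∀ t ∈ Set.Icc x X, Dl a t ≤ M * (t * Real.log t)) :
    ∫ t in x..X, Dl a t / t ^ 3 ≤ M * ((Real.log x + 1) / x) - M * ((Real.log X + 1) / X) := by
  have h := cmp a hx hX (F := fun t => -(M * ((Real.log t + 1) / t))) (g := fun t => M * (Real.log t / t ^ 2))
    (fun t ht => ?_) ?_ fun t ht => ?_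
  · refine h.trans (le_of_eq ?_)
    ring
  · have h1 := ((((Real.hasDerivAt_log ht.ne').add_const 1).div (hasDerivAt_id t) ht.ne').const_mul M).neg
    refine h1.congr_deriv ?_
    simp only [id]
    field_simp
    ring
  · refine ContinuousOn.mul continuousOn_const (ContinuousOn.div (fun t ht => ?_) (by fun_prop) fun t ht => ?_)
    · have : 0 < t := hx.trans_le ht.1
      exact (Real.continuousAt_log this.ne').continuousWithinAt
    · have : 0 < t := hx.trans_le ht.1
      positivity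
  · have ht0 : 0 < t := hx.trans_le ht.1
    refine (H t ht).trans (le_of_eq ?_)
    field_simp

section
variable {N : ℕ} [NeZero N] {f : CuspForm (Gamma0 N : Subgroup (GL (Fin 2) ℝ)) 2}

lemma dl_zero : dl f 0 = 0 := by
  unfold dl
  rw [bf_zero]
  simp

lemma tail_sum (a : ℕ → ℝ) {m n : ℕ} (h : m ≤ n) :
    ∑ k ∈ Finset.Icc 1 n, a k = ∑ k ∈ Finset.Icc 1 m, a k + ∑ k ∈ Finset.Ioc m n, a k := by
  rw [← Finset.sum_union]
  · congr 1
    ext k
    simp only [Finset.mem_Icc, Finset.mem_union, Finset.mem_Ioc]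
    omega
  · rw [Finset.disjoint_left]
    intro k hk hk'
    rw [Finset.mem_Icc] at hk
    rw [Finset.mem_Ioc] at hk'
    omega

/-- the step of the weighted sum -/
lemma PA_shift (y : ℝ) {h : ℝ} (hh : 0 ≤ h) :
    PA f y = Real.exp (-h) * PA f (y + h) + Real.exp y * ∫ t in Real.exp y..Real.exp (y + h), Dl (dl f) t / t ^ 3 := by
  have hX : Real.exp y ≤ Real.exp (y + h) := Real.exp_le_exp.2 (by linarith)
  have h1 := abel (dl f) dl_zero (Real.exp_pos y) hX
  have h2 := tail_sum (fun n => dl f n / (n : ℝ) ^ 2) (Nat.floor_le_floor hX)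
  obtain ⟨J, hJ⟩ : ∃ J : ℝ, J = ∫ t in Real.exp y..Real.exp (y + h), Dl (dl f) t / t ^ 3 := ⟨_, rfl⟩
  rw [← hJ] at h1 ⊢
  rw [h1] at h2
  unfold PA P2
  have e1 : ∀ t : ℝ, (∑ n ∈ Finset.Icc 1 ⌊t⌋₊, dl f n) = Dl (dl f) t := fun t => rfl
  rw [e1, e1, h2]
  obtain ⟨x, hx⟩ : ∃ x : ℝ, x = Real.exp y := ⟨_, rfl⟩
  obtain ⟨q, hq⟩ : ∃ q : ℝ, q = Real.exp h := ⟨_, rfl⟩
  have hx0 : 0 < x := by rw [hx]; exact Real.exp_pos _
  have hq0 : 0 < q := by rw [hq]; exact Real.exp_pos _
  have e2 : Real.exp (y + h) = x * q := by rw [Real.exp_add, hx, hq]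
  have e3 : Real.exp (-y) = x⁻¹ := by rw [Real.exp_neg, hx]
  have e4 : Real.exp (-h) = q⁻¹ := by rw [Real.exp_neg, hq]
  have e5 : Real.exp (-(y + h)) = (x * q)⁻¹ := by rw [Real.exp_neg, e2]
  rw [e2, e3, e4, e5, ← hx]
  field_simp
  ring

/-- the step with a linear majorant -/
lemma PA_drop (y : ℝ) {h M : ℝ} (hh : 0 ≤ h) (hM : 0 ≤ M)
    (H : ∀ t ∈ Set.Icc (Real.exp y) (Real.exp (y + h)), Dl (dl f) t ≤ M * t) :
    PA f y - PA f (y + h) ≤ h * (M + |PA f (y + h)|) := by
  have hX : Real.exp y ≤ Real.exp (y + h) := Real.exp_le_exp.2 (by linarith)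
  have h1 := PA_shift (f := f) y hh
  have h2 := mul_le_mul_of_nonneg_left (cmp_one (dl f) (Real.exp_pos y) hX H) (Real.exp_pos y).le
  have e1 : Real.exp y * (M / Real.exp y - M / Real.exp (y + h)) = M * (1 - Real.exp (-h)) := by
    rw [Real.exp_add, Real.exp_neg]
    have := Real.exp_pos y
    have := Real.exp_pos h
    field_simp
  rw [e1] at h2
  have h3 : 1 - Real.exp (-h) ≤ h := by
    have := Real.add_one_le_exp (-h)
    linarith
  have h4 : 0 ≤ 1 - Real.exp (-h) := by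
    have := Real.exp_le_one_iff.2 (show -h ≤ 0 by linarith)
    linarith
  have h5 : -(1 - Real.exp (-h)) * PA f (y + h) ≤ (1 - Real.exp (-h)) * |PA f (y + h)| := by
    have := neg_abs_le (PA f (y + h))
    nlinarith
  have h6 : (1 - Real.exp (-h)) * (M + |PA f (y + h)|) ≤ h * (M + |PA f (y + h)|) :=
    mul_le_mul_of_nonneg_right h3 (by positivity)
  nlinarith

/-- comparison with an antiderivative, from below -/
lemma cmp_low (a : ℕ → ℝ) {x X : ℝ} (hx : 0 < x) (hX : x ≤ X) {M : ℝ} (H : ∀ t ∈ Set.Icc x X, -(M * t) ≤ Dl a t) :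
    -(M / x - M / X) ≤ ∫ t in x..X, Dl a t / t ^ 3 := by
  have hneg : ∀ t : ℝ, Dl (fun n => -a n) t = -Dl a t := by
    intro t
    unfold Dl
    rw [Finset.sum_neg_distrib]
  have h := cmp_one (fun n => -a n) hx hX (M := M) fun t ht => by
    rw [hneg]
    have := H t ht
    linarith
  have e : ∫ t in x..X, Dl (fun n => -a n) t / t ^ 3 = -∫ t in x..X, Dl a t / t ^ 3 := by
    rw [← intervalIntegral.integral_neg]
    refine intervalIntegral.integral_congr fun t _ => ?_
    show Dl (fun n => -a n) t / t ^ 3 = -(Dl a t / t ^ 3)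
    rw [hneg]
    ring
  rw [e] at h
  linarith

/-- the step with a linear minorant -/
lemma PA_rise (y : ℝ) {h M : ℝ} (hh : 0 ≤ h) (hM : 0 ≤ M)
    (H : ∀ t ∈ Set.Icc (Real.exp y) (Real.exp (y + h)), -(M * t) ≤ Dl (dl f) t) :
    PA f (y + h) - PA f y ≤ h * (M + |PA f (y + h)|) := by
  have hX : Real.exp y ≤ Real.exp (y + h) := Real.exp_le_exp.2 (by linarith)
  have h1 := PA_shift (f := f) y hh
  have h2 := mul_le_mul_of_nonneg_left (cmp_low (dl f) (Real.exp_pos y) hX H) (Real.exp_pos y).le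
  have e1 : Real.exp y * -(M / Real.exp y - M / Real.exp (y + h)) = -(M * (1 - Real.exp (-h))) := by
    rw [Real.exp_add, Real.exp_neg]
    have := Real.exp_pos y
    have := Real.exp_pos h
    field_simp
  rw [e1] at h2
  have h3 : 1 - Real.exp (-h) ≤ h := by
    have := Real.add_one_le_exp (-h)
    linarith
  have h4 : 0 ≤ 1 - Real.exp (-h) := by
    have := Real.exp_le_one_iff.2 (show -h ≤ 0 by linarith)
    linarith
  have h5 : (1 - Real.exp (-h)) * PA f (y + h) ≤ (1 - Real.exp (-h)) * |PA f (y + h)| := by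
    have := le_abs_self (PA f (y + h))
    nlinarith
  have h6 : (1 - Real.exp (-h)) * (M + |PA f (y + h)|) ≤ h * (M + |PA f (y + h)|) :=
    mul_le_mul_of_nonneg_right h3 (by positivity)
  nlinarith

/-- the sum is small compared with `e^y` -/
lemma PA_small (hf : Hecke f) : Tendsto (fun y : ℝ => Real.exp (-y) * PA f y) atTop (𝓝 0) := by
  have hexp : Tendsto (fun y : ℝ => ⌊Real.exp y⌋₊) atTop atTop := tendsto_nat_floor_atTop.comp Real.tendsto_exp_atTop
  have h1 : Tendsto (fun y : ℝ => S2 f - ∑ n ∈ Finset.Icc 1 ⌊Real.exp y⌋₊, dl f n / (n : ℝ) ^ 2) atTop (𝓝 0) := by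
    have h2 := (bf_div_summable hf).hasSum.tendsto_sum_nat
    have h3 : Tendsto (fun m : ℕ => ∑ n ∈ Finset.Icc 1 m, dl f n / (n : ℝ) ^ 2) atTop (𝓝 (S2 f)) := by
      have h4 := h2.comp (tendsto_add_atTop_nat 1)
      refine h4.congr fun m => ?_
      have e : Finset.range (m + 1) = Finset.Icc 0 m := by
        ext k
        rw [Finset.mem_range, Finset.mem_Icc]
        omega
      simp only [Function.comp]
      rw [e, icc0 _ (by rw [dl_zero, zero_div])]
    have h5 := (h3.comp hexp).const_sub (S2 f)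
    rw [sub_self] at h5
    exact h5
  have h2 : Tendsto (fun y : ℝ => Real.exp (-(2 * y)) * Dl (dl f) (Real.exp y)) atTop (𝓝 0) := by
    have h3 : ∀ y : ℝ, 0 ≤ y → ‖Real.exp (-(2 * y)) * Dl (dl f) (Real.exp y)‖ ≤ 8 * Real.exp (-(1 / 4) * y) := by
      intro y hy
      rw [norm_mul, Real.norm_of_nonneg (Real.exp_pos _).le]
      have h4 : ‖Dl (dl f) (Real.exp y)‖ ≤ 8 * Real.exp (7 / 4 * y) := by
        unfold Dl
        refine (norm_sum_le _ _).trans ?_
        have h5 : ∀ n ∈ Finset.Icc 1 ⌊Real.exp y⌋₊, ‖dl f n‖ ≤ 8 * Real.exp (3 / 4 * y) := by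
          intro n hn
          rw [Finset.mem_Icc] at hn
          have h6 : ‖dl f n‖ ≤ ‖bf f n‖ := by
            unfold dl
            rw [norm_neg, Real.norm_eq_abs]
            exact Complex.abs_re_le_norm _
          have h7 := bf_le' hf (show (0 : ℝ) < 1 / 4 by norm_num) n
          have h8 : (n : ℝ) ≤ Real.exp y := (Nat.le_floor_iff (Real.exp_pos y).le).1 hn.2
          have h9 : (n : ℝ) ^ (1 / 2 + 1 / 4 : ℝ) ≤ Real.exp (3 / 4 * y) := by
            calc (n : ℝ) ^ (1 / 2 + 1 / 4 : ℝ) ≤ (Real.exp y) ^ (1 / 2 + 1 / 4 : ℝ) :=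
                  Real.rpow_le_rpow (Nat.cast_nonneg n) h8 (by norm_num)
              _ = _ := by
                  rw [← Real.exp_mul]
                  congr 1
                  ring
          refine h6.trans (h7.trans ?_)
          norm_num at h9 ⊢
          linarith
        refine (Finset.sum_le_card_nsmul _ _ _ h5).trans ?_
        rw [Nat.card_Icc, nsmul_eq_mul]
        have h6 : ((⌊Real.exp y⌋₊ + 1 - 1 : ℕ) : ℝ) ≤ Real.exp y := by
          rw [Nat.add_sub_cancel]
          exact Nat.floor_le (Real.exp_pos y).le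
        calc ((⌊Real.exp y⌋₊ + 1 - 1 : ℕ) : ℝ) * (8 * Real.exp (3 / 4 * y)) ≤ Real.exp y * (8 * Real.exp (3 / 4 * y)) :=
              mul_le_mul_of_nonneg_right h6 (by positivity)
          _ = 8 * Real.exp (7 / 4 * y) := by
              rw [mul_left_comm, ← Real.exp_add]
              congr 2
              ring
      calc Real.exp (-(2 * y)) * ‖Dl (dl f) (Real.exp y)‖ ≤ Real.exp (-(2 * y)) * (8 * Real.exp (7 / 4 * y)) :=
            mul_le_mul_of_nonneg_left h4 (Real.exp_pos _).le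
        _ = _ := by
            rw [mul_left_comm, ← Real.exp_add]
            congr 2
            ring
    have h4 : Tendsto (fun y : ℝ => 8 * Real.exp (-(1 / 4) * y)) atTop (𝓝 0) := by
      have h5 : Tendsto (fun y : ℝ => -(1 / 4) * y) atTop atBot :=
        tendsto_id.const_mul_atTop_of_neg (by norm_num)
      have := (Real.tendsto_exp_atBot.comp h5).const_mul 8
      rw [mul_zero] at this
      exact this
    refine squeeze_zero_norm' ?_ h4
    filter_upwards [eventually_ge_atTop (0 : ℝ)] with y hy using h3 y hy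
  have h3 := (h2.add h1).const_mul (1 / 2)
  rw [add_zero, mul_zero] at h3
  refine h3.congr fun y => ?_
  unfold PA P2 Dl
  have e1 : Real.exp (-y) * Real.exp y = 1 := by rw [← Real.exp_add]; simp
  have e2 : Real.exp (-(2 * y)) = Real.exp (-y) * Real.exp (-y) := by
    rw [← Real.exp_add]
    congr 1
    ring
  rw [e2]
  linear_combination (-(1 / 2) * (S2 f - ∑ n ∈ Finset.Icc 1 ⌊Real.exp y⌋₊, dl f n / (n : ℝ) ^ 2)) * e1

/-- an upper bound with a logarithm -/
lemma PA_log (hf : Hecke f) {δ Y : ℝ} (hδ : 0 ≤ δ) (H : ∀ t : ℝ, Real.exp Y ≤ t → Dl (dl f) t ≤ δ * (t * Real.log t))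
    {y : ℝ} (hy : Y ≤ y) (hy0 : 0 ≤ y) : PA f y ≤ δ * (y + 1) := by
  have h1 : ∀ h : ℝ, 0 ≤ h → PA f y - δ * (y + 1) ≤ Real.exp y * (Real.exp (-(y + h)) * PA f (y + h)) := by
    intro h hh
    have hX : Real.exp y ≤ Real.exp (y + h) := Real.exp_le_exp.2 (by linarith)
    have h1 := PA_shift (f := f) y hh
    have h2 := mul_le_mul_of_nonneg_left (cmp_log (dl f) (Real.exp_pos y) hX (M := δ) (fun t ht => H t
      ((Real.exp_le_exp.2 hy).trans ht.1))) (Real.exp_pos y).le
    rw [Real.log_exp, Real.log_exp] at h2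
    have e1 : Real.exp y * (δ * ((y + 1) / Real.exp y) - δ * ((y + h + 1) / Real.exp (y + h))) =
        δ * (y + 1) - Real.exp y * (δ * ((y + h + 1) / Real.exp (y + h))) := by
      have := Real.exp_pos y
      field_simp
    rw [e1] at h2
    have h3 : 0 ≤ Real.exp y * (δ * ((y + h + 1) / Real.exp (y + h))) := by positivity
    have e2 : Real.exp (-h) = Real.exp y * Real.exp (-(y + h)) := by
      rw [← Real.exp_add]
      congr 1
      ring
    rw [e2] at h1
    nlinarith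
  have h2 : Tendsto (fun h : ℝ => Real.exp y * (Real.exp (-(y + h)) * PA f (y + h))) atTop (𝓝 0) := by
    have := ((PA_small hf).comp (tendsto_atTop_add_const_left atTop y tendsto_id)).const_mul (Real.exp y)
    rw [mul_zero] at this
    exact this
  have h3 := ge_of_tendsto h2 ((eventually_ge_atTop (0 : ℝ)).mono fun h hh => h1 h hh)
  linarith

end

end Pool.Agent.H862.EC
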