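import Pool.Agent.H862.EC.LitL
import Pool.Agent.H862.EL.Grow

/-!
# Littlewood's theorem without hypotheses, and the primes
-/

set_option autoImplicit false
set_option linter.unusedSectionVars false

open Complex Filter Topology Set CongruenceSubgroup MeasureTheory
open scoped MatrixGroups ComplexConjugate
open Pool.Agent.TH941 (Hecke)
open Pool.Agent.W165.RS (ac ac_zero)
open Pool.Agent.NH98.RT.Xi
open Pool.Agent.H862.EL (SysL Sys m0 cf od)

namespace Pool.Agent.H862.EC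

lemma lll_small {δ : ℝ} (hδ : 0 < δ) : ∀ᶠ t : ℝ in atTop, Real.log (Real.log (Real.log t)) ≤ δ * Real.log t := by
  have h1 : ∀ᶠ u : ℝ in atTop, Real.log u ≤ δ * u := by
    have := (Real.isLittleO_log_id_atTop).bound hδ
    filter_upwards [this, eventually_ge_atTop (1 : ℝ)] with u hu h1
    rw [Real.norm_of_nonneg (Real.log_nonneg h1)] at hu
    simp only [id] at hu
    rwa [Real.norm_of_nonneg (by linarith)] at hu
  have h2 := Real.tendsto_log_atTop
  filter_upwards [h2.eventually h1, h2.eventually (h2.eventually (eventually_gt_atTop (0 : ℝ)))] with t ht1 ht2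
  have h3 := Real.log_le_sub_one_of_pos ht2
  linarith

section
variable {N : ℕ} [NeZero N] {f : CuspForm (Gamma0 N : Subgroup (GL (Fin 2) ℝ)) 2}

/-- **Littlewood's theorem off the Riemann hypothesis.** -/
theorem lit_off (hf : Hecke f) {ε : ℂ} (hε : ‖ε‖ = 1) (hfe : ∀ s : ℂ, xi f (-s) = ε * xi f s)
    (hl : ¬ ∀ k : ZX f, (k : ℂ).re = 0) :
    ∃ᶠ t : ℝ in atTop, 1 * (t * Real.log (Real.log (Real.log t))) ≤ Dl (dl f) t := by
  have H := fsys hf hε hfe
  obtain ⟨η, hη, hfr⟩ := Pool.Agent.H862.EL.lin_grow H.toSys (Pool.Agent.H862.EL.right_of_off H hl)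
  intro hcon
  obtain ⟨T, hT⟩ := eventually_atTop.1 (hcon.and ((lll_small (show 0 < η / 4 by positivity)).and
    (eventually_ge_atTop (1 : ℝ))))
  obtain ⟨Y, hY⟩ : ∃ Y : ℝ, Y = Real.log (max T 1) := ⟨_, rfl⟩
  have hYe : Real.exp Y = max T 1 := by rw [hY, Real.exp_log (by positivity)]
  have hup : ∀ t : ℝ, Real.exp Y ≤ t → Dl (dl f) t ≤ η / 4 * (t * Real.log t) := by
    intro t ht
    rw [hYe] at ht
    obtain ⟨h1, h2, h3⟩ := hT t ((le_max_left _ _).trans ht)
    push Not at h1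
    have h4 := mul_le_mul_of_nonneg_left h2 (show 0 ≤ t by linarith)
    linarith
  obtain ⟨y, h1, h2⟩ := (hfr.and_eventually (eventually_ge_atTop (max Y 2))).exists
  have h3 := PA_log hf (show 0 ≤ η / 4 by positivity) hup ((le_max_left _ _).trans h2)
    (by linarith [(le_max_right Y 2).trans h2])
  have h4 : 2 ≤ y := (le_max_right Y 2).trans h2
  nlinarith

/-- **Littlewood's theorem.** -/
theorem lit_all (hf : Hecke f) {ε : ℂ} (hε : ‖ε‖ = 1) (hfe : ∀ s : ℂ, xi f (-s) = ε * xi f s) :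
    ∃ c : ℝ, 0 < c ∧ ∃ᶠ t : ℝ in atTop, c * (t * Real.log (Real.log (Real.log t))) ≤ Dl (dl f) t := by
  by_cases hl : ∀ k : ZX f, (k : ℂ).re = 0
  · obtain ⟨c, hc, h1, -⟩ := lit_line hf hε hfe hl
    exact ⟨c, hc, h1⟩
  · exact ⟨1, one_pos, lit_off hf hε hfe hl⟩

/-- the sum over the primes -/
noncomputable def Ap (f : CuspForm (Gamma0 N : Subgroup (GL (Fin 2) ℝ)) 2) (t : ℝ) : ℝ :=
  ∑ p ∈ (Finset.Icc 1 ⌊t⌋₊).filter Nat.Prime, (ac f p).re * Real.log p

lemma dl_prime {p : ℕ} (hp : p.Prime) : dl f p = -((ac f p).re * Real.log p) := by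
  have h := bb_pow (c := ac f) (q := qN N) p 0 hp
  rw [zero_add, pow_one] at h
  unfold dl bf
  rw [h]
  have e : ps (ac f p) (qN N p) 1 = ac f p := by rw [ps]
  rw [e, Complex.re_mul_ofReal]

lemma dl_le (hf : Hecke f) (n : ℕ) : |dl f n| ≤ 2 * Real.sqrt n * ArithmeticFunction.vonMangoldt n := by
  have h0 : |dl f n| ≤ ‖bf f n‖ := by
    unfold dl
    rw [abs_neg]
    exact Complex.abs_re_le_norm _
  refine h0.trans ?_
  classical
  unfold bf
  by_cases h : IsPrimePow n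
  · obtain ⟨p, k, hp, hk, rfl⟩ := (isPrimePow_nat_iff n).1 h
    obtain ⟨j, rfl⟩ : ∃ j, k = j + 1 := ⟨k - 1, by omega⟩
    rw [bb_pow p j hp, norm_mul, Complex.norm_real, ArithmeticFunction.vonMangoldt_apply_pow (Nat.succ_ne_zero j),
      ArithmeticFunction.vonMangoldt_apply_prime hp]
    have hp1 : (1 : ℝ) ≤ p := by exact_mod_cast hp.one_le
    have hp0 : (0 : ℝ) < p := by linarith
    rw [Real.norm_of_nonneg (Real.log_nonneg hp1)]
    refine mul_le_mul_of_nonneg_right ?_ (Real.log_nonneg hp1)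
    have hsq : (1 : ℝ) ≤ Real.sqrt ((p ^ (j + 1) : ℕ) : ℝ) := by
      rw [Real.one_le_sqrt]
      push_cast
      exact one_le_pow₀ hp1
    by_cases hN : p ∣ N
    · have e : qN N p = 0 := by unfold qN; rw [if_pos hN]
      rw [e, ps_zero_q, norm_pow]
      have h1 := hf.bad p hp hN
      have h2 : ‖ac f p‖ ^ (j + 1) ≤ 1 := pow_le_one₀ (norm_nonneg _) h1
      linarith
    · have e : qN N p = (p : ℂ) := by unfold qN; rw [if_neg hN]
      have him : ac f p = ((ac f p).re : ℂ) := by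
        apply Complex.ext
        · simp
        · simp [hf.real p]
      have hb := hf.good p hp hN
      rw [him, Complex.norm_real, Real.norm_eq_abs] at hb
      obtain ⟨α, β, hα, hβ, hs, hm⟩ := Pool.Agent.TH941.exists_roots' hp0 hb
      have hs' : α + β = ac f p := by rw [hs, ← him]
      have hm' : α * β = (p : ℂ) := by rw [hm]; simp
      rw [e, ps_roots hs' hm']
      refine (norm_add_le _ _).trans ?_
      rw [norm_pow, norm_pow, hα, hβ, ← two_mul]
      refine le_of_eq ?_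
      congr 1
      push_cast
      rw [← Real.sqrt_sq (pow_nonneg (Real.sqrt_nonneg (p : ℝ)) (j + 1)), ← pow_mul, mul_comm (j + 1) 2, pow_mul,
        Real.sq_sqrt hp0.le]
  · rw [bb_zero h, norm_zero]
    have := ArithmeticFunction.vonMangoldt_nonneg (n := n)
    positivity

/-- the prime powers contribute little -/
lemma Dl_primes (hf : Hecke f) : ∃ C : ℝ, 0 ≤ C ∧ ∀ t : ℝ, 0 ≤ t → |Dl (dl f) t + Ap f t| ≤ C * t := by
  obtain ⟨C, hC⟩ := Chebyshev.psi_sub_theta_le_mul_sqrt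
  refine ⟨2 * |C|, by positivity, fun t ht => ?_⟩
  have e1 : Dl (dl f) t + Ap f t = ∑ n ∈ (Finset.Icc 1 ⌊t⌋₊).filter (fun n => ¬ n.Prime), dl f n := by
    unfold Dl Ap
    rw [← Finset.sum_filter_add_sum_filter_not (Finset.Icc 1 ⌊t⌋₊) Nat.Prime (dl f)]
    have : ∑ p ∈ (Finset.Icc 1 ⌊t⌋₊).filter Nat.Prime, dl f p =
        -∑ p ∈ (Finset.Icc 1 ⌊t⌋₊).filter Nat.Prime, (ac f p).re * Real.log p := by
      rw [← Finset.sum_neg_distrib]
      exact Finset.sum_congr rfl fun p hp => dl_prime (Finset.mem_filter.1 hp).2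
    rw [this]
    ring
  rw [e1]
  have e2 : Finset.Icc 1 ⌊t⌋₊ = Finset.Ioc 0 ⌊t⌋₊ := by
    ext n
    rw [Finset.mem_Icc, Finset.mem_Ioc]
    omega
  have h1 := Chebyshev.psi_sub_theta_eq_sum_not_prime t
  calc |∑ n ∈ (Finset.Icc 1 ⌊t⌋₊).filter (fun n => ¬ n.Prime), dl f n|
      ≤ ∑ n ∈ (Finset.Icc 1 ⌊t⌋₊).filter (fun n => ¬ n.Prime), |dl f n| := Finset.abs_sum_le_sum_abs _ _
    _ ≤ ∑ n ∈ (Finset.Icc 1 ⌊t⌋₊).filter (fun n => ¬ n.Prime), 2 * Real.sqrt t *
          ArithmeticFunction.vonMangoldt n := by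
        refine Finset.sum_le_sum fun n hn => (dl_le hf n).trans ?_
        have h2 : (n : ℝ) ≤ t := (Nat.le_floor_iff ht).1 (Finset.mem_Icc.1 (Finset.mem_filter.1 hn).1).2
        have h3 := Real.sqrt_le_sqrt h2
        have := ArithmeticFunction.vonMangoldt_nonneg (n := n)
        gcongr
    _ = 2 * Real.sqrt t * (Chebyshev.psi t - Chebyshev.theta t) := by
        rw [← Finset.mul_sum, e2, h1]
    _ ≤ 2 * Real.sqrt t * (|C| * Real.sqrt t) := by
        refine mul_le_mul_of_nonneg_left ((hC t).trans ?_) (by positivity)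
        exact mul_le_mul_of_nonneg_right (le_abs_self C) (Real.sqrt_nonneg t)
    _ = 2 * |C| * t := by
        have := Real.mul_self_sqrt ht
        linear_combination (2 * |C|) * this

lemma lll_big (M : ℝ) : ∀ᶠ t : ℝ in atTop, M ≤ Real.log (Real.log (Real.log t)) :=
  (Real.tendsto_log_atTop.comp (Real.tendsto_log_atTop.comp Real.tendsto_log_atTop)).eventually_ge_atTop M

/-- **Littlewood's theorem for the primes.** -/
theorem lit_primes (hf : Hecke f) {ε : ℂ} (hε : ‖ε‖ = 1) (hfe : ∀ s : ℂ, xi f (-s) = ε * xi f s) :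
    ∃ c : ℝ, 0 < c ∧ ∃ᶠ t : ℝ in atTop, Ap f t ≤ -(c * (t * Real.log (Real.log (Real.log t)))) := by
  obtain ⟨c, hc, h⟩ := lit_all hf hε hfe
  obtain ⟨C, hC0, hC⟩ := Dl_primes hf
  refine ⟨c / 2, by positivity, ?_⟩
  refine (h.and_eventually ((eventually_ge_atTop (0 : ℝ)).and (lll_big (2 * C / c)))).mono fun t ht => ?_
  obtain ⟨h1, h2, h3⟩ := ht
  have h4 := (abs_le.1 (hC t h2)).2
  rw [div_le_iff₀ hc] at h3
  have h5 := mul_le_mul_of_nonneg_right h3 h2
  nlinarith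

/-- **Littlewood's theorem for the primes, the other sign.** -/
theorem lit_primes_line (hf : Hecke f) {ε : ℂ} (hε : ‖ε‖ = 1) (hfe : ∀ s : ℂ, xi f (-s) = ε * xi f s)
    (hl : ∀ k : ZX f, (k : ℂ).re = 0) :
    ∃ c : ℝ, 0 < c ∧ ∃ᶠ t : ℝ in atTop, c * (t * Real.log (Real.log (Real.log t))) ≤ Ap f t := by
  obtain ⟨c, hc, -, h⟩ := lit_line hf hε hfe hl
  obtain ⟨C, hC0, hC⟩ := Dl_primes hf
  refine ⟨c / 2, by positivity, ?_⟩
  refine (h.and_eventually ((eventually_ge_atTop (0 : ℝ)).and (lll_big (2 * C / c)))).mono fun t ht => ?_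
  obtain ⟨h1, h2, h3⟩ := ht
  have h4 := (abs_le.1 (hC t h2)).1
  rw [div_le_iff₀ hc] at h3
  have h5 := mul_le_mul_of_nonneg_right h3 h2
  nlinarith

end

end Pool.Agent.H862.EC
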