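import Pool.Agent.H862.EC.Lit

/-!
# Littlewood's theorem on the Riemann hypothesis
-/

set_option autoImplicit false
set_option linter.unusedSectionVars false

open Complex Filter Topology Set CongruenceSubgroup MeasureTheory
open scoped MatrixGroups ComplexConjugate
open Pool.Agent.TH941 (Hecke)
open Pool.Agent.NH98.RT.Xi
open Pool.Agent.H862.EL (SysL Sys m0 cf od)

namespace Pool.Agent.H862.EC

/-- the size of the triple logarithm -/
lemma lll_le {n : ℕ} (hn : 3 ≤ n) {y t : ℝ} (hy : 8 * Real.log n ≤ y) (hy2 : y ≤ Real.exp ((n : ℝ) ^ 5))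
    (ht1 : Real.exp (y - 1) ≤ t) (ht2 : t ≤ Real.exp (y + 1)) :
    Real.log (Real.log (Real.log t)) ≤ 6 * Real.log n := by
  have hn3 : (3 : ℝ) ≤ n := by exact_mod_cast hn
  have hn0 : (0 : ℝ) < n := by linarith
  have hlog : 1 ≤ Real.log n := by
    rw [Real.le_log_iff_exp_le hn0]
    exact Real.exp_one_lt_three.le.trans hn3
  have ht0 : 0 < t := (Real.exp_pos _).trans_le ht1
  have h1 : y - 1 ≤ Real.log t := (Real.le_log_iff_exp_le ht0).2 ht1
  have h2 : Real.log t ≤ y + 1 := (Real.log_le_iff_le_exp ht0).2 ht2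
  have hx0 : (0 : ℝ) ≤ (n : ℝ) ^ 5 := by positivity
  have h3 : Real.log t ≤ Real.exp ((n : ℝ) ^ 5 + 1) := by
    rw [Real.exp_add]
    have h4 := Real.one_le_exp hx0
    have h5 := Real.add_one_le_exp (1 : ℝ)
    nlinarith
  have hlt : 1 < Real.log t := by linarith
  have h4 : Real.log (Real.log t) ≤ (n : ℝ) ^ 5 + 1 := (Real.log_le_iff_le_exp (by linarith)).2 h3
  have h5 : 0 < Real.log (Real.log t) := Real.log_pos hlt
  have h6 : (n : ℝ) ^ 5 + 1 ≤ (n : ℝ) ^ 6 := by
    have h7 : (1 : ℝ) ≤ (n : ℝ) ^ 5 := one_le_pow₀ (by linarith)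
    have h8 : (n : ℝ) ^ 6 = (n : ℝ) ^ 5 * n := pow_succ _ 5
    nlinarith
  calc Real.log (Real.log (Real.log t)) ≤ Real.log ((n : ℝ) ^ 6) := Real.log_le_log h5 (h4.trans h6)
    _ = 6 * Real.log n := by rw [Real.log_pow]; norm_num

section
variable {N : ℕ} [NeZero N] {f : CuspForm (Gamma0 N : Subgroup (GL (Fin 2) ℝ)) 2}

lemma PA_bdd (hf : Hecke f) {ε : ℂ} (hε : ‖ε‖ = 1) (hfe : ∀ s : ℂ, xi f (-s) = ε * xi f s)
    (hl : ∀ k : ZX f, (k : ℂ).re = 0) : ∃ B : ℝ, 0 ≤ B ∧ ∀ y : ℝ, 0 ≤ y → |PA f y| ≤ B := by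
  obtain ⟨C1, hD⟩ := dens hf hε hfe hl
  obtain ⟨C2, hC20, hC2⟩ := pa_TT hf hε hfe hl
  obtain ⟨G, hG⟩ : ∃ G : ℝ, G = ∑' k : ZX f, od (xi f) k / (1 + (k : ℂ).im ^ 2) := ⟨_, rfl⟩
  have hG0 : 0 ≤ G := by
    rw [hG]
    exact tsum_nonneg fun k => by
      have := hD.one k
      positivity
  refine ⟨G + C2, by positivity, fun y hy => ?_⟩
  have h1 := hC2 y hy
  have h2 : |Tz (fun k : ZX f => od (xi f) k) (fun k : ZX f => (k : ℂ).im) y| ≤ G := by
    unfold Tz
    rw [hG, ← Real.norm_eq_abs]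
    refine tsum_of_norm_bounded hD.sum.hasSum fun k => ?_
    have h1 := hD.one k
    have h3 : 0 ≤ od (xi f) k / (1 + (k : ℂ).im ^ 2) := by positivity
    rw [norm_mul, Real.norm_of_nonneg h3, Real.norm_eq_abs]
    have := Real.abs_cos_le_one ((k : ℂ).im * y)
    nlinarith
  have h3 : C2 * Real.exp (-(y / 4)) ≤ C2 := by
    have := Real.exp_le_one_iff.2 (show -(y / 4) ≤ 0 by linarith)
    nlinarith
  have h4 := abs_sub_abs_le_abs_sub (PA f y) (Tz (fun k : ZX f => od (xi f) k) (fun k : ZX f => (k : ℂ).im) y)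
  linarith

/-- **Littlewood's theorem on the Riemann hypothesis.** -/
theorem lit_line (hf : Hecke f) {ε : ℂ} (hε : ‖ε‖ = 1) (hfe : ∀ s : ℂ, xi f (-s) = ε * xi f s)
    (hl : ∀ k : ZX f, (k : ℂ).re = 0) :
    ∃ c : ℝ, 0 < c ∧ (∃ᶠ t : ℝ in atTop, c * (t * Real.log (Real.log (Real.log t))) ≤ Dl (dl f) t) ∧
      ∃ᶠ t : ℝ in atTop, Dl (dl f) t ≤ -(c * (t * Real.log (Real.log (Real.log t)))) := by
  obtain ⟨C1, hD⟩ := dens hf hε hfe hl
  obtain ⟨C2, hC20, hC2⟩ := pa_TT hf hε hfe hl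
  obtain ⟨B, hB0, hB⟩ := PA_bdd hf hε hfe hl
  obtain ⟨c, hc, n0, hs⟩ := slopes hD
  have main : ∀ T : ℝ, ∃ (n : ℕ) (y h : ℝ), 3 ≤ n ∧ T ≤ n ∧ 16 * C2 + B + 1 ≤ c / 2 * Real.log n ∧ 1 ≤ Real.log n ∧
      8 * Real.log n ≤ y ∧ y ≤ Real.exp ((n : ℝ) ^ 5) ∧ h = 1 / (8 * (n : ℝ)) ∧ 0 < h ∧ h ≤ 1 ∧
      c * h * Real.log n ≤ Tz (fun k : ZX f => od (xi f) k) (fun k : ZX f => (k : ℂ).im) y -
        Tz (fun k : ZX f => od (xi f) k) (fun k : ZX f => (k : ℂ).im) (y + h) ∧
      c * h * Real.log n ≤ Tz (fun k : ZX f => od (xi f) k) (fun k : ZX f => (k : ℂ).im) y -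
        Tz (fun k : ZX f => od (xi f) k) (fun k : ZX f => (k : ℂ).im) (y - h) := by
    intro T
    have h1 : Tendsto (fun n : ℕ => c / 2 * Real.log n) atTop atTop :=
      (Real.tendsto_log_atTop.comp tendsto_natCast_atTop_atTop).const_mul_atTop (by positivity)
    have h2 := ((eventually_ge_atTop n0).and ((eventually_ge_atTop 3).and
      ((tendsto_natCast_atTop_atTop.eventually_ge_atTop T).and (h1.eventually_ge_atTop (16 * C2 + B + 1))))).exists
    obtain ⟨n, hn1, hn2, hn3, hn4⟩ := h2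
    obtain ⟨y, hy1, hy2, hy3, hy4⟩ := hs n hn1
    have hr3 : (3 : ℝ) ≤ n := by exact_mod_cast hn2
    have hr0 : (0 : ℝ) < n := by linarith
    have hlog : 1 ≤ Real.log n := by
      rw [Real.le_log_iff_exp_le hr0]
      exact Real.exp_one_lt_three.le.trans hr3
    refine ⟨n, y, 1 / (8 * (n : ℝ)), hn2, hn3, hn4, hlog, hy1, hy2, rfl, by positivity, ?_, hy3, hy4⟩
    rw [div_le_one (by positivity)]
    linarith
  refine ⟨c / 12, by positivity, ?_, ?_⟩
  · rw [frequently_atTop]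
    intro T
    by_contra hcon
    push Not at hcon
    obtain ⟨n, y, h, hn2, hn3, hn4, hlog, hy1, hy2, hh, hh0, hh1, hy3, -⟩ := main T
    have hr3 : (3 : ℝ) ≤ n := by exact_mod_cast hn2
    have hr0 : (0 : ℝ) < n := by linarith
    have hy0 : 0 ≤ y := by linarith
    have hM : ∀ t ∈ Set.Icc (Real.exp y) (Real.exp (y + h)), Dl (dl f) t ≤ (c / 2 * Real.log n) * t := by
      intro t ht
      have ht0 : 0 < t := (Real.exp_pos y).trans_le ht.1
      have h1 : T ≤ t := by
        refine hn3.trans (le_trans ?_ ht.1)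
        calc (n : ℝ) = Real.exp (Real.log n) := (Real.exp_log hr0).symm
          _ ≤ Real.exp y := Real.exp_le_exp.2 (by linarith)
      have h2 := (hcon t h1).le
      have h3 : Real.log (Real.log (Real.log t)) ≤ 6 * Real.log n :=
        lll_le hn2 hy1 hy2 (le_trans (Real.exp_le_exp.2 (by linarith)) ht.1) (ht.2.trans (Real.exp_le_exp.2 (by linarith)))
      refine h2.trans ?_
      calc c / 12 * (t * Real.log (Real.log (Real.log t))) ≤ c / 12 * (t * (6 * Real.log n)) := by gcongr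
        _ = _ := by ring
    have h1 := PA_drop (f := f) y hh0.le (M := c / 2 * Real.log n) (by positivity) hM
    have h2 := hB (y + h) (by linarith)
    have h3 := abs_le.1 (hC2 y hy0)
    have h4 := abs_le.1 (hC2 (y + h) (by linarith))
    have h5 : ∀ z : ℝ, y ≤ z → C2 * Real.exp (-(z / 4)) ≤ C2 * (8 * h) := by
      intro z hz
      refine mul_le_mul_of_nonneg_left ?_ hC20
      have e1 : 8 * h = 1 / n := by rw [hh]; field_simp
      rw [e1]
      calc Real.exp (-(z / 4)) ≤ Real.exp (-Real.log n) := Real.exp_le_exp.2 (by linarith)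
        _ = 1 / n := by rw [Real.exp_neg, Real.exp_log hr0, one_div]
    have h6 := h5 y le_rfl
    have h7 := h5 (y + h) (by linarith)
    have h8 : h * (c / 2 * Real.log n + |PA f (y + h)|) ≤ h * (c / 2 * Real.log n + B) := by gcongr
    have h9 : c * h * Real.log n - 2 * (C2 * (8 * h)) ≤ h * (c / 2 * Real.log n + B) := by linarith [h3.1, h4.2]
    have h10 : h * (c * Real.log n - 16 * C2) ≤ h * (c / 2 * Real.log n + B) := by linarith
    have h11 := le_of_mul_le_mul_left h10 hh0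
    linarith
  · rw [frequently_atTop]
    intro T
    by_contra hcon
    push Not at hcon
    obtain ⟨n, y, h, hn2, hn3, hn4, hlog, hy1, hy2, hh, hh0, hh1, -, hy3⟩ := main T
    have hr3 : (3 : ℝ) ≤ n := by exact_mod_cast hn2
    have hr0 : (0 : ℝ) < n := by linarith
    have hy0 : 0 ≤ y := by linarith
    have hM : ∀ t ∈ Set.Icc (Real.exp (y - h)) (Real.exp (y - h + h)), -((c / 2 * Real.log n) * t) ≤ Dl (dl f) t := by
      intro t ht
      have ht0 : 0 < t := (Real.exp_pos _).trans_le ht.1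
      have h1 : T ≤ t := by
        refine hn3.trans (le_trans ?_ ht.1)
        calc (n : ℝ) = Real.exp (Real.log n) := (Real.exp_log hr0).symm
          _ ≤ Real.exp (y - h) := Real.exp_le_exp.2 (by linarith)
      have h2 := (hcon t h1).le
      have h3 : Real.log (Real.log (Real.log t)) ≤ 6 * Real.log n :=
        lll_le hn2 hy1 hy2 (le_trans (Real.exp_le_exp.2 (by linarith)) ht.1)
          (ht.2.trans (Real.exp_le_exp.2 (by linarith)))
      refine le_trans ?_ h2
      have : c / 12 * (t * Real.log (Real.log (Real.log t))) ≤ c / 12 * (t * (6 * Real.log n)) := by gcongr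
      linarith
    have h1 := PA_rise (f := f) (y - h) hh0.le (M := c / 2 * Real.log n) (by positivity) hM
    rw [sub_add_cancel] at h1
    have h2 := hB y hy0
    have h3 := abs_le.1 (hC2 y hy0)
    have h4 := abs_le.1 (hC2 (y - h) (by linarith))
    have h5 : ∀ z : ℝ, y - 1 ≤ z → C2 * Real.exp (-(z / 4)) ≤ C2 * (8 * h) := by
      intro z hz
      refine mul_le_mul_of_nonneg_left ?_ hC20
      have e1 : 8 * h = 1 / n := by rw [hh]; field_simp
      rw [e1]
      calc Real.exp (-(z / 4)) ≤ Real.exp (-Real.log n) := Real.exp_le_exp.2 (by linarith)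
        _ = 1 / n := by rw [Real.exp_neg, Real.exp_log hr0, one_div]
    have h6 := h5 y (by linarith)
    have h7 := h5 (y - h) (by linarith)
    have h8 : h * (c / 2 * Real.log n + |PA f y|) ≤ h * (c / 2 * Real.log n + B) := by gcongr
    have h9 : c * h * Real.log n - 2 * (C2 * (8 * h)) ≤ h * (c / 2 * Real.log n + B) := by linarith [h3.1, h4.2]
    have h10 : h * (c * Real.log n - 16 * C2) ≤ h * (c / 2 * Real.log n + B) := by linarith
    have h11 := le_of_mul_le_mul_left h10 hh0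
    linarith

end

end Pool.Agent.H862.EC
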