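import Pool.Agent.H862.EC.Dat

/-!
# The explicit formula with an exponentially small remainder
-/

set_option autoImplicit false
set_option linter.unusedSectionVars false

open Complex MeasureTheory Filter Topology Set CongruenceSubgroup
open scoped ComplexConjugate FourierTransform MatrixGroups
open Pool.Agent.TH941 (Hecke)
open Pool.Agent.NH98.RT.Xi
open Pool.Agent.H862.EL (od exp_lap full_half int_tsum inversion rlem SysL m0)

namespace Pool.Agent.H862.EC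

section
variable {α : ℝ} {Y B : ℂ → ℂ} {a : ℕ → ℂ}

lemma RG_bd4 (H : EDat α Y B a) (hBb : ∃ C : ℝ, 0 < C ∧ ∀ z : ℂ, -(1 / 4) ≤ z.re → ‖B z‖ ≤ C * Real.log (2 + ‖z‖)) :
    ∃ K : ℝ, 0 ≤ K ∧ ∀ w : ℂ, -(1 / 4) ≤ w.re → w.re ≤ α + 1 / 2 →
    ‖RG α B w‖ ≤ K * (1 + ‖w.im‖) ^ (-(3 / 2) : ℝ) := by
  have hα := H.hα
  obtain ⟨C, hC0, hC⟩ := hBb
  -- the compact part
  obtain ⟨T, hT⟩ : ∃ T : ℝ, T = α + 1 := ⟨_, rfl⟩
  obtain ⟨M, hM⟩ : ∃ M : ℝ, ∀ w : ℂ, -(1 / 4) ≤ w.re → w.re ≤ α + 1 / 2 → |w.im| ≤ T → ‖RG α B w‖ ≤ M := by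
    have hc : IsCompact (Icc (-(1 / 4) : ℝ) (α + 1 / 2) ×ℂ Icc (-T) T) := isCompact_Icc.reProdIm isCompact_Icc
    have hcont : ContinuousOn (fun w => ‖RG α B w‖) (Icc (-(1 / 4) : ℝ) (α + 1 / 2) ×ℂ Icc (-T) T) := by
      intro w hw
      have h1 : w.re ∈ Icc (-(1 / 4) : ℝ) (α + 1 / 2) := hw.1
      exact (RG_diff H (by linarith [h1.1])).continuousAt.norm.continuousWithinAt
    obtain ⟨M, hM⟩ := hc.bddAbove_image hcont
    exact ⟨M, fun w h1 h2 h3 => hM ⟨w, ⟨⟨h1, h2⟩, abs_le.1 h3⟩, rfl⟩⟩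
  have hM0 : 0 ≤ M := (norm_nonneg _).trans (hM 0 (by simp) (by simp; linarith) (by simp; linarith))
  obtain ⟨A, hA⟩ : ∃ A : ℝ, A = (1 + T) ^ (3 / 2 : ℝ) := ⟨_, rfl⟩
  have hA0 : 0 < A := by rw [hA]; exact Real.rpow_pos_of_pos (by linarith) _
  refine ⟨A * M + 2 * α * (32 * C), by positivity, fun w h0 h1 => ?_⟩
  have ht0 := norm_nonneg w.im
  rcases le_or_gt |w.im| T with h2 | h2
  · refine (hM w h0 h1 h2).trans ?_
    have h3 : 1 / A ≤ (1 + ‖w.im‖) ^ (-(3 / 2) : ℝ) := by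
      rw [Real.rpow_neg (by positivity), ← one_div]
      apply one_div_le_one_div_of_le (by positivity)
      rw [hA]
      exact Real.rpow_le_rpow (by positivity) (by rw [Real.norm_eq_abs]; linarith) (by norm_num)
    have h4 : 0 ≤ (1 + ‖w.im‖) ^ (-(3 / 2) : ℝ) := by positivity
    have h5 : 0 ≤ 2 * α * (32 * C) := by positivity
    have h6 : M = A * M * (1 / A) := by field_simp
    have h7 : A * M * (1 / A) ≤ A * M * (1 + ‖w.im‖) ^ (-(3 / 2) : ℝ) :=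
      mul_le_mul_of_nonneg_left h3 (by positivity)
    nlinarith
  · have ht : T < ‖w.im‖ := h2
    have n3 : w ≠ α := by
      intro h
      rw [h, ofReal_im] at ht
      simp at ht
      linarith
    unfold RG
    rw [dslope_of_ne _ n3, slope_def_field, norm_mul, norm_div, norm_div]
    have e0 : ‖(2 * α : ℂ)‖ = 2 * α := by
      rw [norm_mul, Complex.norm_real, Real.norm_of_nonneg (by linarith)]
      norm_num
    rw [e0]
    have g1 : ‖w.im‖ ≤ ‖w - α‖ := by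
      have := Complex.abs_im_le_norm (w - α)
      rw [sub_im, ofReal_im, sub_zero] at this
      exact this
    have g2 : ‖w.im‖ ≤ ‖w + α‖ := by
      have := Complex.abs_im_le_norm (w + α)
      rw [add_im, ofReal_im, add_zero] at this
      exact this
    have hw : ‖w‖ ≤ 2 * (1 + ‖w.im‖) := by
      refine (Complex.norm_le_abs_re_add_abs_im w).trans ?_
      have h0' : |w.re| ≤ α + 1 / 2 := abs_le.2 ⟨by linarith, h1⟩
      rw [← Real.norm_eq_abs w.im]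
      linarith
    have hlog : ∀ x : ℝ, 0 ≤ x → x ≤ 2 * (1 + ‖w.im‖) → Real.log (2 + x) ≤ 4 * (1 + ‖w.im‖) ^ (1 / 2 : ℝ) := by
      intro x hx0 hx
      have h3 : Real.log (2 + x) ≤ (2 + x) ^ (1 / 2 : ℝ) / (1 / 2) :=
        Real.log_le_rpow_div (by positivity) (by norm_num)
      have h4 : (2 + x) ^ (1 / 2 : ℝ) ≤ (4 * (1 + ‖w.im‖)) ^ (1 / 2 : ℝ) :=
        Real.rpow_le_rpow (by positivity) (by linarith) (by norm_num)
      rw [Real.mul_rpow (by norm_num) (by positivity)] at h4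
      have h5 : (4 : ℝ) ^ (1 / 2 : ℝ) = 2 := by
        rw [← Real.sqrt_eq_rpow, show (4 : ℝ) = 2 ^ 2 by norm_num]
        exact Real.sqrt_sq (by norm_num)
      rw [h5] at h4
      linarith
    have h6 : ‖B w - B α‖ ≤ 8 * C * (1 + ‖w.im‖) ^ (1 / 2 : ℝ) := by
      refine (norm_sub_le _ _).trans ?_
      have h7 := (hC w h0).trans (mul_le_mul_of_nonneg_left (hlog ‖w‖ (norm_nonneg _) hw) hC0.le)
      have h8 := (hC α (by rw [ofReal_re]; linarith)).trans (mul_le_mul_of_nonneg_left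
        (hlog ‖(α : ℂ)‖ (norm_nonneg _) (by
          rw [Complex.norm_real, Real.norm_of_nonneg (by linarith)]
          linarith)) hC0.le)
      linarith
    have h9 : (1 + ‖w.im‖) ^ 2 / 4 ≤ ‖w - α‖ * ‖w + α‖ := by
      have := mul_le_mul g1 g2 ht0 (norm_nonneg _)
      have h10 : 1 ≤ ‖w.im‖ := by linarith
      nlinarith
    have hpos : (0 : ℝ) < 1 + ‖w.im‖ := by linarith
    have h11 : ‖B w - B α‖ / ‖w - α‖ / ‖w + α‖ ≤ 32 * C * (1 + ‖w.im‖) ^ (-(3 / 2) : ℝ) := by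
      calc ‖B w - B α‖ / ‖w - α‖ / ‖w + α‖ = ‖B w - B α‖ / (‖w - α‖ * ‖w + α‖) := by
            rw [div_div]
        _ ≤ (8 * C * (1 + ‖w.im‖) ^ (1 / 2 : ℝ)) / ((1 + ‖w.im‖) ^ 2 / 4) := by
            gcongr
        _ = 32 * C * ((1 + ‖w.im‖) ^ (1 / 2 : ℝ) / (1 + ‖w.im‖) ^ (2 : ℝ)) := by
            rw [Real.rpow_two]
            field_simp
            ring
        _ = 32 * C * (1 + ‖w.im‖) ^ (-(3 / 2) : ℝ) := by
            rw [← Real.rpow_sub hpos]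
            norm_num
    have h12 : 0 ≤ A * M * (1 + ‖w.im‖) ^ (-(3 / 2) : ℝ) := by positivity
    have h13 := mul_le_mul_of_nonneg_left h11 (show 0 ≤ 2 * α by linarith)
    linarith

/-- **The explicit formula with a rate.** -/
theorem exg_rate (H : EDat α Y B a) (hBb : ∃ C : ℝ, 0 < C ∧ ∀ z : ℂ, -(1 / 4) ≤ z.re → ‖B z‖ ≤ C * Real.log (2 + ‖z‖)) :
    ∃ C : ℝ, 0 ≤ C ∧ ∀ y : ℝ, ‖QG α Y B a y‖ ≤ C * Real.exp (-(y / 4)) := by
  have hα := H.hα
  obtain ⟨K, hK0, hK⟩ := RG_bd4 H hBb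
  have hdec : Integrable fun t : ℝ => K * (1 + ‖t‖) ^ (-(3 / 2) : ℝ) :=
    (integrable_one_add_norm (by simp; norm_num)).const_mul K
  have hline : ∀ x : ℝ, -(1 / 4) ≤ x → x ≤ α + 1 / 2 → Continuous fun t : ℝ => RG α B ⟨x, t⟩ := by
    intro x h0 h1
    rw [continuous_iff_continuousAt]
    intro t
    have h2 : ContinuousAt (RG α B) (⟨x, t⟩ : ℂ) :=
      (RG_diff H (w := ⟨x, t⟩) (by show -(1 / 2 : ℝ) < x; linarith)).continuousAt
    exact h2.comp (f := fun t : ℝ => (⟨x, t⟩ : ℂ)) (Pool.Agent.H862.VK.mk_cont x).continuousAt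
  have hint : ∀ x : ℝ, -(1 / 4) ≤ x → x ≤ α + 1 / 2 → Integrable fun t : ℝ => RG α B ⟨x, t⟩ := fun x h0 h1 =>
    hdec.mono' (hline x h0 h1).aestronglyMeasurable (Eventually.of_forall fun t => hK ⟨x, t⟩ h0 h1)
  obtain ⟨β, hβ⟩ : ∃ β : ℝ, β = α + 1 / 2 := ⟨_, rfl⟩
  have hβ0 : -(1 / 4) ≤ β := by rw [hβ]; linarith
  have hβ1 : 0 ≤ β := by rw [hβ]; linarith
  rw [← hβ] at hline hint hK
  have hone : ∀ t y : ℝ, cexp (-((⟨β, t⟩ : ℂ) * y)) = cexp (-(β * y : ℂ)) * cexp (-(t * y * I)) := by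
    intro t y
    rw [← Complex.exp_add]
    congr 1
    have : (⟨β, t⟩ : ℂ) = β + t * I := by apply Complex.ext <;> simp
    rw [this]
    ring
  have h1 : ∀ y : ℝ, QG α Y B a y * cexp (-(β * y : ℂ)) =
      (1 / (2 * Real.pi)) * ∫ t : ℝ, RG α B ⟨β, t⟩ * cexp (t * y * I) := by
    intro y
    refine inversion (q := fun y : ℝ => QG α Y B a y * cexp (-(β * y : ℂ))) ((QG_cont H).mul (by fun_prop)) ?_
      (hint β hβ0 le_rfl) (fun t => ?_) y
    · have := (QG_lap H (w := ⟨β, 0⟩) (by show β = α + 1 / 2; exact hβ)).1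
      refine this.congr (Eventually.of_forall fun y => ?_)
      simp only
      rw [hone]
      simp
    · rw [← (QG_lap H (w := ⟨β, t⟩) (by show β = α + 1 / 2; exact hβ)).2]
      refine integral_congr_ae (Eventually.of_forall fun y => ?_)
      simp only
      rw [hone, mul_assoc]
  have h2 : ∀ y : ℝ, QG α Y B a y = (1 / (2 * Real.pi)) *
      ∫ t : ℝ, RG α B ⟨-(1 / 4), t⟩ * cexp ((⟨-(1 / 4), t⟩ : ℂ) * y) := by
    intro y
    have e1 : QG α Y B a y = (1 / (2 * Real.pi)) * ∫ t : ℝ, RG α B ⟨β, t⟩ * cexp ((⟨β, t⟩ : ℂ) * y) := by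
      have h3 := congrArg (fun x => x * cexp (β * y : ℂ)) (h1 y)
      rw [mul_assoc, ← Complex.exp_add, neg_add_cancel, Complex.exp_zero, mul_one] at h3
      rw [h3, mul_assoc, ← integral_mul_const]
      congr 1
      refine integral_congr_ae (Eventually.of_forall fun t => ?_)
      simp only
      rw [mul_assoc, ← Complex.exp_add]
      congr 2
      have : (⟨β, t⟩ : ℂ) = β + t * I := by apply Complex.ext <;> simp
      rw [this]
      ring
    rw [e1]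
    congr 1
    have hn : ∀ x : ℝ, -(1 / 4) ≤ x → x ≤ β → ∀ t : ℝ, ‖cexp ((⟨x, t⟩ : ℂ) * y)‖ ≤ Real.exp ((β + 1) * |y|) := by
      intro x h0 h1 t
      rw [Complex.norm_exp]
      refine Real.exp_le_exp.2 ?_
      rw [Complex.re_mul_ofReal]
      show x * y ≤ (β + 1) * |y|
      have h6 := abs_nonneg y
      have h7 : |x| ≤ β + 1 := abs_le.2 ⟨by linarith, by linarith⟩
      calc x * y ≤ |x * y| := le_abs_self _
        _ = |x| * |y| := abs_mul _ _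
        _ ≤ _ := mul_le_mul_of_nonneg_right h7 h6
    have hint2 : ∀ x : ℝ, -(1 / 4) ≤ x → x ≤ β → Integrable fun t : ℝ => RG α B ⟨x, t⟩ * cexp ((⟨x, t⟩ : ℂ) * y) := by
      intro x h0 h1
      refine (hdec.mul_const (Real.exp ((β + 1) * |y|))).mono' ((hline x h0 h1).mul (Complex.continuous_exp.comp
        ((Pool.Agent.H862.VK.mk_cont x).mul continuous_const))).aestronglyMeasurable
        (Eventually.of_forall fun t => ?_)
      rw [norm_mul]
      exact mul_le_mul (hK ⟨x, t⟩ h0 h1) (hn x h0 h1 t) (norm_nonneg _) (by positivity)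
    have hD : Tendsto (fun T : ℝ => K * (1 + T) ^ (-(3 / 2) : ℝ) * Real.exp ((β + 1) * |y|)) atTop (𝓝 0) := by
      have k1 : Tendsto (fun T : ℝ => (1 + T) ^ (-(3 / 2) : ℝ)) atTop (𝓝 0) :=
        (tendsto_rpow_neg_atTop (by norm_num)).comp (tendsto_atTop_add_const_left _ 1 tendsto_id)
      have := (k1.const_mul K).mul_const (Real.exp ((β + 1) * |y|))
      rw [mul_zero, zero_mul] at this
      exact this
    exact Pool.Agent.H862.VK.shift0 (G := fun w => RG α B w * cexp (w * y)) (a := -(1 / 4)) (b := β)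
      (D := fun T => K * (1 + T) ^ (-(3 / 2) : ℝ) * Real.exp ((β + 1) * |y|)) hβ0
      (fun z h0 _ => (RG_diff H (by linarith)).mul (by fun_prop)) (hint2 _ le_rfl hβ0)
      (hint2 β hβ0 le_rfl) hD (fun x hx t T hT ht => by
        rw [norm_mul]
        refine mul_le_mul ?_ (hn x hx.1 hx.2 t) (norm_nonneg _) (by positivity)
        have := hK ⟨x, t⟩ hx.1 hx.2
        rw [Real.norm_eq_abs] at this
        rwa [ht] at this)
  obtain ⟨J, hJ⟩ : ∃ J : ℝ, J = ∫ t : ℝ, K * (1 + ‖t‖) ^ (-(3 / 2) : ℝ) := ⟨_, rfl⟩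
  have hJ0 : 0 ≤ J := by rw [hJ]; exact integral_nonneg fun t => by positivity
  have hpi := Real.pi_pos
  refine ⟨1 / (2 * Real.pi) * J, by positivity, fun y => ?_⟩
  rw [h2 y, norm_mul]
  have e3 : ‖(1 / (2 * Real.pi) : ℂ)‖ = 1 / (2 * Real.pi) := by
    rw [show (1 / (2 * Real.pi) : ℂ) = ((1 / (2 * Real.pi) : ℝ) : ℂ) by push_cast; ring, Complex.norm_real,
      Real.norm_of_nonneg (by positivity)]
  rw [e3, mul_assoc]
  refine mul_le_mul_of_nonneg_left ?_ (by positivity)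
  rw [hJ, ← integral_mul_const]
  refine norm_integral_le_of_norm_le (hdec.mul_const _) (Eventually.of_forall fun t => ?_)
  rw [norm_mul]
  refine mul_le_mul (hK ⟨-(1 / 4), t⟩ le_rfl hβ0) (le_of_eq ?_) (norm_nonneg _) (by positivity)
  rw [Complex.norm_exp, Complex.re_mul_ofReal]
  congr 1
  show -(1 / 4) * y = _
  ring

end

section
variable {α : ℝ} {Y B : ℂ → ℂ} {a : ℕ → ℂ} {P : ℝ → ℝ}

/-- the rate for the system of the zeros -/
lemma sys_rate (F : SDat α Y B a P)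
    (hBb : ∃ C : ℝ, 0 < C ∧ ∀ z : ℂ, -(1 / 4) ≤ z.re → ‖B z‖ ≤ C * Real.log (2 + ‖z‖)) :
    ∃ C : ℝ, 0 ≤ C ∧ ∀ y : ℝ, 0 ≤ y →
      ‖(P y : ℂ) - ∑' k : {b : ℂ // Y b = 0}, (od Y k : ℂ) * AG α k * cexp ((k : ℂ) * y)‖ ≤
        C * Real.exp (-(y / 4)) := by
  have hα := F.dat.hα
  obtain ⟨C, hC0, hC⟩ := exg_rate F.dat hBb
  obtain ⟨c, hc⟩ : ∃ c : ℂ, c = (logDeriv Y α - B α) - ∑' b : {b : ℂ // Y b = 0}, ag α Y b := ⟨_, rfl⟩
  refine ⟨C + ‖c‖, by positivity, fun y hy => ?_⟩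
  have hsum : Summable fun b : {b : ℂ // Y b = 0} => ag α Y b * cexp ((b : ℂ) * y) := by
    refine Summable.of_norm_bounded ((ag_sum F.dat).mul_right (Real.exp |y|)) fun b => ?_
    rw [norm_mul]
    refine mul_le_mul_of_nonneg_left ?_ (norm_nonneg _)
    rw [Complex.norm_exp]
    refine Real.exp_le_exp.2 ?_
    rw [Complex.re_mul_ofReal]
    have h5 := abs_le.1 (F.dat.strip b b.2)
    rw [abs_of_nonneg hy]
    nlinarith
  have hZ : ZG α Y y = (∑' b : {b : ℂ // Y b = 0}, ag α Y b * cexp ((b : ℂ) * y)) -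
      (∑' b : {b : ℂ // Y b = 0}, ag α Y b) * cexp (-(α : ℂ) * y) := by
    unfold ZG
    rw [← tsum_mul_right, ← hsum.tsum_sub (((ag_sum F.dat).of_norm).mul_right _)]
    refine tsum_congr fun b => ?_
    rw [bg_pos _ hy, mul_sub]
  have hall : ∑' k : {b : ℂ // Y b = 0}, (od Y k : ℂ) * AG α k * cexp ((k : ℂ) * y) =
      ∑' b : {b : ℂ // Y b = 0}, ag α Y b * cexp ((b : ℂ) * y) := rfl
  have e : (P y : ℂ) - ∑' k : {b : ℂ // Y b = 0}, (od Y k : ℂ) * AG α k * cexp ((k : ℂ) * y) =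
      QG α Y B a y + c * cexp (-(α : ℂ) * y) := by
    rw [hall, F.eq y hy, hc]
    unfold QG
    rw [hZ, bg_pos _ hy]
    ring
  rw [e]
  refine (norm_add_le _ _).trans ?_
  have h4 : ‖cexp (-(α : ℂ) * y)‖ ≤ Real.exp (-(y / 4)) := by
    rw [Complex.norm_exp]
    refine Real.exp_le_exp.2 ?_
    rw [Complex.re_mul_ofReal, neg_re, ofReal_re]
    nlinarith
  rw [norm_mul, add_mul]
  exact add_le_add (hC y) (mul_le_mul_of_nonneg_left h4 (norm_nonneg _))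

end

section
variable {N : ℕ} [NeZero N] {f : CuspForm (Gamma0 N : Subgroup (GL (Fin 2) ℝ)) 2}

lemma Bf_le4 : ∃ C : ℝ, 0 < C ∧ ∀ z : ℂ, -(1 / 4) ≤ z.re → ‖Bf N z‖ ≤ C * Real.log (2 + ‖z‖) := by
  obtain ⟨C, hC0, hC⟩ := Pool.Agent.NH13.UV.LDg.digamma_le
  have hl2 : 0 < Real.log 2 := Real.log_pos (by norm_num)
  obtain ⟨M, hM⟩ : ∃ M : ℝ, M = |Real.log N / 2 - Real.log (2 * Real.pi)| := ⟨_, rfl⟩
  have hM0 : 0 ≤ M := by rw [hM]; exact abs_nonneg _
  refine ⟨(M + C) / Real.log 2 + 2, by positivity, fun z hz => ?_⟩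
  have hz0 := norm_nonneg z
  have h1 := hC (1 + z) (by rw [add_re, one_re]; linarith)
  have hn : ‖1 + z‖ ≤ ‖z‖ + 1 := by
    refine (norm_add_le _ _).trans ?_
    rw [norm_one]
    linarith
  have h3 : Real.log (2 + ‖1 + z‖) ≤ 2 * Real.log (2 + ‖z‖) := by
    have : (2 : ℝ) * Real.log (2 + ‖z‖) = Real.log ((2 + ‖z‖) ^ 2) := by
      rw [Real.log_pow]
      norm_num
    rw [this]
    apply Real.log_le_log (by positivity)
    nlinarith
  have h4 : Real.log 2 ≤ Real.log (2 + ‖z‖) := Real.log_le_log (by norm_num) (by linarith)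
  have h5 : M + C ≤ (M + C) / Real.log 2 * Real.log (2 + ‖z‖) := by
    rw [div_mul_eq_mul_div, le_div_iff₀ hl2]
    exact mul_le_mul_of_nonneg_left h4 (by positivity)
  unfold Bf
  refine (norm_add_le _ _).trans ?_
  rw [Complex.norm_real, Real.norm_eq_abs, ← hM]
  linarith

lemma pa_rate (hf : Hecke f) {ε : ℂ} (hε : ‖ε‖ = 1) (hfe : ∀ s : ℂ, xi f (-s) = ε * xi f s) :
    ∃ C : ℝ, 0 ≤ C ∧ ∀ y : ℝ, 0 ≤ y →
      ‖(PA f y : ℂ) - ∑' k : ZX f, (od (xi f) k : ℂ) * A1 k * cexp ((k : ℂ) * y)‖ ≤ C * Real.exp (-(y / 4)) := by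
  obtain ⟨C, hC0, hC⟩ := sys_rate (sdat hf hε hfe) Bf_le4
  refine ⟨C / 2, by positivity, fun y hy => ?_⟩
  have e : (PA f y : ℂ) - ∑' k : ZX f, (od (xi f) k : ℂ) * A1 k * cexp ((k : ℂ) * y) = (1 / 2 : ℂ) *
      ((P2 f y : ℂ) - ∑' k : {b : ℂ // xi f b = 0}, (od (xi f) k : ℂ) * AG 1 k * cexp ((k : ℂ) * y)) := by
    rw [mul_sub, ← tsum_mul_left]
    unfold PA
    push_cast
    congr 1
    refine tsum_congr fun k => ?_
    have := congrFun A1_eq (k : ℂ)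
    rw [← this]
    push_cast
    ring
  rw [e, norm_mul]
  have h1 : ‖(1 / 2 : ℂ)‖ = 1 / 2 := by norm_num
  rw [h1]
  have := hC y hy
  linarith

/-- the rate on the critical line -/
lemma line_rate (hf : Hecke f) {ε : ℂ} (hε : ‖ε‖ = 1) (hfe : ∀ s : ℂ, xi f (-s) = ε * xi f s)
    (hl : ∀ k : ZX f, (k : ℂ).re = 0) : ∃ C : ℝ, 0 ≤ C ∧ ∀ y : ℝ, 0 ≤ y →
      |PA f y - (m0 (fun k : ZX f => (k : ℂ)) (fun k => od (xi f) k) A1 +
        TS (fun k : {k : ZX f // 0 < (k : ℂ).im} => Pool.Agent.H862.EL.cf (fun k : ZX f => (k : ℂ)) (fun k => od (xi f) k) A1 k)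
          (fun k => ((k : ZX f) : ℂ).im) y)| ≤ C * Real.exp (-(y / 4)) := by
  obtain ⟨C, hC0, hC⟩ := pa_rate hf hε hfe
  refine ⟨C, hC0, fun y hy => ?_⟩
  have h1 := hC y hy
  have h2 := Pool.Agent.H862.EL.sum_line (fsys hf hε hfe) hl y
  rw [h2, ← Complex.ofReal_sub, Complex.norm_real, Real.norm_eq_abs] at h1
  exact h1

end

end Pool.Agent.H862.EC
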